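import Pool.Agent.Work.MP_a5099b_nt.I1.ECore
import Pool.Agent.Work.MP_a5099b_nt.I.EForm

set_option autoImplicit false

/-!
# Fin (assembly): primes represented by a form of determinant `q ≡ 1 mod 4` in a residue class modulo `8 m`
-/

namespace Pool.Agent.Work.MP_a5099b_nt.PrG

open Finset NumberField
open Pool.Agent.Work.MP_a5099b_nt.PrF (Sm LamK ids mem_ids cK lK Dat tw)


/-- forms of determinant `q` -/
theorem primes_even (q : ℕ) (hq : q.Prime) (h1 : q % 4 = 1) (m : ℕ) (hm : Odd m) (hs : Squarefree m)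
    (hqm : ¬ q ∣ m) (a b c : ℤ) (ha : 0 < a) (hd : a * c - b ^ 2 = q) (x₀ y₀ : ℤ)
    (hc : IsCoprime (a * x₀ ^ 2 + 2 * b * x₀ * y₀ + c * y₀ ^ 2) ((8 * m : ℕ) : ℤ)) (B : ℕ) :
    ∃ l : ℕ, B < l ∧ l.Prime ∧
      (l : ℤ) ≡ a * x₀ ^ 2 + 2 * b * x₀ * y₀ + c * y₀ ^ 2 [ZMOD ((8 * m : ℕ) : ℤ)] ∧
      ∃ x y : ℤ, (l : ℤ) = a * x ^ 2 + 2 * b * x * y + c * y ^ 2 := by
  have h0 : 0 < 8 * m := by
    obtain ⟨k, hk⟩ := hm
    omega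
  obtain ⟨a₁, b₁, c₁, g1, g2, g4, g5⟩ := PrF.to_first q hq.pos a b c ha hd (8 * m) h0 x₀ y₀ hc
  have hcop : IsCoprime a₁ ((8 * m : ℕ) : ℤ) := by
    obtain ⟨k, hk⟩ := g4.dvd
    have hk' : a * x₀ ^ 2 + 2 * b * x₀ * y₀ + c * y₀ ^ 2 = a₁ + (8 * m : ℕ) * k := by linarith
    rw [hk'] at hc
    exact hc.of_add_mul_left_left
  obtain ⟨l, hl1, hl2, hl3, X, Y, hl4⟩ := core q hq h1 m hm hs hqm a₁ b₁ c₁ g1 hcop g2 B
  obtain ⟨x, y, hxy⟩ := g5 X Y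
  exact ⟨l, hl1, hl2, hl3.trans g4, x, y, by rw [hl4, hxy]⟩

end Pool.Agent.Work.MP_a5099b_nt.PrG
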