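import Pool.Agent.Work.MP_a5099b_nt.I1.CDefs

set_option autoImplicit false

/-!
# EInst (size S, Mathlib only): the field exists

PROOF: copy of `I/EInst.lean` (proved) with `q % 4 = 1`.
-/

namespace Pool.Agent.Work.MP_a5099b_nt.PrG

open Finset NumberField
open Pool.Agent.Work.MP_a5099b_nt.PrF (Sm LamK ids mem_ids cK lK Dat tw)


private theorem fact_quad (q : ℕ) (hq : 0 < q) : ∀ r : ℚ, r ^ 2 ≠ (-(q : ℚ)) + 0 * r := by
  intro r h
  have h1 : (0 : ℚ) < q := by exact_mod_cast hq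
  nlinarith [sq_nonneg r]

theorem exists_quad (q : ℕ) (hq : q.Prime) (h1 : q % 4 = 1) :
    ∃ (K : Type) (i1 : Field K) (i2 : @NumberField K i1) (δ : @RingOfIntegers K i1), @Quad K i1 i2 q δ := by
  have : Fact (∀ r : ℚ, r ^ 2 ≠ (-(q : ℚ)) + 0 * r) := ⟨fact_quad q hq.pos⟩
  let K := QuadraticAlgebra ℚ (-(q : ℚ)) 0
  have hsq : (⟨0, 1⟩ : QuadraticAlgebra ℚ (-(q : ℚ)) 0) * ⟨0, 1⟩ =
      -((q : ℕ) : QuadraticAlgebra ℚ (-(q : ℚ)) 0) := by
    ext <;> simp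
  have hfin : @Module.finrank ℚ K _ _ (@Algebra.toModule ℚ K _ _ DivisionRing.toRatAlgebra) = 2 := by
    have h := QuadraticAlgebra.finrank_eq_two (R := ℚ) (-(q : ℚ)) 0
    convert h using 2
  have hnf : NumberField K :=
    { to_charZero := inferInstance
      to_finiteDimensional := Module.finite_of_finrank_pos (by rw [hfin]; norm_num) }
  have hint : IsIntegral ℤ (⟨0, 1⟩ : K) := by
    refine ⟨Polynomial.X ^ 2 + Polynomial.C (q : ℤ), ?_, ?_⟩
    · exact Polynomial.monic_X_pow_add_C _ two_ne_zero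
    · rw [Polynomial.eval₂_add, Polynomial.eval₂_pow, Polynomial.eval₂_X, Polynomial.eval₂_C]
      ext
      · simp [sq]
      · simp [sq]
  obtain ⟨δ, hδ⟩ : ∃ δ : 𝓞 K, (algebraMap (𝓞 K) K) δ = (⟨0, 1⟩ : K) :=
    ⟨⟨⟨0, 1⟩, (mem_integralClosure_iff ℤ K).2 hint⟩, rfl⟩
  refine ⟨K, inferInstance, hnf, δ, hq, h1, hfin, ?_⟩
  apply RingOfIntegers.coe_injective
  have h2 : (algebraMap (𝓞 K) K) (δ * δ) = (algebraMap (𝓞 K) K) (-(q : 𝓞 K)) := by
    rw [map_mul, map_neg, map_natCast, hδ]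
    exact hsq
  exact h2

end Pool.Agent.Work.MP_a5099b_nt.PrG
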