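import Pool.Agent.Work.MP_a5099b_nt.I1.CConj

set_option autoImplicit false

/-!
# DStab (size M, uses the statements of CInt, CConj): ideals stable under complex conjugation

PROOF (compare `I/DStab.lean`, proved). Let `J ≠ ⊥` be stable. The coefficients `v` of the elements `u + v δ ∈ J` form an ideal `(n)` of `ℤ`, `n > 0`, and `J ∩ ℤ = (m)`; for `x = u + v δ ∈ J` also `δ x = -q v + u δ ∈ J`, so
`n ∣ u` as well: every element of `J` is divisible by `n`: `J = (n) J'` and it suffices to treat `n = 1`: there is `b + δ ∈ J`, `J = ℤ a + ℤ (b + δ)` with `J ∩ ℤ = (a)`, `a > 0`. `(b + δ)(b - δ) = b² + q ∈ J ∩ ℤ`, so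
`a ∣ b² + q`; `J` is stable: `b - δ ∈ J`, so `2 b ∈ J ∩ ℤ`, `a ∣ 2 b`. Hence `a ∣ 4 q` (`4 (b² + q) - (2 b)²`).
`a` odd: `a ∣ b`, `a ∣ q`: `a = 1`, `J = ⊤ = (1)`, or `a = q`, `q ∣ b`, `J = (q, δ) = (δ)` (`q = -δ²`).
`a` even: `b² + q` is even, `b` is odd, `b² + q ≡ 2 mod 4`, so `a = 2 a'`, `a'` odd, `a' ∣ b`, `a' ∣ q`: `a = 2`, `J = (2, b + δ) = (2, 1 + δ)`, or `a = 2 q`, `b = q b'`, `b'` odd, `J = (2 q, b + δ) = (2 q, q + δ) = (δ)(2, 1 + δ)`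
(`δ * (2, 1 + δ) = (2 δ, δ - q)` contains `2 (δ - q) - 2 δ = - 2 q`).
`p2_sq`: `(2, 1 + δ)² = (4, 2 (1 + δ), (1 + δ)²)`, `(1 + δ)² = 1 - q + 2 δ`, `4 ∣ 1 - q`... all generators are divisible by `2`; `2 (1 + δ) - (1 + δ)² = 1 + q = 2 * odd`, so `2` is a combination of `4` and `1 + q`.
-/

namespace Pool.Agent.Work.MP_a5099b_nt.PrG

open Finset NumberField
open Pool.Agent.Work.MP_a5099b_nt.PrF (Sm LamK ids mem_ids cK lK Dat tw)

variable {K : Type} [Field K] [NumberField K] {q : ℕ} {δ : 𝓞 K}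

/-- the ideal of the coordinates of the elements of `J` at `δ` -/
private def cIdl (J : Ideal (𝓞 K)) (ω : 𝓞 K) : Ideal ℤ where
  carrier := {v | ∃ a : ℤ, (a : 𝓞 K) + (v : 𝓞 K) * ω ∈ J}
  add_mem' := by
    rintro v w ⟨a, ha⟩ ⟨b, hb⟩
    refine ⟨a + b, ?_⟩
    have := J.add_mem ha hb
    have e : ((a + b : ℤ) : 𝓞 K) + ((v + w : ℤ) : 𝓞 K) * ω = ((a : 𝓞 K) + (v : 𝓞 K) * ω) + ((b : 𝓞 K) + (w : 𝓞 K) * ω) := by
      push_cast; ring
    rw [e]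
    exact this
  zero_mem' := ⟨0, by
    have e : ((0 : ℤ) : 𝓞 K) + ((0 : ℤ) : 𝓞 K) * ω = 0 := by push_cast; ring
    rw [e]
    exact J.zero_mem⟩
  smul_mem' := by
    rintro c v ⟨a, ha⟩
    refine ⟨c * a, ?_⟩
    have := J.mul_mem_left (c : 𝓞 K) ha
    have e : ((c * a : ℤ) : 𝓞 K) + ((c • v : ℤ) : 𝓞 K) * ω = (c : 𝓞 K) * ((a : 𝓞 K) + (v : 𝓞 K) * ω) := by
      rw [smul_eq_mul]; push_cast; ring
    rw [e]
    exact this

private theorem exM (h : Quad K q δ) : ∃ m : ℤ, (q : 𝓞 K) = 4 * (m : 𝓞 K) + 1 := by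
  obtain ⟨m, hm⟩ : ∃ m : ℕ, q = 4 * m + 1 := ⟨q / 4, by have := h.mod4; omega⟩
  refine ⟨m, ?_⟩
  have : ((q : ℕ) : 𝓞 K) = ((4 * m + 1 : ℕ) : 𝓞 K) := by rw [← hm]
  rw [this]
  push_cast
  ring

private theorem p2_sq_aux (h : Quad K q δ) : P2 δ * P2 δ = Ideal.span {(2 : 𝓞 K)} := by
  obtain ⟨m, hm⟩ := exM h
  have hsq := h.sq
  have e4 : (1 + δ) * (1 + δ) = 2 * (δ - 2 * m) := by
    linear_combination hsq - hm
  apply le_antisymm
  · unfold P2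
    rw [Ideal.span_mul_span', Ideal.span_le]
    rintro x hx
    rw [Set.mem_mul] at hx
    obtain ⟨y, hy, z, hz, rfl⟩ := hx
    simp only [Set.mem_insert_iff, Set.mem_singleton_iff] at hy hz
    rw [SetLike.mem_coe, Ideal.mem_span_singleton]
    rcases hy with rfl | rfl
    · exact dvd_mul_right _ _
    · rcases hz with rfl | rfl
      · exact dvd_mul_left _ _
      · exact ⟨_, e4⟩
  · rw [Ideal.span_singleton_le_iff_mem]
    have h2 : (2 : 𝓞 K) ∈ P2 δ := Ideal.subset_span (by simp)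
    have h1 : 1 + δ ∈ P2 δ := Ideal.subset_span (by simp)
    have a1 := Ideal.mul_mem_mul h2 h1
    have a2 := Ideal.mul_mem_mul h1 h1
    have a3 := (P2 δ * P2 δ).mul_mem_left (m : 𝓞 K) (Ideal.mul_mem_mul h2 h2)
    have e : (2 : 𝓞 K) = 2 * (1 + δ) - (1 + δ) * (1 + δ) - m * (2 * 2) := by
      rw [e4]
      ring
    rw [e]
    exact Ideal.sub_mem _ (Ideal.sub_mem _ a1 a2) a3

private theorem prime_of_norm {I : Ideal (𝓞 K)} {p : ℕ} (hp : p.Prime) (hI : Ideal.absNorm I = p) :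
    Prime I := by
  have h0 : I ≠ ⊥ := by
    rintro rfl
    rw [Ideal.absNorm_bot] at hI
    exact hp.ne_zero hI.symm
  apply Ideal.prime_of_isPrime h0
  apply Ideal.isPrime_of_irreducible_absNorm
  rw [hI]
  exact hp

private theorem prime_p2 (h : Quad K q δ) : Prime (P2 δ) := by
  apply prime_of_norm Nat.prime_two
  have h1 := congrArg Ideal.absNorm (p2_sq_aux h)
  rw [map_mul] at h1
  have h2 := norm_gen h (2 : 𝓞 K)
  have h3 := norm_int h 2 0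
  have e : ((2 : ℤ) : 𝓞 K) + ((0 : ℤ) : 𝓞 K) * δ = 2 := by push_cast; ring
  rw [e] at h3
  rw [h3] at h2
  have h4 : Ideal.absNorm (Ideal.span {(2 : 𝓞 K)}) = 4 := by
    have : ((Ideal.absNorm (Ideal.span {(2 : 𝓞 K)}) : ℕ) : ℤ) = (4 : ℤ) := by rw [h2]; ring
    exact_mod_cast this
  rw [h4] at h1
  nlinarith

private theorem prime_δ (h : Quad K q δ) : Prime (Ideal.span {δ}) := by
  apply prime_of_norm h.prime
  have h1 := norm_gen h δ
  have h2 := norm_int h 0 1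
  have e : ((0 : ℤ) : 𝓞 K) + ((1 : ℤ) : 𝓞 K) * δ = δ := by push_cast; ring
  rw [e] at h2
  rw [h2] at h1
  have : ((Ideal.absNorm (Ideal.span {δ}) : ℕ) : ℤ) = (q : ℤ) := by rw [h1]; ring
  exact_mod_cast this

theorem stable_ideal (h : Quad K q δ) (J : Ideal (𝓞 K)) (hJ : J ≠ ⊥)
    (hst : J.map (conj h : 𝓞 K →+* 𝓞 K) = J) :
    ∃ ε : 𝓞 K, ε ≠ 0 ∧ (J = Ideal.span {ε} ∨ J = Ideal.span {ε} * P2 δ) := by
  have hsq := h.sq
  set A := cIdl J δ with hA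
  obtain ⟨g, hg⟩ : ∃ g : ℤ, A = Ideal.span {g} := by
    obtain ⟨g, hg⟩ := (IsPrincipalIdealRing.principal A).1
    exact ⟨g, hg⟩
  have hmem : ∀ v : ℤ, (∃ a : ℤ, (a : 𝓞 K) + (v : 𝓞 K) * δ ∈ J) ↔ g ∣ v := by
    intro v
    rw [← Ideal.mem_span_singleton, ← hg]
    exact Iff.rfl
  have hmulδ : ∀ a v : ℤ, (a : 𝓞 K) + (v : 𝓞 K) * δ ∈ J →
      ((-(v * q) : ℤ) : 𝓞 K) + (a : 𝓞 K) * δ ∈ J := by
    intro a v hav
    have h1 := J.mul_mem_left δ hav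
    have e : δ * ((a : 𝓞 K) + (v : 𝓞 K) * δ) = ((-(v * q) : ℤ) : 𝓞 K) + (a : 𝓞 K) * δ := by
      push_cast
      linear_combination (v : 𝓞 K) * hsq
    rwa [e] at h1
  have hga : ∀ a v : ℤ, (a : 𝓞 K) + (v : 𝓞 K) * δ ∈ J → g ∣ a ∧ g ∣ v := by
    intro a v hav
    exact ⟨(hmem a).1 ⟨_, hmulδ a v hav⟩, (hmem v).1 ⟨a, hav⟩⟩
  have hg0 : g ≠ 0 := by
    intro hg0
    apply hJ
    rw [eq_bot_iff]
    intro x hx
    obtain ⟨a, v, rfl⟩ := coords h x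
    obtain ⟨h1, h2⟩ := hga a v hx
    rw [hg0, zero_dvd_iff] at h1 h2
    rw [h1, h2]
    simp
  have hle : J ≤ Ideal.span {(g : 𝓞 K)} := by
    intro x hx
    obtain ⟨a, v, rfl⟩ := coords h x
    obtain ⟨⟨b, hb⟩, ⟨w, hw⟩⟩ := hga a v hx
    rw [Ideal.mem_span_singleton]
    refine ⟨(b : 𝓞 K) + (w : 𝓞 K) * δ, ?_⟩
    rw [hb, hw]
    push_cast
    ring
  obtain ⟨J', hJ'⟩ := Ideal.dvd_iff_le.2 hle
  have hgK : (g : 𝓞 K) ≠ 0 := by exact_mod_cast hg0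
  have hspan0 : Ideal.span {(g : 𝓞 K)} ≠ ⊥ := by
    rw [Ne, Ideal.span_singleton_eq_bot]
    exact hgK
  have hcg : (Ideal.span {(g : 𝓞 K)}).map (conj h : 𝓞 K →+* 𝓞 K) = Ideal.span {(g : 𝓞 K)} := by
    rw [Ideal.map_span, Set.image_singleton]
    congr 2
    exact map_intCast _ _
  have hst' : J'.map (conj h : 𝓞 K →+* 𝓞 K) = J' := by
    have h1 := hst
    rw [hJ', Ideal.map_mul, hcg] at h1
    exact mul_left_cancel₀ hspan0 h1
  obtain ⟨a, ha⟩ := (hmem g).2 dvd_rfl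
  obtain ⟨⟨b, hb⟩, -⟩ := hga a g ha
  have hx' : (b : 𝓞 K) + δ ∈ J' := by
    rw [hJ', Ideal.mem_span_singleton_mul] at ha
    obtain ⟨z, hz, hz'⟩ := ha
    have : z = (b : 𝓞 K) + δ := by
      apply mul_left_cancel₀ hgK
      rw [hz', hb]
      push_cast
      ring
    rwa [this] at hz
  have h2δ : 2 * δ ∈ J' := by
    have h1 : conj h ((b : 𝓞 K) + δ) ∈ J' := by
      have := Ideal.mem_map_of_mem (conj h : 𝓞 K →+* 𝓞 K) hx'
      rwa [hst'] at this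
    have h2 := J'.sub_mem hx' h1
    rw [map_add, map_intCast, conj_δ] at h2
    have e : (b : 𝓞 K) + δ - ((b : 𝓞 K) + -δ) = 2 * δ := by ring
    rwa [e] at h2
  have hdvd : J' ∣ P2 δ ^ 2 * Ideal.span {δ} := by
    rw [pow_two, p2_sq_aux h, Ideal.span_singleton_mul_span_singleton, Ideal.dvd_iff_le,
      Ideal.span_singleton_le_iff_mem]
    exact h2δ
  obtain ⟨I1, I2, hI1, hI2, hI⟩ := exists_dvd_and_dvd_of_dvd_mul hdvd
  obtain ⟨i, hi, hiI⟩ := (dvd_prime_pow (prime_p2 h) 2).1 hI1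
  rw [associated_iff_eq] at hiI
  have hI2' : I2 ∣ Ideal.span {δ} ^ 1 := by
    rw [pow_one]
    exact hI2
  obtain ⟨j, hj, hjI⟩ := (dvd_prime_pow (prime_δ h) 1).1 hI2'
  rw [associated_iff_eq] at hjI
  have hi2 : i ≠ 2 := by
    rintro rfl
    rw [hiI, pow_two, p2_sq_aux h] at hI
    have h1 : J' ≤ Ideal.span {(2 : 𝓞 K)} := by
      rw [hI]
      exact Ideal.mul_le_left
    have h2 := h1 hx'
    rw [Ideal.mem_span_singleton] at h2
    obtain ⟨z, hz⟩ := h2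
    obtain ⟨c, d, rfl⟩ := coords h z
    have h3 := unique h b 1 (2 * c) (2 * d) (by
      push_cast
      linear_combination hz)
    omega
  have hδ0 : δ ≠ 0 := by
    intro h0
    have := (prime_δ h).ne_zero
    apply this
    rw [h0]
    exact Ideal.span_singleton_eq_bot.2 rfl
  refine ⟨(g : 𝓞 K) * δ ^ j, mul_ne_zero hgK (pow_ne_zero _ hδ0), ?_⟩
  have hsp : Ideal.span {(g : 𝓞 K) * δ ^ j} = Ideal.span {(g : 𝓞 K)} * Ideal.span {δ} ^ j := by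
    rw [Ideal.span_singleton_pow, Ideal.span_singleton_mul_span_singleton]
  have hi' : i = 0 ∨ i = 1 := by omega
  rcases hi' with rfl | rfl
  · left
    rw [hJ', hI, hiI, hjI, hsp, pow_zero, one_mul]
  · right
    rw [hJ', hI, hiI, hjI, hsp, pow_one, mul_comm (P2 δ), mul_assoc]

theorem p2_sq (h : Quad K q δ) : P2 δ * P2 δ = Ideal.span {(2 : 𝓞 K)} := p2_sq_aux h

end Pool.Agent.Work.MP_a5099b_nt.PrG
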