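import Pool.Agent.Work.MP_a5099b_nt.I1.DStab

set_option autoImplicit false

/-!
# DTwo (size M, uses the statements of DStab, CConj, CInt): ideals with principal square

PROOF (compare `sqrt_principal` in `I/DOdd.lean`, proved). Let `m = absNorm I ≠ 0`, `I² = (γ)`, so `norm γ = m²` (`norm_gen`), `γ conj γ = m²` (`mul_conj`). `I conj I = (m)` (`map_conj_mul`), hence
`(γ) conj I = I² conj I = (m) I`. Put `μ = m + conj γ`; `m * conj μ = m² + m γ = γ (conj γ + m) = γ μ`. If `μ ≠ 0` let `J = (μ) I`: `(m) conj J = (m conj μ) conj I = (γ μ) conj I = (μ)(m) I = (m) J`, so `conj J = J`.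
If `μ = 0` then `γ = -m` (apply `conj`), `(γ) = (m)`, `conj I = I` and we take `μ = 1`, `J = I`. By `stable_ideal` `(μ) I = (ε)` or `(μ) I = (ε) P2`. In the first case `ε = μ γ'`, `I = (γ')`.
`mul_prin`: multiply: `(μ₁ μ₂) I₁ I₂ = (ε₁ ε₂) P2² = (2 ε₁ ε₂)` (`p2_sq`), so `2 ε₁ ε₂ = μ₁ μ₂ γ'` and `I₁ I₂ = (γ')`.
-/

namespace Pool.Agent.Work.MP_a5099b_nt.PrG

open Finset NumberField
open Pool.Agent.Work.MP_a5099b_nt.PrF (Sm LamK ids mem_ids cK lK Dat tw)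

variable {K : Type} [Field K] [NumberField K] {q : ℕ} {δ : 𝓞 K}

private theorem gen_of_mul (I : Ideal (𝓞 K)) (μ ε : 𝓞 K) (hμ : μ ≠ 0)
    (hε : Ideal.span {μ} * I = Ideal.span {ε}) : ∃ γ' : 𝓞 K, I = Ideal.span {γ'} := by
  have hμs : Ideal.span {μ} ≠ ⊥ := by
    rw [Ne, Ideal.span_singleton_eq_bot]
    exact hμ
  have hmem : ε ∈ Ideal.span {μ} * I := by
    rw [hε]
    exact Ideal.mem_span_singleton_self ε
  obtain ⟨γ', -, hγ'⟩ := Ideal.mem_span_singleton_mul.1 hmem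
  refine ⟨γ', mul_left_cancel₀ hμs ?_⟩
  rw [hε, ← hγ', Ideal.span_singleton_mul_span_singleton]

theorem two_torsion (h : Quad K q δ) (I : Ideal (𝓞 K)) (hI : I ≠ ⊥) (γ : 𝓞 K) (hγ : I * I = Ideal.span {γ}) :
    (∃ γ' : 𝓞 K, I = Ideal.span {γ'}) ∨
      ∃ μ ε : 𝓞 K, μ ≠ 0 ∧ ε ≠ 0 ∧ Ideal.span {μ} * I = Ideal.span {ε} * P2 δ := by
  set m : ℕ := Ideal.absNorm I with hm
  have hγ0 : γ ≠ 0 := by
    rintro rfl
    rw [Ideal.span_singleton_eq_bot.2 rfl] at hγ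
    exact mul_ne_zero hI hI hγ
  have hspan0 : Ideal.span {γ} ≠ ⊥ := by
    rw [Ne, Ideal.span_singleton_eq_bot]
    exact hγ0
  set cI : Ideal (𝓞 K) := I.map (conj h : 𝓞 K →+* 𝓞 K) with hcI
  have h1 : I * cI = Ideal.span {(m : 𝓞 K)} := map_conj_mul h I hI
  have h2 : γ * conj h γ = (m : 𝓞 K) * m := by
    rw [mul_conj h, ← norm_gen h, ← hγ, map_mul]
    push_cast
    rfl
  have h3 : Ideal.span {γ} * cI = Ideal.span {(m : 𝓞 K)} * I := by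
    rw [← hγ, mul_assoc, h1, mul_comm]
  have key : ∀ μ : 𝓞 K, μ ≠ 0 → (Ideal.span {μ} * I).map (conj h : 𝓞 K →+* 𝓞 K) = Ideal.span {μ} * I →
      (∃ γ' : 𝓞 K, I = Ideal.span {γ'}) ∨
        ∃ μ ε : 𝓞 K, μ ≠ 0 ∧ ε ≠ 0 ∧ Ideal.span {μ} * I = Ideal.span {ε} * P2 δ := by
    intro μ hμ hst
    have hμs : Ideal.span {μ} ≠ ⊥ := by
      rw [Ne, Ideal.span_singleton_eq_bot]
      exact hμ
    obtain ⟨ε, hε0, hε | hε⟩ := stable_ideal h _ (mul_ne_zero hμs hI) hst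
    · exact Or.inl (gen_of_mul I μ ε hμ hε)
    · exact Or.inr ⟨μ, ε, hμ, hε0, hε⟩
  by_cases hμ : (m : 𝓞 K) + conj h γ = 0
  · have hg : γ = -(m : 𝓞 K) := by
      have h4 : conj h γ = -(m : 𝓞 K) := by linear_combination hμ
      have h5 := congrArg (conj h) h4
      rw [conj_conj, map_neg, map_natCast] at h5
      exact h5
    have h4 : cI = I := by
      apply mul_left_cancel₀ hspan0
      rw [h3, hg, Ideal.span_singleton_neg]
    refine key 1 one_ne_zero ?_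
    rw [Ideal.span_singleton_one, Ideal.top_mul]
    exact h4
  · refine key _ hμ ?_
    apply mul_left_cancel₀ hspan0
    rw [Ideal.map_mul, Ideal.map_span, Set.image_singleton, mul_left_comm, ← hcI, h3, ← mul_assoc, ← mul_assoc,
      Ideal.span_singleton_mul_span_singleton, Ideal.span_singleton_mul_span_singleton]
    congr 3
    change conj h ((m : 𝓞 K) + conj h γ) * m = γ * ((m : 𝓞 K) + conj h γ)
    rw [map_add, map_natCast, conj_conj]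
    linear_combination -h2

theorem mul_prin (h : Quad K q δ) (I₁ I₂ : Ideal (𝓞 K)) (h1 : I₁ ≠ ⊥) (h2 : I₂ ≠ ⊥) (γ₁ γ₂ : 𝓞 K)
    (hγ₁ : I₁ * I₁ = Ideal.span {γ₁}) (hγ₂ : I₂ * I₂ = Ideal.span {γ₂}) (hn1 : ∀ γ : 𝓞 K, I₁ ≠ Ideal.span {γ})
    (hn2 : ∀ γ : 𝓞 K, I₂ ≠ Ideal.span {γ}) : ∃ γ : 𝓞 K, I₁ * I₂ = Ideal.span {γ} := by
  obtain ⟨γ', hg⟩ | ⟨μ₁, ε₁, hμ₁, hε₁, e₁⟩ := two_torsion h I₁ h1 γ₁ hγ₁
  · exact absurd hg (hn1 γ')
  obtain ⟨γ', hg⟩ | ⟨μ₂, ε₂, hμ₂, hε₂, e₂⟩ := two_torsion h I₂ h2 γ₂ hγ₂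
  · exact absurd hg (hn2 γ')
  refine gen_of_mul (I₁ * I₂) (μ₁ * μ₂) (ε₁ * ε₂ * 2) (mul_ne_zero hμ₁ hμ₂) ?_
  rw [← Ideal.span_singleton_mul_span_singleton, mul_mul_mul_comm, e₁, e₂, mul_mul_mul_comm, p2_sq h,
    Ideal.span_singleton_mul_span_singleton, Ideal.span_singleton_mul_span_singleton]

end Pool.Agent.Work.MP_a5099b_nt.PrG
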