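import Pool.Agent.Work.MP_a5099b_nt.I1.CInt

set_option autoImplicit false

/-!
# CConj (size M, uses the statement of CInt): complex conjugation, norms of ideals

PROOF (variant of `I/CConj.lean`, proved). `exists_conj`: `x = u + v δ ↦ u - v δ` is a ring automorphism (`coords`, `unique`, `δ² = -q`). `conj_conj`, `mul_conj`: coordinates (`norm_int`).
`norm_modEq`: `x = y + N z`: `norm x = x conj x ≡ y conj y mod N 𝓞`, so `norm x - norm y = N w`, and an integer divisible by `N` in `𝓞` is divisible in `ℤ` (`coords`, `unique`). `norm_gen`: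
`Ideal.absNorm_span_singleton` and `norm_nonneg`. `absNorm_conj`: `Ideal.absNorm` is invariant under ring automorphisms (as in the old file). `map_conj_mul`: as in the old file
(prime ideals above a rational prime; or: every nonzero ideal of `ℤ[δ]` has a `ℤ`-basis `n, m (b + δ)`).
-/

namespace Pool.Agent.Work.MP_a5099b_nt.PrG

open Finset NumberField
open Pool.Agent.Work.MP_a5099b_nt.PrF (Sm LamK ids mem_ids cK lK Dat tw)

variable {K : Type} [Field K] [NumberField K] {q : ℕ} {δ : 𝓞 K}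

private noncomputable def cu (h : Quad K q δ) (x : 𝓞 K) : ℤ := (coords h x).choose

private noncomputable def cj (h : Quad K q δ) (x : 𝓞 K) : 𝓞 K := 2 * (cu h x : 𝓞 K) - x

private theorem cj_eq (h : Quad K q δ) (x : 𝓞 K) (u v : ℤ)
    (hx : x = (u : 𝓞 K) + (v : 𝓞 K) * δ) : cj h x = (u : 𝓞 K) - (v : 𝓞 K) * δ := by
  obtain ⟨v', hv'⟩ := (coords h x).choose_spec
  have h1 := unique h u v (coords h x).choose v' (hx.symm.trans hv')
  unfold cj cu
  rw [← h1.1]
  linear_combination -hx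

private theorem cj_add (h : Quad K q δ) (x y : 𝓞 K) : cj h (x + y) = cj h x + cj h y := by
  obtain ⟨u, v, hx⟩ := coords h x
  obtain ⟨u', v', hy⟩ := coords h y
  rw [cj_eq h x u v hx, cj_eq h y u' v' hy, cj_eq h (x + y) (u + u') (v + v') (by
    push_cast
    linear_combination hx + hy)]
  push_cast
  ring

private theorem cj_mul (h : Quad K q δ) (x y : 𝓞 K) : cj h (x * y) = cj h x * cj h y := by
  obtain ⟨u, v, hx⟩ := coords h x
  obtain ⟨u', v', hy⟩ := coords h y
  have hsq := h.sq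
  rw [cj_eq h x u v hx, cj_eq h y u' v' hy,
    cj_eq h (x * y) (u * u' - q * (v * v')) (u * v' + u' * v) (by
      rw [hx, hy]
      push_cast
      linear_combination (v : 𝓞 K) * v' * hsq)]
  push_cast
  linear_combination -(v : 𝓞 K) * v' * hsq

private theorem cj_cj (h : Quad K q δ) (x : 𝓞 K) : cj h (cj h x) = x := by
  obtain ⟨u, v, hx⟩ := coords h x
  have hx2 := cj_eq h x u v hx
  rw [cj_eq h (cj h x) u (-v) (by
    rw [hx2]
    push_cast
    ring), hx]
  push_cast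
  ring

theorem exists_conj (h : Quad K q δ) : ∃ τ : 𝓞 K ≃+* 𝓞 K, τ δ = -δ := by
  refine ⟨{ toFun := cj h, invFun := cj h, left_inv := cj_cj h, right_inv := cj_cj h,
            map_mul' := cj_mul h, map_add' := cj_add h }, ?_⟩
  change cj h δ = -δ
  rw [cj_eq h δ 0 1 (by push_cast; ring)]
  push_cast
  ring

/-- complex conjugation -/
noncomputable def conj (h : Quad K q δ) : 𝓞 K ≃+* 𝓞 K := (exists_conj h).choose

theorem conj_δ (h : Quad K q δ) : conj h δ = -δ := (exists_conj h).choose_spec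

theorem conj_coords (h : Quad K q δ) (u v : ℤ) :
    conj h ((u : 𝓞 K) + (v : 𝓞 K) * δ) = (u : 𝓞 K) - (v : 𝓞 K) * δ := by
  rw [map_add, map_mul, conj_δ, map_intCast, map_intCast]
  ring

theorem conj_conj (h : Quad K q δ) (x : 𝓞 K) : conj h (conj h x) = x := by
  obtain ⟨u, v, hx⟩ := coords h x
  have h1 := conj_coords h u v
  have h2 := conj_coords h u (-v)
  rw [hx, h1]
  push_cast at h2
  rw [show (u : 𝓞 K) - (v : 𝓞 K) * δ = (u : 𝓞 K) + -(v : 𝓞 K) * δ by ring, h2]
  ring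

theorem mul_conj (h : Quad K q δ) (x : 𝓞 K) : x * conj h x = ((Algebra.norm ℤ x : ℤ) : 𝓞 K) := by
  obtain ⟨u, v, hx⟩ := coords h x
  have hsq := h.sq
  rw [hx, conj_coords h u v, norm_int h u v]
  push_cast
  linear_combination -(v : 𝓞 K) ^ 2 * hsq

theorem norm_modEq (h : Quad K q δ) (N : ℕ) (x y z : 𝓞 K) (hxy : x = y + (N : 𝓞 K) * z) :
    Algebra.norm ℤ x ≡ Algebra.norm ℤ y [ZMOD (N : ℤ)] := by
  set w : 𝓞 K := y * conj h z + conj h y * z + (N : 𝓞 K) * (z * conj h z) with hw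
  have h1 : ((Algebra.norm ℤ x - Algebra.norm ℤ y : ℤ) : 𝓞 K) = (N : 𝓞 K) * w := by
    push_cast
    rw [← mul_conj h x, ← mul_conj h y, hxy, map_add, map_mul, map_natCast, hw]
    ring
  obtain ⟨a, b, hab⟩ := coords h w
  have h2 := unique h (Algebra.norm ℤ x - Algebra.norm ℤ y) 0 (N * a) (N * b) (by
    push_cast at h1 ⊢
    linear_combination h1 + (N : 𝓞 K) * hab)
  exact (Int.modEq_iff_dvd.2 ⟨a, h2.1⟩).symm

theorem norm_gen (h : Quad K q δ) (x : 𝓞 K) :
    ((Ideal.absNorm (Ideal.span {x}) : ℕ) : ℤ) = Algebra.norm ℤ x := by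
  rw [Ideal.absNorm_span_singleton, Int.natCast_natAbs, abs_of_nonneg (norm_nonneg h x)]

theorem absNorm_conj (h : Quad K q δ) (I : Ideal (𝓞 K)) :
    Ideal.absNorm (I.map (conj h : 𝓞 K →+* 𝓞 K)) = Ideal.absNorm I := by
  have h1 := Ideal.relNorm_map_algEquiv (R := ℤ) (conj h).toIntAlgEquiv I
  have h2 := congrArg Ideal.absNorm h1
  rw [Ideal.absNorm_relNorm, Ideal.absNorm_relNorm] at h2
  exact h2

theorem map_conj_mul (h : Quad K q δ) (I : Ideal (𝓞 K)) (hI : I ≠ ⊥) :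
    I * I.map (conj h : 𝓞 K →+* 𝓞 K) = Ideal.span {((Ideal.absNorm I : ℕ) : 𝓞 K)} := by
  set J := I * I.map (conj h : 𝓞 K →+* 𝓞 K) with hJ
  have hle : Ideal.span {((Ideal.absNorm I : ℕ) : 𝓞 K)} ≤ J := by
    have h1 := Ideal.map_relNorm ℤ I (algebraMap ℤ (𝓞 K))
    rw [Ideal.relNorm_int, Ideal.map_span, Set.image_singleton] at h1
    have h2 : algebraMap ℤ (𝓞 K) (Ideal.absNorm I : ℤ) = ((Ideal.absNorm I : ℕ) : 𝓞 K) := by
      simp
    rw [h2] at h1
    rw [h1, Ideal.span_le]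
    rintro _ ⟨x, hx, rfl⟩
    have h3 : (algebraMap ℤ (𝓞 K) ∘ Algebra.intNorm ℤ (𝓞 K)) x = x * conj h x := by
      rw [mul_conj, Function.comp_apply, Algebra.intNorm_eq_norm]
      simp
    rw [h3]
    exact Ideal.mul_mem_mul hx (Ideal.mem_map_of_mem _ hx)
  obtain ⟨L, hL⟩ := Ideal.dvd_iff_le.2 hle
  have hn := congrArg Ideal.absNorm hL
  rw [map_mul, hJ, map_mul, absNorm_conj, Ideal.absNorm_span_singleton] at hn
  have hn0 : 0 < Ideal.absNorm I := Nat.pos_of_ne_zero fun h0 => hI (Ideal.absNorm_eq_zero_iff.1 h0)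
  have h4 : Algebra.norm ℤ ((Ideal.absNorm I : ℕ) : 𝓞 K) = ((Ideal.absNorm I : ℕ) : ℤ) ^ 2 := by
    have := norm_int h (Ideal.absNorm I : ℤ) 0
    simpa using this
  rw [h4, Int.natAbs_pow, Int.natAbs_natCast] at hn
  have h5 : Ideal.absNorm L = 1 := by
    have : Ideal.absNorm I * Ideal.absNorm I * 1 = Ideal.absNorm I * Ideal.absNorm I * Ideal.absNorm L := by
      rw [← hn]; ring
    exact (Nat.eq_of_mul_eq_mul_left (Nat.mul_pos hn0 hn0) this).symm
  rw [Ideal.absNorm_eq_one_iff] at h5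
  rw [hL, h5, Ideal.mul_top]

end Pool.Agent.Work.MP_a5099b_nt.PrG
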