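import Pool.Agent.Work.MP_a5099b_nt.I1.CDefs

set_option autoImplicit false

/-!
# CInt (size M, Mathlib only): the ring of integers of `ℚ(√-q)`, `q ≡ 1 mod 4`, is `ℤ[δ]`

PROOF (variant of `I/CInt.lean`, which is proved; copy it and change the integrality argument). `δ` is not rational, so `1, δ` is a `ℚ`-basis of `K` (`deg`), every `x : K` is `r + s δ`, trace `2 r`, norm `r² + q s²`.
For `x` integral `u = 2 r ∈ ℤ`, `v = 2 s ∈ ℤ` (`q` prime) and `4 ∣ u² + q v²` with `q ≡ 1 mod 4`: `u² + v² ≡ 0 mod 4`, so `u` and `v` are even: `r, s ∈ ℤ`. `unique`: apply the norm to the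
difference. `norm_int`: `(a + b δ)(a - b δ) = a² + q b²`. `norm_mod4`: `x = a + b δ`, `norm x = a² + q b²` odd: exactly one of `a`, `b` is odd, `norm x ≡ 1` or `q ≡ 1 mod 4`.
`unit_eq`: `a² + q b² = 1` gives `b = 0`, `a = ± 1` (`q ≥ 5`). `norm_ne_zero`: `Algebra.norm_eq_zero_iff` or `a² + q b² = 0`.
-/

namespace Pool.Agent.Work.MP_a5099b_nt.PrG

open Finset NumberField
open Pool.Agent.Work.MP_a5099b_nt.PrF (Sm LamK ids mem_ids cK lK Dat tw)

variable {K : Type} [Field K] [NumberField K] {q : ℕ} {δ : 𝓞 K}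

private theorem unique_aux (h : Quad K q δ) (a b : ℤ) (he : (a : 𝓞 K) + (b : 𝓞 K) * δ = 0) : a = 0 ∧ b = 0 := by
  have h1 : ((a ^ 2 + q * b ^ 2 : ℤ) : 𝓞 K) = 0 := by
    push_cast
    have := h.sq
    linear_combination ((a : 𝓞 K) - b * δ) * he + (b : 𝓞 K) ^ 2 * this
  have h2 : (a ^ 2 + q * b ^ 2 : ℤ) = 0 := by exact_mod_cast h1
  have hq : (0 : ℤ) < q := by exact_mod_cast h.prime.pos
  have ha : a ^ 2 = 0 := by nlinarith [sq_nonneg a, sq_nonneg b]
  have hb : (q : ℤ) * b ^ 2 = 0 := by nlinarith [sq_nonneg a, sq_nonneg b]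
  refine ⟨by simpa using ha, ?_⟩
  rcases mul_eq_zero.1 hb with h3 | h3
  · omega
  · simpa using h3

theorem unique (h : Quad K q δ) (u v u' v' : ℤ)
    (he : (u : 𝓞 K) + (v : 𝓞 K) * δ = (u' : 𝓞 K) + (v' : 𝓞 K) * δ) : u = u' ∧ v = v' := by
  have := unique_aux h (u - u') (v - v') (by push_cast; linear_combination he)
  constructor <;> linarith [this.1, this.2]

private theorem sqK (h : Quad K q δ) : (δ : K) * (δ : K) = -(q : K) := by
  have := congrArg (fun x : 𝓞 K => (x : K)) h.sq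
  simpa using this

private theorem linind (h : Quad K q δ) : LinearIndependent ℚ ![(1 : K), (δ : K)] := by
  rw [LinearIndependent.pair_iff]
  intro r s hrs
  have h1 : ((r ^ 2 + q * s ^ 2 : ℚ) : K) = 0 := by
    push_cast
    have h2 := sqK h
    have h3 : (r : K) + (s : K) * (δ : K) = 0 := by
      simpa [Algebra.smul_def] using hrs
    linear_combination ((r : K) - s * δ) * h3 + (s : K) ^ 2 * h2
  have h2 : (r ^ 2 + q * s ^ 2 : ℚ) = 0 := by exact_mod_cast h1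
  have hq : (0 : ℚ) < q := by exact_mod_cast h.prime.pos
  have ha : r ^ 2 = 0 := by nlinarith [sq_nonneg r, sq_nonneg s]
  have hb : (q : ℚ) * s ^ 2 = 0 := by nlinarith [sq_nonneg r, sq_nonneg s]
  refine ⟨by simpa using ha, ?_⟩
  rcases mul_eq_zero.1 hb with h3 | h3
  · exact absurd h3 hq.ne'
  · simpa using h3

private noncomputable def bas (h : Quad K q δ) : Module.Basis (Fin 2) ℚ K :=
  basisOfLinearIndependentOfCardEqFinrank (linind h) (by simp [h.deg])

private theorem bas_zero (h : Quad K q δ) : bas h 0 = 1 := by simp [bas]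
private theorem bas_one (h : Quad K q δ) : bas h 1 = (δ : K) := by simp [bas]

private theorem repr_eq (h : Quad K q δ) (r s : ℚ) :
    ((bas h).repr ((r : K) + (s : K) * (δ : K))) 0 = r ∧ ((bas h).repr ((r : K) + (s : K) * (δ : K))) 1 = s := by
  have h1 : (r : K) + (s : K) * (δ : K) = r • bas h 0 + s • bas h 1 := by
    rw [bas_zero, bas_one, Algebra.smul_def, Algebra.smul_def]
    simp
  rw [h1]
  simp

private theorem exK (h : Quad K q δ) (x : K) : ∃ r s : ℚ, x = (r : K) + (s : K) * (δ : K) := by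
  refine ⟨(bas h).repr x 0, (bas h).repr x 1, ?_⟩
  conv_lhs => rw [← (bas h).sum_repr x]
  rw [Fin.sum_univ_two, bas_zero, bas_one, Algebra.smul_def, Algebra.smul_def]
  simp

private theorem mat (h : Quad K q δ) (r s : ℚ) :
    Algebra.leftMulMatrix (bas h) ((r : K) + (s : K) * (δ : K)) = !![r, -(q * s); s, r] := by
  have h2 := sqK h
  have e1 : ((r : K) + (s : K) * (δ : K)) * bas h 1 = ((-(q * s) : ℚ) : K) + (r : K) * (δ : K) := by
    rw [bas_one]
    push_cast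
    linear_combination (s : K) * h2
  ext i j
  rw [Algebra.leftMulMatrix_eq_repr_mul]
  fin_cases j
  · show ((bas h).repr (((r : K) + (s : K) * (δ : K)) * bas h 0)) i = _
    rw [bas_zero, mul_one]
    fin_cases i
    · exact (repr_eq h r s).1
    · exact (repr_eq h r s).2
  · show ((bas h).repr (((r : K) + (s : K) * (δ : K)) * bas h 1)) i = _
    rw [e1]
    fin_cases i
    · exact (repr_eq h _ _).1
    · exact (repr_eq h _ _).2

private theorem normK (h : Quad K q δ) (r s : ℚ) :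
    Algebra.norm ℚ ((r : K) + (s : K) * (δ : K)) = r ^ 2 + q * s ^ 2 := by
  rw [Algebra.norm_eq_matrix_det (bas h), mat, Matrix.det_fin_two]
  simp
  ring

private theorem traceK (h : Quad K q δ) (r s : ℚ) :
    Algebra.trace ℚ K ((r : K) + (s : K) * (δ : K)) = 2 * r := by
  rw [Algebra.trace_eq_matrix_trace (bas h), mat, Matrix.trace_fin_two]
  simp
  ring

theorem norm_int (h : Quad K q δ) (a b : ℤ) :
    Algebra.norm ℤ ((a : 𝓞 K) + (b : 𝓞 K) * δ) = a ^ 2 + q * b ^ 2 := by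
  have h1 := Algebra.coe_norm_int ((a : 𝓞 K) + (b : 𝓞 K) * δ)
  have h2 := normK h (a : ℚ) (b : ℚ)
  have h3 : (((a : 𝓞 K) + (b : 𝓞 K) * δ : 𝓞 K) : K) = (((a : ℚ) : K) + ((b : ℚ) : K) * (δ : K)) := by
    simp
  rw [h3, h2] at h1
  exact_mod_cast h1

theorem coords (h : Quad K q δ) (x : 𝓞 K) : ∃ u v : ℤ, x = (u : 𝓞 K) + (v : 𝓞 K) * δ := by
  obtain ⟨r, s, hx⟩ := exK h (x : K)
  have hix : IsIntegral ℤ (x : K) := x.2
  have ht : IsIntegral ℤ (Algebra.trace ℚ K (x : K)) := Algebra.isIntegral_trace hix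
  have hn : IsIntegral ℤ (Algebra.norm ℚ (x : K)) := Algebra.isIntegral_norm ℚ hix
  rw [hx, traceK h] at ht
  rw [hx, normK h] at hn
  obtain ⟨u, hu⟩ := IsIntegrallyClosed.isIntegral_iff.1 ht
  obtain ⟨n, hn⟩ := IsIntegrallyClosed.isIntegral_iff.1 hn
  simp only [eq_intCast] at hu hn
  -- `q (2 s)` is an integer
  have hq0 : (q : ℚ) ≠ 0 := by exact_mod_cast h.prime.ne_zero
  have h1 : (q * (2 * s)) ^ 2 = ((q * (4 * n - u ^ 2) : ℤ) : ℚ) := by
    push_cast
    rw [hu, hn]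
    ring
  have h2 : IsIntegral ℤ ((q : ℚ) * (2 * s)) := by
    apply IsIntegral.of_pow (n := 2) (by norm_num)
    rw [h1]
    exact isIntegral_algebraMap (R := ℤ) (A := ℚ) (x := (q * (4 * n - u ^ 2) : ℤ))
  obtain ⟨t, ht⟩ := IsIntegrallyClosed.isIntegral_iff.1 h2
  simp only [eq_intCast] at ht
  rw [← ht] at h1
  have h3 : t ^ 2 = q * (4 * n - u ^ 2) := by exact_mod_cast h1
  have hqp : Prime (q : ℤ) := Nat.prime_iff_prime_int.1 h.prime
  have h4 : (q : ℤ) ∣ t := hqp.dvd_of_dvd_pow (Dvd.intro _ h3.symm)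
  obtain ⟨v, rfl⟩ := h4
  have h5 : (v : ℚ) = 2 * s := by
    have : (q : ℚ) * v = q * (2 * s) := by rw [← ht]; push_cast; ring
    exact mul_left_cancel₀ hq0 this
  have h6 : (q : ℤ) * v ^ 2 = 4 * n - u ^ 2 := by
    have hq1 : (q : ℤ) ≠ 0 := by exact_mod_cast h.prime.ne_zero
    apply mul_left_cancel₀ hq1
    linarith
  obtain ⟨m, hm⟩ : ∃ m : ℕ, q = 4 * m + 1 := ⟨q / 4, by have := h.mod4; omega⟩
  rw [hm] at h6
  push_cast at h6
  have h8 : (∃ a, u = 2 * a) ∧ ∃ b, v = 2 * b := by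
    rcases Int.even_or_odd' u with ⟨a, rfl | rfl⟩ <;> rcases Int.even_or_odd' v with ⟨b, rfl | rfl⟩
    · exact ⟨⟨a, rfl⟩, ⟨b, rfl⟩⟩
    · exfalso
      ring_nf at h6
      have h7 : (4 : ℤ) ∣ 1 := ⟨n - a ^ 2 - m * (2 * b + 1) ^ 2 - b - b ^ 2, by linarith⟩
      omega
    · exfalso
      ring_nf at h6
      have h7 : (4 : ℤ) ∣ 1 := ⟨n - a ^ 2 - a - m * (2 * b) ^ 2 - b ^ 2, by linarith⟩
      omega
    · exfalso
      ring_nf at h6
      have h7 : (4 : ℤ) ∣ 2 := ⟨n - a ^ 2 - a - m * (2 * b + 1) ^ 2 - b - b ^ 2, by linarith⟩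
      omega
  obtain ⟨⟨a, rfl⟩, b, rfl⟩ := h8
  refine ⟨a, b, ?_⟩
  apply RingOfIntegers.ext
  rw [hx]
  have e1 : (r : ℚ) = a := by
    push_cast at hu
    linarith
  have e2 : (s : ℚ) = b := by
    push_cast at h5
    linarith
  rw [e1, e2]
  simp

theorem norm_nonneg (h : Quad K q δ) (x : 𝓞 K) : 0 ≤ Algebra.norm ℤ x := by
  obtain ⟨u, v, rfl⟩ := coords h x
  rw [norm_int h]
  nlinarith [sq_nonneg u, mul_nonneg (Int.natCast_nonneg q) (sq_nonneg v)]

theorem norm_ne_zero (h : Quad K q δ) {x : 𝓞 K} (hx : x ≠ 0) : Algebra.norm ℤ x ≠ 0 := by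
  obtain ⟨u, v, rfl⟩ := coords h x
  rw [norm_int h]
  intro h0
  apply hx
  have hq : (0 : ℤ) < q := by exact_mod_cast h.prime.pos
  have ha : u ^ 2 = 0 := by nlinarith [sq_nonneg u, sq_nonneg v]
  have hb : (q : ℤ) * v ^ 2 = 0 := by nlinarith [sq_nonneg u, sq_nonneg v]
  have hu : u = 0 := by simpa using ha
  have hv : v = 0 := by
    rcases mul_eq_zero.1 hb with h3 | h3
    · omega
    · simpa using h3
  subst hu; subst hv
  simp

theorem norm_mod4 (h : Quad K q δ) (x : 𝓞 K) (hx : Odd (Algebra.norm ℤ x)) :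
    Algebra.norm ℤ x ≡ 1 [ZMOD 4] := by
  obtain ⟨u, v, rfl⟩ := coords h x
  rw [norm_int h] at hx ⊢
  obtain ⟨m, hm⟩ : ∃ m : ℕ, q = 4 * m + 1 := ⟨q / 4, by have := h.mod4; omega⟩
  rw [hm] at hx ⊢
  push_cast at hx ⊢
  rcases Int.even_or_odd' u with ⟨a, rfl | rfl⟩ <;> rcases Int.even_or_odd' v with ⟨b, rfl | rfl⟩
  · exfalso
    rw [← Int.not_even_iff_odd] at hx
    apply hx
    exact ⟨2 * a ^ 2 + 2 * (4 * m + 1) * b ^ 2, by ring⟩
  · refine (Int.modEq_iff_dvd.2 ⟨-(a ^ 2 + m * (2 * b + 1) ^ 2 + b ^ 2 + b), by ring⟩)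
  · refine (Int.modEq_iff_dvd.2 ⟨-(a ^ 2 + a + (4 * m + 1) * b ^ 2), by ring⟩)
  · exfalso
    rw [← Int.not_even_iff_odd] at hx
    apply hx
    exact ⟨2 * a ^ 2 + 2 * a + 1 + 2 * b ^ 2 + 2 * b + 2 * m * (2 * b + 1) ^ 2, by ring⟩

theorem unit_eq (h : Quad K q δ) (x : 𝓞 K) (hx : IsUnit x) : x = 1 ∨ x = -1 := by
  have h3 : IsUnit (Algebra.norm ℤ x) := hx.map (Algebra.norm ℤ)
  have h2 := norm_nonneg h x
  have h4 : Algebra.norm ℤ x = 1 := by
    rcases Int.isUnit_iff.1 h3 with h5 | h5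
    · exact h5
    · omega
  obtain ⟨u, v, rfl⟩ := coords h x
  rw [norm_int h] at h4
  have hq : (5 : ℤ) ≤ q := by exact_mod_cast h.five
  have hv : v = 0 := by
    by_contra hv
    have : 1 ≤ v ^ 2 := by
      have := sq_nonneg v
      have h0 : v ^ 2 ≠ 0 := pow_ne_zero 2 hv
      omega
    nlinarith [sq_nonneg u]
  subst hv
  have hu : (u - 1) * (u + 1) = 0 := by linarith
  rcases mul_eq_zero.1 hu with h5 | h5
  · left
    have : u = 1 := by linarith
    subst this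
    push_cast; ring
  · right
    have : u = -1 := by linarith
    subst this
    push_cast; ring

end Pool.Agent.Work.MP_a5099b_nt.PrG
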