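import Pool.Agent.Work.MP_a5099b_nt.I1.CConj

set_option autoImplicit false

/-!
# CCls (size S-M, uses the statements of CInt, CConj): classes and generators

PROOF (variant of `I/CCls.lean`, proved). `cls_top`: `cl (⊤ * ⊤) = cl ⊤ * cl ⊤`. `cls_one_iff`: `cl I = 1 = cl ⊤` iff `Rel N I ⊤`, i.e. `(α) I = (β)`, `norm α` prime to `N` (so `norm α ≠ 0` as `4 ∣ N`, `α ≠ 0`),
`norm α ≡ norm β mod N`. Then `β = α γ` with `γ ∈ I`, `(α) I = (α)(γ)`, so `I = (γ)`, `norm α norm γ = norm β ≡ norm α`, so `norm γ ≡ 1` (`norm α` is a unit modulo `N`). Conversely take `α = 1`, `β = γ`.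
`cls_span_eq`: `γ₂ (γ₁) = γ₁ (γ₂)`: `α = γ₂`, `β = γ₁`, norms congruent and prime to `N` (`Sm N (span {γ₂})`, `norm_gen`).
`cls_prin_iff`: if `cl I = cl (span {γ})` then `(α) I = (β)(γ) = (β γ)`, `β γ ∈ (α) I`, `β γ = α γ'`, `I = (γ')`.
-/

namespace Pool.Agent.Work.MP_a5099b_nt.PrG

open Finset NumberField
open Pool.Agent.Work.MP_a5099b_nt.PrF (Sm LamK ids mem_ids cK lK Dat tw)

variable {K : Type} [Field K] [NumberField K] {q : ℕ} {δ : 𝓞 K} {N : ℕ} {G : Type} [CommGroup G]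
  {cl : Ideal (𝓞 K) → G}

theorem cls_top (hc : Cls N G cl) : cl ⊤ = 1 := by
  have h1 := hc.mul ⊤ ⊤ Pool.Agent.Work.MP_a5099b_nt.PrF.Sm_top Pool.Agent.Work.MP_a5099b_nt.PrF.Sm_top
  rw [Ideal.mul_top] at h1
  exact left_eq_mul.1 h1

theorem cls_pow (hc : Cls N G cl) (I : Ideal (𝓞 K)) (hI : Sm N I) (k : ℕ) : cl (I ^ k) = cl I ^ k := by
  induction k with
  | zero => rw [pow_zero, pow_zero, Ideal.one_eq_top, cls_top hc]
  | succ k ih =>
    rw [pow_succ, pow_succ, hc.mul _ _ (Pool.Agent.Work.MP_a5099b_nt.PrF.Sm_pow hI k) hI, ih]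

private theorem ne_of_cop (hN : 4 ∣ N) {x : 𝓞 K} (hx : IsCoprime (Algebra.norm ℤ x) (N : ℤ)) :
    x ≠ 0 := by
  rintro rfl
  rw [Algebra.norm_zero, isCoprime_zero_left, Int.isUnit_iff] at hx
  obtain ⟨k, rfl⟩ := hN
  omega

theorem cls_one_iff (h : Quad K q δ) (hN : 4 ∣ N) (hc : Cls N G cl) (I : Ideal (𝓞 K)) (hI : Sm N I) :
    cl I = 1 ↔ ∃ γ : 𝓞 K, I = Ideal.span {γ} ∧ Algebra.norm ℤ γ ≡ 1 [ZMOD (N : ℤ)] := by
  rw [← cls_top hc, hc.eq_iff I ⊤ hI Pool.Agent.Work.MP_a5099b_nt.PrF.Sm_top]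
  constructor
  · rintro ⟨α, β, hcop, hmod, he⟩
    rw [Ideal.mul_top] at he
    have h1 : β ∈ Ideal.span {α} * I := by
      rw [he]
      exact Ideal.mem_span_singleton_self β
    obtain ⟨γ, hγ, rfl⟩ := Ideal.mem_span_singleton_mul.1 h1
    have hα0 : Ideal.span {α} ≠ 0 := by
      rw [Submodule.zero_eq_bot, Ne, Ideal.span_singleton_eq_bot]
      exact ne_of_cop hN hcop
    refine ⟨γ, ?_, ?_⟩
    · apply mul_left_cancel₀ hα0
      rw [he, Ideal.span_singleton_mul_span_singleton]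
    · rw [map_mul] at hmod
      have h2 := (Int.modEq_iff_dvd.1 hmod)
      have h3 : Algebra.norm ℤ α * Algebra.norm ℤ γ - Algebra.norm ℤ α =
          Algebra.norm ℤ α * (Algebra.norm ℤ γ - 1) := by ring
      rw [h3] at h2
      exact (Int.modEq_iff_dvd.2 (hcop.symm.dvd_of_dvd_mul_left h2)).symm
  · rintro ⟨γ, rfl, hmod⟩
    refine ⟨1, γ, ?_, ?_, ?_⟩
    · rw [map_one]
      exact isCoprime_one_left
    · rw [map_one]
      exact hmod.symm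
    · rw [Ideal.mul_top, Ideal.span_singleton_one, Ideal.top_mul]

theorem cls_span_eq (h : Quad K q δ) (hc : Cls N G cl) (γ₁ γ₂ : 𝓞 K)
    (s1 : Sm N (Ideal.span {γ₁})) (s2 : Sm N (Ideal.span {γ₂}))
    (hn : Algebra.norm ℤ γ₁ ≡ Algebra.norm ℤ γ₂ [ZMOD (N : ℤ)]) :
    cl (Ideal.span {γ₁}) = cl (Ideal.span {γ₂}) := by
  rw [hc.eq_iff _ _ s1 s2]
  refine ⟨γ₂, γ₁, ?_, hn.symm, mul_comm _ _⟩
  have h3 := s2.cop
  rw [← Nat.isCoprime_iff_coprime, norm_gen h] at h3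
  exact h3

theorem cls_prin (h : Quad K q δ) (hN : 4 ∣ N) (hc : Cls N G cl) (I : Ideal (𝓞 K)) (hI : Sm N I)
    (γ : 𝓞 K) (hγ : Sm N (Ideal.span {γ})) (he : cl I = cl (Ideal.span {γ})) :
    ∃ γ' : 𝓞 K, I = Ideal.span {γ'} := by
  rw [hc.eq_iff _ _ hI hγ] at he
  obtain ⟨α, β, hcop, hmod, he⟩ := he
  rw [Ideal.span_singleton_mul_span_singleton] at he
  have h1 : β * γ ∈ Ideal.span {α} * I := by
    rw [he]
    exact Ideal.mem_span_singleton_self _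
  obtain ⟨γ', hγ', h2⟩ := Ideal.mem_span_singleton_mul.1 h1
  have hα0 : Ideal.span {α} ≠ 0 := by
    rw [Submodule.zero_eq_bot, Ne, Ideal.span_singleton_eq_bot]
    exact ne_of_cop hN hcop
  refine ⟨γ', mul_left_cancel₀ hα0 ?_⟩
  rw [he, Ideal.span_singleton_mul_span_singleton, h2]

end Pool.Agent.Work.MP_a5099b_nt.PrG
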