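import Pool.Agent.Work.MP_a5099b_nt.I1.CConj

set_option autoImplicit false

/-!
# DPr (size M, uses the statements of CInt, CConj): splitting of the primes

PROOF (variant of `I/DPr.lean`, proved; there `q ≡ 3 mod 4`). `prime_norm`: a nonzero prime ideal `P` contains exactly one rational prime `p`, `P ∣ (p)`, `absNorm (p) = p²`, so `absNorm P ∈ {p, p²}`, and `absNorm P = p²` iff
`P = (p)`. For `p ≠ 2, q`: `(-q / p) = (-1 / p)(q / p) = χ₄(p) (p / q)` by quadratic reciprocity (`q ≡ 1 mod 4`: `legendreSym.quadratic_reciprocity'` or `quadratic_reciprocity_one_mod_four`; `legendreSym.at_neg_one`), i.e.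
`-q` is a square mod `p` iff `χ₄(p) * legendreSym q p = 1`. `inert`: a prime ideal with `absNorm P = p` gives `𝓞/P ≅ ZMod p` and a square root of `-q` (the image of `δ`). `split`: `t² ≡ -q mod p`, `P = (p, δ - t)`,
`P' = (p, δ + t)`, `P P' = (p)`. `ram`: `(δ)² = (q)`, `absNorm (δ) = norm δ = q` (`norm_gen`, `norm_int`), so `(δ)` is a prime ideal (`Ideal.isPrime_of_irreducible_absNorm`); a prime ideal containing `q` divides `(δ)²`.
-/

namespace Pool.Agent.Work.MP_a5099b_nt.PrG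

open Finset NumberField
open Pool.Agent.Work.MP_a5099b_nt.PrF (Sm LamK ids mem_ids cK lK Dat tw)

variable {K : Type} [Field K] [NumberField K] {q : ℕ} {δ : 𝓞 K}

private theorem absNorm_nat (h : Quad K q δ) (p : ℕ) :
    Ideal.absNorm (Ideal.span {(p : 𝓞 K)}) = p ^ 2 := by
  rw [Ideal.absNorm_span_singleton]
  have h1 := norm_int h (p : ℤ) 0
  have h2 : (((p : ℤ) : 𝓞 K) + ((0 : ℤ) : 𝓞 K) * δ) = (p : 𝓞 K) := by simp
  rw [h2] at h1
  rw [h1]
  have : ((p : ℤ) ^ 2 + (q : ℤ) * 0 ^ 2) = ((p ^ 2 : ℕ) : ℤ) := by push_cast; ring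
  rw [this, Int.natAbs_natCast]

private theorem exists_prime_mem (P : Ideal (𝓞 K)) (hP : P.IsPrime) (h0 : P ≠ ⊥) :
    ∃ p : ℕ, p.Prime ∧ (p : 𝓞 K) ∈ P := by
  have hn : Ideal.absNorm P ≠ 0 := fun h => h0 (Ideal.absNorm_eq_zero_iff.1 h)
  have hm := Ideal.absNorm_mem P
  have h1 := Nat.prod_primeFactorsList hn
  rw [← h1] at hm
  have h2 : (((Ideal.absNorm P).primeFactorsList.map (Nat.cast : ℕ → 𝓞 K)) : Multiset (𝓞 K)).prod ∈ P := by
    rw [Multiset.prod_coe]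
    have : (((Ideal.absNorm P).primeFactorsList.prod : ℕ) : 𝓞 K) =
        ((Ideal.absNorm P).primeFactorsList.map (Nat.cast : ℕ → 𝓞 K)).prod := by
      simpa using map_list_prod (Nat.castRingHom (𝓞 K)) (Ideal.absNorm P).primeFactorsList
    rw [← this]
    exact hm
  rw [hP.multiset_prod_mem_iff_exists_mem] at h2
  obtain ⟨x, hx, hxP⟩ := h2
  rw [Multiset.mem_coe, List.mem_map] at hx
  obtain ⟨p, hp, rfl⟩ := hx
  exact ⟨p, Nat.prime_of_mem_primeFactorsList hp, hxP⟩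

private theorem norm_cases (h : Quad K q δ) (P : Ideal (𝓞 K)) (hP : P.IsPrime) (p : ℕ) (hp : p.Prime)
    (hpP : (p : 𝓞 K) ∈ P) :
    Ideal.absNorm P = p ∨ (Ideal.absNorm P = p ^ 2 ∧ P = Ideal.span {(p : 𝓞 K)}) := by
  have hle : Ideal.span {(p : 𝓞 K)} ≤ P := (Ideal.span_singleton_le_iff_mem P).2 hpP
  have hd := Ideal.absNorm_dvd_absNorm_of_le hle
  rw [absNorm_nat h p] at hd
  obtain ⟨k, hk, hk2⟩ := (Nat.dvd_prime_pow hp).1 hd
  interval_cases k
  · exfalso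
    rw [pow_zero, Ideal.absNorm_eq_one_iff] at hk2
    exact hP.ne_top hk2
  · left
    rw [hk2, pow_one]
  · right
    refine ⟨hk2, ?_⟩
    obtain ⟨J, hJ⟩ := Ideal.dvd_iff_le.2 hle
    have h3 : Ideal.absNorm (P * J) = p ^ 2 := by rw [← hJ, absNorm_nat h p]
    rw [map_mul, hk2] at h3
    have hp2 : 0 < p ^ 2 := pow_pos hp.pos 2
    have h4 : Ideal.absNorm J = 1 := by
      have : p ^ 2 * Ideal.absNorm J = p ^ 2 * 1 := by rw [h3, mul_one]
      exact Nat.eq_of_mul_eq_mul_left hp2 this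
    rw [Ideal.absNorm_eq_one_iff] at h4
    rw [hJ, h4, Ideal.mul_top]

theorem prime_norm (h : Quad K q δ) (P : Ideal (𝓞 K)) (hP : P.IsPrime) (h0 : P ≠ ⊥) :
    ∃ p : ℕ, p.Prime ∧ (p : 𝓞 K) ∈ P ∧
      (Ideal.absNorm P = p ∨ (Ideal.absNorm P = p ^ 2 ∧ P = Ideal.span {(p : 𝓞 K)})) := by
  obtain ⟨p, hp, hpP⟩ := exists_prime_mem P hP h0
  exact ⟨p, hp, hpP, norm_cases h P hP p hp hpP⟩

private theorem leg_eq (h : Quad K q δ) [Fact q.Prime] (p : ℕ) [Fact p.Prime] (hp2 : p ≠ 2) :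
    legendreSym p (-(q : ℤ)) = ZMod.χ₄ (p : ZMod 4) * legendreSym q p := by
  have hq2 : q ≠ 2 := by have := h.mod4; omega
  have h1 := legendreSym.quadratic_reciprocity' (p := p) (q := q) hp2 hq2
  have h2 := legendreSym.at_neg_one (p := p) hp2
  have h3 : (-(q : ℤ)) = -1 * (q : ℤ) := by ring
  rw [h3, legendreSym.mul, h2, h1]
  obtain ⟨m, hm⟩ : ∃ m, q / 2 = 2 * m := ⟨q / 4, by have := h.mod4; omega⟩
  rw [hm, show p / 2 * (2 * m) = 2 * (p / 2 * m) by ring, pow_mul]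
  simp

private theorem sq_iff (h : Quad K q δ) [Fact q.Prime] (p : ℕ) [Fact p.Prime] (hp2 : p ≠ 2) :
    (ZMod.χ₄ (p : ZMod 4) * legendreSym q p = 1 → ∃ t : ℤ, (p : ℤ) ∣ t ^ 2 + q) ∧
      (ZMod.χ₄ (p : ZMod 4) * legendreSym q p = -1 → ¬ ∃ t : ℤ, (p : ℤ) ∣ t ^ 2 + q) := by
  rw [← leg_eq h p hp2]
  constructor
  · intro hl
    have hne : ((-(q : ℤ) : ℤ) : ZMod p) ≠ 0 := by
      intro h0
      rw [(legendreSym.eq_zero_iff p _).2 h0] at hl
      exact zero_ne_one hl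
    rw [legendreSym.eq_one_iff p hne] at hl
    obtain ⟨r, hr⟩ := hl
    obtain ⟨t, rfl⟩ := ZMod.intCast_surjective r
    refine ⟨t, ?_⟩
    rw [← ZMod.intCast_zmod_eq_zero_iff_dvd]
    push_cast at hr ⊢
    rw [pow_two, ← hr]
    ring
  · rintro hl ⟨t, ht⟩
    rw [legendreSym.eq_neg_one_iff] at hl
    apply hl
    rw [← ZMod.intCast_zmod_eq_zero_iff_dvd] at ht
    refine ⟨(t : ZMod p), ?_⟩
    push_cast at ht ⊢
    linear_combination -ht

private theorem int_mem (Q : Ideal (𝓞 K)) (hQ : Q ≠ ⊤) (p : ℕ) (hp : p.Prime) (hpQ : (p : 𝓞 K) ∈ Q) (m : ℤ)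
    (hm : (m : 𝓞 K) ∈ Q) : (p : ℤ) ∣ m := by
  by_contra hd
  have hc : IsCoprime (p : ℤ) m := by
    rw [Int.isCoprime_iff_gcd_eq_one]
    have h1 := (Nat.Prime.coprime_iff_not_dvd hp (n := m.natAbs)).2 (by rwa [← Int.natCast_dvd])
    simpa [Int.gcd, Nat.Coprime] using h1
  obtain ⟨a, b, hab⟩ := hc
  apply hQ
  rw [Ideal.eq_top_iff_one]
  have h2 : (1 : 𝓞 K) = (a : 𝓞 K) * (p : 𝓞 K) + (b : 𝓞 K) * (m : 𝓞 K) := by
    exact_mod_cast congrArg (Int.cast : ℤ → 𝓞 K) hab.symm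
  rw [h2]
  exact Q.add_mem (Q.mul_mem_left _ hpQ) (Q.mul_mem_left _ hm)

theorem split (h : Quad K q δ) [Fact q.Prime] (p : ℕ) (hp : p.Prime) (hp2 : p ≠ 2) (hpq : p ≠ q)
    (hl : ZMod.χ₄ (p : ZMod 4) * legendreSym q p = 1) :
    ∃ P P' : Ideal (𝓞 K), P ≠ P' ∧ P.IsPrime ∧ P'.IsPrime ∧ Ideal.absNorm P = p ∧ Ideal.absNorm P' = p ∧
      ∀ Q : Ideal (𝓞 K), Q.IsPrime → (p : 𝓞 K) ∈ Q → Q = P ∨ Q = P' := by
  haveI : Fact p.Prime := ⟨hp⟩
  obtain ⟨t, m, hm⟩ := (sq_iff h p hp2).1 hl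
  have hpt : ¬ (p : ℤ) ∣ 2 * t := by
    intro hd
    rcases (Nat.prime_iff_prime_int.1 hp).dvd_or_dvd hd with h1 | h1
    · have h2 : p ∣ 2 := by exact_mod_cast h1
      rcases (Nat.dvd_prime Nat.prime_two).1 h2 with h3 | h3
      · exact hp.one_lt.ne' h3
      · exact hp2 h3
    · have h2 : (p : ℤ) ∣ q := by
        have h3 : (p : ℤ) ∣ t ^ 2 := dvd_pow h1 two_ne_zero
        have h4 : (q : ℤ) = p * m - t ^ 2 := by linarith
        rw [h4]
        exact dvd_sub (Dvd.intro _ rfl) h3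
      have h3 : p ∣ q := by exact_mod_cast h2
      rcases (Nat.dvd_prime h.prime).1 h3 with h4 | h4
      · exact hp.one_lt.ne' h4
      · exact hpq h4
  set P : Ideal (𝓞 K) := Ideal.span {(p : 𝓞 K), δ - (t : 𝓞 K)} with hPdef
  set P' : Ideal (𝓞 K) := Ideal.span {(p : 𝓞 K), δ + (t : 𝓞 K)} with hP'def
  have hmul : P * P' = Ideal.span {(p : 𝓞 K)} := by
    rw [hPdef, hP'def, Ideal.span_pair_mul_span_pair]
    have hmK : (t : 𝓞 K) ^ 2 + (q : 𝓞 K) = (p : 𝓞 K) * (m : 𝓞 K) := by exact_mod_cast congrArg (Int.cast : ℤ → 𝓞 K) hm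
    apply le_antisymm
    · rw [Ideal.span_le]
      intro x hx
      simp only [Set.mem_insert_iff, Set.mem_singleton_iff] at hx
      rw [SetLike.mem_coe, Ideal.mem_span_singleton]
      rcases hx with rfl | rfl | rfl | rfl
      · exact Dvd.intro _ rfl
      · exact Dvd.intro _ rfl
      · exact Dvd.intro_left _ rfl
      · refine ⟨-(m : 𝓞 K), ?_⟩
        have := h.sq
        linear_combination this - hmK
    · rw [Ideal.span_singleton_le_iff_mem]
      have hc : IsCoprime (p : ℤ) (2 * t) := by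
        rw [Int.isCoprime_iff_gcd_eq_one]
        have h1 := (Nat.Prime.coprime_iff_not_dvd hp (n := (2 * t).natAbs)).2 (by rwa [← Int.natCast_dvd])
        simpa [Int.gcd, Nat.Coprime] using h1
      obtain ⟨a, b, hab⟩ := hc
      have habK : (a : 𝓞 K) * (p : 𝓞 K) + (b : 𝓞 K) * (2 * (t : 𝓞 K)) = 1 := by
        exact_mod_cast congrArg (Int.cast : ℤ → 𝓞 K) hab
      set I : Ideal (𝓞 K) := Ideal.span {(p : 𝓞 K) * (p : 𝓞 K), (p : 𝓞 K) * (δ + t), (δ - t) * (p : 𝓞 K), (δ - t) * (δ + t)} with hI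
      have m1 : (p : 𝓞 K) * (p : 𝓞 K) ∈ I := Ideal.subset_span (by simp)
      have m2 : (p : 𝓞 K) * (δ + t) ∈ I := Ideal.subset_span (by simp)
      have m3 : (δ - t) * (p : 𝓞 K) ∈ I := Ideal.subset_span (by simp)
      have e : (p : 𝓞 K) = (a : 𝓞 K) * ((p : 𝓞 K) * (p : 𝓞 K)) +
          (b : 𝓞 K) * ((p : 𝓞 K) * (δ + t) - (δ - t) * (p : 𝓞 K)) := by
        linear_combination -(p : 𝓞 K) * habK
      rw [e]
      exact I.add_mem (I.mul_mem_left _ m1) (I.mul_mem_left _ (I.sub_mem m2 m3))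
  have hnot : ∀ s : ℤ, δ + (s : 𝓞 K) ∉ Ideal.span {(p : 𝓞 K)} := by
    intro s hs
    rw [Ideal.mem_span_singleton] at hs
    obtain ⟨z, hz⟩ := hs
    obtain ⟨u, v, huv⟩ := coords h z
    have h1 := unique h s 1 (p * u) (p * v) (by
      push_cast
      linear_combination hz + (p : 𝓞 K) * huv)
    have h2 : (p : ℤ) ∣ 1 := Dvd.intro _ h1.2.symm
    have h3 : p ∣ 1 := by exact_mod_cast h2
    exact hp.one_lt.ne' (Nat.dvd_one.1 h3)
  have hpP : (p : 𝓞 K) ∈ P := Ideal.subset_span (by simp)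
  have hpP' : (p : 𝓞 K) ∈ P' := Ideal.subset_span (by simp)
  have hPt : P ≠ ⊤ := by
    intro h1
    rw [h1, Ideal.top_mul] at hmul
    exact hnot t (by rw [← hmul]; exact Ideal.subset_span (by simp))
  have hP't : P' ≠ ⊤ := by
    intro h1
    rw [h1, Ideal.mul_top] at hmul
    refine hnot (-t) ?_
    rw [← hmul]
    have : δ + ((-t : ℤ) : 𝓞 K) = δ - (t : 𝓞 K) := by push_cast; ring
    rw [this]
    exact Ideal.subset_span (by simp)
  have hnn : Ideal.absNorm P * Ideal.absNorm P' = p ^ 2 := by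
    rw [← map_mul, hmul, absNorm_nat h p]
  have hone : Ideal.absNorm P ≠ 1 := fun h1 => hPt (Ideal.absNorm_eq_one_iff.1 h1)
  have hone' : Ideal.absNorm P' ≠ 1 := fun h1 => hP't (Ideal.absNorm_eq_one_iff.1 h1)
  obtain ⟨k, hk, hk2⟩ := (Nat.dvd_prime_pow hp).1 (Dvd.intro _ hnn)
  have hNP : Ideal.absNorm P = p ∧ Ideal.absNorm P' = p := by
    interval_cases k
    · exact absurd (by rw [hk2, pow_zero]) hone
    · rw [pow_one] at hk2
      rw [hk2, pow_two] at hnn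
      exact ⟨hk2, Nat.eq_of_mul_eq_mul_left hp.pos hnn⟩
    · rw [hk2] at hnn
      exact absurd (Nat.eq_of_mul_eq_mul_left (pow_pos hp.pos 2) (by rw [hnn, mul_one])) hone'
  have hPp : P.IsPrime := Ideal.isPrime_of_irreducible_absNorm (by rw [hNP.1]; exact hp)
  have hP'p : P'.IsPrime := Ideal.isPrime_of_irreducible_absNorm (by rw [hNP.2]; exact hp)
  have hPb : P ≠ ⊥ := by
    intro h1
    rw [h1, Ideal.absNorm_bot] at hNP
    exact hp.ne_zero hNP.1.symm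
  have hP'b : P' ≠ ⊥ := by
    intro h1
    rw [h1, Ideal.absNorm_bot] at hNP
    exact hp.ne_zero hNP.2.symm
  refine ⟨P, P', ?_, hPp, hP'p, hNP.1, hNP.2, ?_⟩
  · intro heq
    apply hpt
    apply int_mem P hPt p hp hpP
    have h1 : δ + (t : 𝓞 K) ∈ P := by rw [heq]; exact Ideal.subset_span (by simp)
    have h2 : δ - (t : 𝓞 K) ∈ P := Ideal.subset_span (by simp)
    have h3 : ((2 * t : ℤ) : 𝓞 K) = (δ + t) - (δ - t) := by push_cast; ring
    rw [h3]
    exact P.sub_mem h1 h2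
  · intro Q hQ hpQ
    have h1 : P * P' ≤ Q := by
      rw [hmul, Ideal.span_singleton_le_iff_mem]
      exact hpQ
    rcases hQ.mul_le.1 h1 with h2 | h2
    · left
      exact ((hPp.isMaximal hPb).eq_of_le hQ.ne_top h2).symm
    · right
      exact ((hP'p.isMaximal hP'b).eq_of_le hQ.ne_top h2).symm

theorem inert (h : Quad K q δ) [Fact q.Prime] (p : ℕ) (hp : p.Prime) (hp2 : p ≠ 2) (hpq : p ≠ q)
    (hl : ZMod.χ₄ (p : ZMod 4) * legendreSym q p = -1) :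
    (Ideal.span {(p : 𝓞 K)}).IsPrime ∧ Ideal.absNorm (Ideal.span {(p : 𝓞 K)}) = p ^ 2 ∧
      ∀ Q : Ideal (𝓞 K), Q.IsPrime → (p : 𝓞 K) ∈ Q → Q = Ideal.span {(p : 𝓞 K)} := by
  haveI : Fact p.Prime := ⟨hp⟩
  have hkey : ∀ Q : Ideal (𝓞 K), Q.IsPrime → (p : 𝓞 K) ∈ Q → Q = Ideal.span {(p : 𝓞 K)} := by
    intro Q hQ hpQ
    rcases norm_cases h Q hQ p hp hpQ with h1 | h1
    · exfalso
      apply (sq_iff h p hp2).2 hl
      have hcard : Nat.card (𝓞 K ⧸ Q) = p := by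
        rw [← h1, Ideal.absNorm_apply, Submodule.cardQuot_apply]
      haveI : Finite (𝓞 K ⧸ Q) := Nat.finite_of_card_ne_zero (by rw [hcard]; exact hp.ne_zero)
      haveI : Fintype (𝓞 K ⧸ Q) := Fintype.ofFinite _
      have hcard2 : Fintype.card (𝓞 K ⧸ Q) = p := by rw [← Nat.card_eq_fintype_card, hcard]
      let e := ZMod.ringEquivOfPrime (𝓞 K ⧸ Q) hp hcard2
      obtain ⟨t, ht⟩ := ZMod.intCast_surjective (e.symm (Ideal.Quotient.mk Q δ))
      have ht2 : Ideal.Quotient.mk Q δ = (t : 𝓞 K ⧸ Q) := by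
        have := congrArg e ht
        rw [RingEquiv.apply_symm_apply, map_intCast] at this
        exact this.symm
      refine ⟨t, ?_⟩
      apply int_mem Q hQ.ne_top p hp hpQ
      rw [← Ideal.Quotient.eq_zero_iff_mem]
      push_cast
      rw [map_add, map_pow, map_intCast, ← ht2, ← map_pow, ← map_add, pow_two, h.sq]
      simp
    · exact h1.2
  refine ⟨?_, absNorm_nat h p, hkey⟩
  have hne : Ideal.span {(p : 𝓞 K)} ≠ ⊤ := by
    intro h1
    have h2 := absNorm_nat h p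
    rw [h1, Ideal.absNorm_top] at h2
    have h3 := hp.one_lt
    nlinarith
  obtain ⟨M, hM, hle⟩ := Ideal.exists_le_maximal _ hne
  rw [← hkey M hM.isPrime ((Ideal.span_singleton_le_iff_mem M).1 hle)]
  exact hM.isPrime

theorem ram (h : Quad K q δ) : (Ideal.span {δ}).IsPrime ∧ Ideal.absNorm (Ideal.span {δ}) = q ∧
    ∀ Q : Ideal (𝓞 K), Q.IsPrime → (q : 𝓞 K) ∈ Q → Q = Ideal.span {δ} := by
  have hn : Ideal.absNorm (Ideal.span {δ}) = q := by
    rw [Ideal.absNorm_span_singleton]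
    have h1 := norm_int h 0 1
    have h2 : (((0 : ℤ) : 𝓞 K) + ((1 : ℤ) : 𝓞 K) * δ) = δ := by simp
    rw [h2] at h1
    rw [h1]
    simp
  have hp : (Ideal.span {δ}).IsPrime :=
    Ideal.isPrime_of_irreducible_absNorm (by rw [hn]; exact h.prime)
  refine ⟨hp, hn, ?_⟩
  intro Q hQ hqQ
  have hb : Ideal.span {δ} ≠ ⊥ := by
    intro h1
    rw [h1, Ideal.absNorm_bot] at hn
    exact h.prime.ne_zero hn.symm
  have h1 : δ * δ ∈ Q := by
    rw [h.sq]
    exact Q.neg_mem hqQ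
  have h2 : δ ∈ Q := by
    rcases hQ.mem_or_mem h1 with h3 | h3
    · exact h3
    · exact h3
  exact ((hp.isMaximal hb).eq_of_le hQ.ne_top ((Ideal.span_singleton_le_iff_mem Q).2 h2)).symm

end Pool.Agent.Work.MP_a5099b_nt.PrG
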