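import Pool.Agent.Work.MP_a5099b_nt.I1.CCls
import Pool.Agent.Work.MP_a5099b_nt.I1.CCos

set_option autoImplicit false

/-!
# CCnt (size M-L, uses the statements of CCls, CCos, CConj, CInt): counting the ideals of a class

PROOF (variant of `I/CCnt.lean`, proved: leave out the conditions `U2`). Let `R` = number of the residue classes `ρ mod N 𝓞` with `norm ρ ≡ 1 mod N`; `R ≥ 1`. Fix `g` and `b` with `Sm N b`, `cl b = g⁻¹` (`surj`).
For `I` with `Sm N I`: `cl I = g` iff `cl (I b) = 1` iff `I b = (γ)` with `norm γ ≡ 1 mod N` (`cls_one_iff`). The map `γ ↦ (γ) b⁻¹` from `E(T) = {γ ∈ b : norm γ ≡ 1 mod N, norm γ ≤ T}` to the ideals of class `g`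
with norm `≤ T / absNorm b` is surjective and exactly two to one (`unit_eq`; `γ ≠ 0`). `E(T)` is the disjoint union over the `R` classes `ρ` of `{γ ∈ b : γ ≡ ρ mod N, norm γ ≤ T}`; since `b + N 𝓞 = 𝓞` there is `v ∈ b`
with `v ≡ ρ mod N`, and `γ ∈ b, γ ≡ ρ mod N` iff `γ - v ∈ b * (N)`, an ideal of norm `absNorm b * N²`. `coset_count`: `|#E(T) - R κ₀ T / (absNorm b N²)| ≤ R C (1 + √T)`. With `T = n absNorm b`: the count is
`(R κ₀ / (2 N²)) n + O(1 + √n)`. The main constant does not depend on `g`.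
-/

namespace Pool.Agent.Work.MP_a5099b_nt.PrG

open Finset NumberField
open Pool.Agent.Work.MP_a5099b_nt.PrF (Sm LamK ids mem_ids cK lK Dat tw)

variable {K : Type} [Field K] [NumberField K] {q : ℕ} {δ : 𝓞 K} {N : ℕ} {G : Type} [CommGroup G] [Fintype G]
  {cl : Ideal (𝓞 K) → G}

/-- the elements counted -/
private def Eset (N : ℕ) (b : Ideal (𝓞 K)) (T : ℝ) : Set (𝓞 K) :=
  {γ | γ ∈ b ∧ Algebra.norm ℤ γ ≡ 1 [ZMOD (N : ℤ)] ∧ ((Algebra.norm ℤ γ : ℤ) : ℝ) ≤ T}

private theorem Eset_finite (h : Quad K q δ) (b : Ideal (𝓞 K)) (T : ℝ) : (Eset N b T).Finite :=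
  (norm_le_finite h T).subset fun _ hx => hx.2.2

/-- good residue classes -/
private def Good (N : ℕ) (c : 𝓞 K ⧸ Ideal.span {(N : 𝓞 K)}) : Prop :=
  ∃ ρ : 𝓞 K, Ideal.Quotient.mk _ ρ = c ∧ Algebra.norm ℤ ρ ≡ 1 [ZMOD (N : ℤ)]

private theorem good_all (h : Quad K q δ) (ρ : 𝓞 K)
    (hg : Good N (Ideal.Quotient.mk (Ideal.span {(N : 𝓞 K)}) ρ)) : Algebra.norm ℤ ρ ≡ 1 [ZMOD (N : ℤ)] := by
  obtain ⟨σ, h1, h3⟩ := hg
  rw [Ideal.Quotient.eq, Ideal.mem_span_singleton] at h1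
  obtain ⟨z, hz⟩ := h1
  have h4 := norm_modEq h N σ ρ z (by linear_combination hz)
  exact h4.symm.trans h3

private theorem norm_N (h : Quad K q δ) (N : ℕ) : Algebra.norm ℤ (N : 𝓞 K) = (N : ℤ) ^ 2 := by
  have := norm_int h (N : ℤ) 0
  simpa using this

private theorem E_count (h : Quad K q δ) (h0 : N ≠ 0) :
    ∃ κ : ℝ, 0 < κ ∧ ∀ b : Ideal (𝓞 K), Sm N b → ∃ C : ℝ, 0 ≤ C ∧ ∀ T : ℝ, 0 ≤ T →
      |((Eset N b T).ncard : ℝ) - κ * T / (Ideal.absNorm b : ℝ)| ≤ C * (1 + Real.sqrt T) := by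
  classical
  obtain ⟨κ₀, hκ₀, hco⟩ := coset_count h
  set NN : Ideal (𝓞 K) := Ideal.span {(N : 𝓞 K)} with hNN
  have hNN0 : NN ≠ ⊥ := by
    rw [hNN, Ne, Ideal.span_singleton_eq_bot]
    exact_mod_cast h0
  have hNNn : Ideal.absNorm NN = N ^ 2 := by
    have h1 := norm_gen h (N : 𝓞 K)
    rw [norm_N h] at h1
    exact_mod_cast h1
  have hcardQ : Nat.card (𝓞 K ⧸ NN) = Ideal.absNorm NN := by
    rw [Ideal.absNorm_apply, Submodule.cardQuot_apply]
  have : Finite (𝓞 K ⧸ NN) := by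
    apply Nat.finite_of_card_ne_zero
    rw [hcardQ, hNNn]
    positivity
  have : Fintype (𝓞 K ⧸ NN) := Fintype.ofFinite _
  set R : Finset (𝓞 K ⧸ NN) := Finset.univ.filter fun c => Good N c with hR
  have hR1 : 0 < R.card := by
    rw [Finset.card_pos]
    refine ⟨Ideal.Quotient.mk _ 1, ?_⟩
    rw [hR, Finset.mem_filter]
    exact ⟨Finset.mem_univ _, 1, rfl, by simp⟩
  refine ⟨R.card * κ₀ / (N : ℝ) ^ 2, by positivity, fun b hb => ?_⟩
  have hcop : IsCoprime b NN := by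
    rw [Ideal.isCoprime_iff_exists]
    have h1 : IsCoprime ((Ideal.absNorm b : ℕ) : ℤ) (N : ℤ) := Nat.isCoprime_iff_coprime.2 hb.2
    obtain ⟨s, t, hst⟩ := h1
    refine ⟨(s : 𝓞 K) * (Ideal.absNorm b : 𝓞 K), b.mul_mem_left _ (Ideal.absNorm_mem b),
      (t : 𝓞 K) * (N : 𝓞 K), NN.mul_mem_left _ (Ideal.mem_span_singleton_self _), ?_⟩
    exact_mod_cast congrArg (Int.cast : ℤ → 𝓞 K) hst
  have hinf : b ⊓ NN = b * NN := (Ideal.mul_eq_inf_of_isCoprime hcop).symm
  have hJ0 : b ⊓ NN ≠ ⊥ := by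
    rw [hinf]
    exact mul_ne_zero hb.1 hNN0
  have hJn : ((Ideal.absNorm (b ⊓ NN) : ℕ) : ℝ) = (Ideal.absNorm b : ℝ) * (N : ℝ) ^ 2 := by
    rw [hinf, map_mul, hNNn]
    push_cast
    ring
  obtain ⟨C, hC⟩ := hco (b ⊓ NN) hJ0
  have hC0 : 0 ≤ C := by
    have h1 := (abs_nonneg _).trans (hC 0 0 le_rfl)
    simpa using h1
  have hv : ∀ c : 𝓞 K ⧸ NN, ∃ v ∈ b, Ideal.Quotient.mk NN v = c := by
    intro c
    obtain ⟨ρ, hρ⟩ := Ideal.Quotient.mk_surjective c
    obtain ⟨s, hs, t, ht, hst⟩ := (Ideal.isCoprime_iff_exists.1 hcop)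
    refine ⟨ρ * s, b.mul_mem_left _ hs, ?_⟩
    rw [← hρ, Ideal.Quotient.eq]
    have : ρ * s - ρ = -(ρ * t) := by linear_combination ρ * hst
    rw [this]
    exact NN.neg_mem (NN.mul_mem_left _ ht)
  choose v hvb hvc using hv
  refine ⟨R.card * C, by positivity, fun T hT => ?_⟩
  have hdec : ((Eset N b T).ncard : ℝ) = ∑ c ∈ R,
      (({x : 𝓞 K | x - v c ∈ b ⊓ NN ∧ ((Algebra.norm ℤ x : ℤ) : ℝ) ≤ T}.ncard : ℕ) : ℝ) := by
    have hE := Eset_finite (N := N) h b T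
    rw [Set.ncard_eq_toFinset_card _ hE]
    have e3 := Finset.card_eq_sum_card_fiberwise (f := fun x => Ideal.Quotient.mk NN x) (s := hE.toFinset)
      (t := R) (fun x hx => by
        have hx' : x ∈ Eset N b T := by simpa using hx
        rw [hR]
        simp only [Finset.coe_filter, Finset.mem_univ, true_and, Set.mem_ofPred_eq]
        exact ⟨x, rfl, hx'.2.1⟩)
    rw [e3]
    push_cast
    refine Finset.sum_congr rfl fun c hc => ?_
    have e2 : {x : 𝓞 K | x - v c ∈ b ⊓ NN ∧ ((Algebra.norm ℤ x : ℤ) : ℝ) ≤ T} =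
        ((hE.toFinset.filter fun x => Ideal.Quotient.mk NN x = c : Finset (𝓞 K)) : Set (𝓞 K)) := by
      ext x
      simp only [Set.mem_ofPred_eq, Finset.coe_filter, Set.Finite.mem_toFinset, Ideal.mem_inf]
      have hgood : Good N c := (Finset.mem_filter.1 hc).2
      constructor
      · rintro ⟨⟨h1, h2⟩, h3⟩
        have h4 : Ideal.Quotient.mk NN x = c := by
          rw [← hvc c, Ideal.Quotient.eq]
          exact h2
        have h5 := good_all h x (by rw [h4]; exact hgood)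
        have h6 : x ∈ b := by
          have := b.add_mem h1 (hvb c)
          simpa using this
        exact ⟨⟨h6, h5, h3⟩, h4⟩
      · rintro ⟨⟨h6, -, h3⟩, h4⟩
        refine ⟨⟨b.sub_mem h6 (hvb c), ?_⟩, h3⟩
        rw [← Ideal.Quotient.eq, h4, hvc c]
    rw [e2, Set.ncard_coe_finset]
  have hBpos : (0 : ℝ) < (Ideal.absNorm b : ℝ) := by exact_mod_cast hb.pos
  have hNpos : (0 : ℝ) < (N : ℝ) := by exact_mod_cast Nat.pos_of_ne_zero h0
  have h2 : |∑ c ∈ R, ((({x : 𝓞 K | x - v c ∈ b ⊓ NN ∧ ((Algebra.norm ℤ x : ℤ) : ℝ) ≤ T}.ncard : ℕ) : ℝ) -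
      κ₀ * T / ((Ideal.absNorm (b ⊓ NN) : ℕ) : ℝ))| ≤ R.card * C * (1 + Real.sqrt T) := by
    refine (Finset.abs_sum_le_sum_abs _ _).trans ?_
    refine (Finset.sum_le_sum fun c _ => hC (v c) T hT).trans ?_
    rw [Finset.sum_const, nsmul_eq_mul]
    linarith
  rw [Finset.sum_sub_distrib, Finset.sum_const, nsmul_eq_mul, ← hdec, hJn] at h2
  convert h2 using 3
  field_simp

private theorem pair_count (h : Quad K q δ) (hN : 4 ∣ N) (hc : Cls N G cl) (g : G) (b : Ideal (𝓞 K)) (hb : Sm N b)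
    (hbg : cl b = g⁻¹) (n : ℕ) :
    2 * ∑ k ∈ Icc 1 n, cK N cl k g = ((Eset N b ((n : ℝ) * Ideal.absNorm b)).ncard : ℝ) := by
  classical
  have hb0 : b ≠ ⊥ := hb.1
  have hBpos : 0 < Ideal.absNorm b := hb.pos
  -- the finset of ideals
  set F : Finset (Ideal (𝓞 K)) := (Icc 1 n).biUnion fun k => (ids K k).filter fun I => Sm N I ∧ cl I = g with hF
  have hFmem : ∀ I, I ∈ F ↔ Sm N I ∧ cl I = g ∧ Ideal.absNorm I ≤ n := by
    intro I
    rw [hF, Finset.mem_biUnion]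
    constructor
    · rintro ⟨k, hk, hI⟩
      rw [Finset.mem_filter, mem_ids] at hI
      rw [Finset.mem_Icc] at hk
      exact ⟨hI.2.1, hI.2.2, by rw [hI.1]; exact hk.2⟩
    · rintro ⟨h1, h2, h3⟩
      refine ⟨Ideal.absNorm I, Finset.mem_Icc.2 ⟨h1.pos, h3⟩, ?_⟩
      rw [Finset.mem_filter, mem_ids]
      exact ⟨rfl, h1, h2⟩
  have hsum : ∑ k ∈ Icc 1 n, cK N cl k g = (F.card : ℝ) := by
    rw [hF, Finset.card_biUnion]
    · push_cast
      rfl
    · intro i _ j _ hij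
      rw [Function.onFun, Finset.disjoint_left]
      intro I hI hJ
      rw [Finset.mem_filter, mem_ids] at hI hJ
      exact hij (hI.1.symm.trans hJ.1)
  have hE := Eset_finite (N := N) h b ((n : ℝ) * Ideal.absNorm b)
  rw [hsum, Set.ncard_eq_toFinset_card _ hE]
  -- fibres
  have hmap : ∀ γ ∈ hE.toFinset, Ideal.span {γ} ∈ F.image fun I => I * b := by
    intro γ hγ
    rw [Set.Finite.mem_toFinset] at hγ
    obtain ⟨h1, h3, h4⟩ := hγ
    have h5 : b ∣ Ideal.span {γ} := by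
      rw [Ideal.dvd_span_singleton]
      exact h1
    obtain ⟨I, hI⟩ := h5
    have h6 : ((Ideal.absNorm (Ideal.span {γ}) : ℕ) : ℤ) = Algebra.norm ℤ γ := norm_gen h γ
    have h7 : Sm N (Ideal.span {γ}) := by
      rw [PrF.Sm_iff]
      have h8 : IsCoprime (Algebra.norm ℤ γ) (N : ℤ) := by
        obtain ⟨t, ht⟩ := h3.symm.dvd
        exact ⟨1, -t, by linear_combination ht⟩
      rw [← h6, Nat.isCoprime_iff_coprime] at h8
      refine ⟨Nat.pos_of_ne_zero fun h9 => ?_, h8⟩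
      rw [h9] at h8 h6
      rw [Nat.coprime_zero_left] at h8
      omega
    rw [hI, PrF.Sm_mul] at h7
    rw [Finset.mem_image]
    refine ⟨I, (hFmem I).2 ⟨h7.2, ?_, ?_⟩, by rw [hI, mul_comm]⟩
    · have h14 : cl (b * I) = 1 := by
        rw [cls_one_iff h hN hc _ (PrF.Sm_mul.2 h7)]
        exact ⟨γ, hI.symm, h3⟩
      rw [hc.mul b I h7.1 h7.2, hbg] at h14
      exact (inv_mul_eq_one.1 h14).symm
    · rw [← h6, hI, map_mul] at h4
      have h15 : ((Ideal.absNorm b * Ideal.absNorm I : ℕ) : ℝ) ≤ (n : ℝ) * Ideal.absNorm b := by exact_mod_cast h4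
      have h16 : Ideal.absNorm b * Ideal.absNorm I ≤ n * Ideal.absNorm b := by exact_mod_cast h15
      rw [mul_comm n] at h16
      exact Nat.le_of_mul_le_mul_left h16 hBpos
  have hcount := Finset.card_eq_sum_card_fiberwise (f := fun γ => Ideal.span {γ}) (s := hE.toFinset)
    (t := F.image fun I => I * b) (fun γ hγ => hmap γ hγ)
  have hfib : ∀ J ∈ F.image fun I => I * b, (hE.toFinset.filter fun γ => Ideal.span {γ} = J).card = 2 := by
    intro J hJ
    rw [Finset.mem_image] at hJ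
    obtain ⟨I, hI, rfl⟩ := hJ
    obtain ⟨h1, h2, h3⟩ := (hFmem I).1 hI
    have hsm : Sm N (I * b) := PrF.Sm_mul.2 ⟨h1, hb⟩
    have h4 : cl (I * b) = 1 := by
      rw [hc.mul I b h1 hb, hbg, h2, mul_inv_cancel]
    obtain ⟨γ, hγ1, hγ3⟩ := (cls_one_iff h hN hc _ hsm).1 h4
    have hγ0 : γ ≠ 0 := by
      intro h0
      apply hsm.1
      rw [hγ1, h0, Ideal.span_singleton_eq_bot]
    have hγb : γ ∈ b := by
      have : γ ∈ I * b := by
        rw [hγ1]
        exact Ideal.mem_span_singleton_self _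
      exact Ideal.mul_le_right this
    have hγn : ((Algebra.norm ℤ γ : ℤ) : ℝ) ≤ (n : ℝ) * Ideal.absNorm b := by
      rw [← norm_gen h γ, ← hγ1, map_mul]
      push_cast
      exact mul_le_mul_of_nonneg_right (by exact_mod_cast h3) (by positivity)
    have hE1 : ∀ x, (x = γ ∨ x = -γ) → x ∈ Eset N b ((n : ℝ) * Ideal.absNorm b) := by
      intro x hx
      have hnn : Algebra.norm ℤ x = Algebra.norm ℤ γ := by
        rcases hx with rfl | rfl
        · rfl
        · have e1 : (-γ : 𝓞 K) = (((-1 : ℤ) : 𝓞 K) + ((0 : ℤ) : 𝓞 K) * δ) * γ := by push_cast; ring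
          rw [e1, map_mul, norm_int h]
          ring
      refine ⟨?_, by rw [hnn]; exact hγ3, by rw [hnn]; exact hγn⟩
      rcases hx with rfl | rfl
      · exact hγb
      · exact b.neg_mem hγb
    have hset : (hE.toFinset.filter fun x => Ideal.span {x} = I * b) = {γ, -γ} := by
      ext x
      rw [Finset.mem_filter, Set.Finite.mem_toFinset, Finset.mem_insert, Finset.mem_singleton]
      constructor
      · rintro ⟨-, hx⟩
        rw [hγ1, Ideal.span_singleton_eq_span_singleton] at hx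
        obtain ⟨u, hu⟩ := hx.symm
        rcases unit_eq h (u : 𝓞 K) u.isUnit with h5 | h5
        · left
          rw [← hu, h5, mul_one]
        · right
          rw [← hu, h5]
          ring
      · intro hx
        refine ⟨hE1 x hx, ?_⟩
        rw [hγ1]
        rcases hx with rfl | rfl
        · rfl
        · rw [Ideal.span_singleton_neg]
    rw [hset, Finset.card_pair]
    intro h6
    apply hγ0
    have h7 : (2 : 𝓞 K) * γ = 0 := by linear_combination h6
    rcases mul_eq_zero.1 h7 with h8 | h8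
    · exact absurd h8 two_ne_zero
    · exact h8
  rw [Finset.sum_congr rfl hfib, Finset.sum_const, Finset.card_image_of_injective] at hcount
  · rw [hcount]
    rw [smul_eq_mul]
    push_cast
    ring
  · intro I J hIJ
    exact mul_right_cancel₀ hb0 hIJ

theorem cls_count (h : Quad K q δ) (hN : 4 ∣ N) (h0 : N ≠ 0) (hc : Cls N G cl) :
    ∃ κ C : ℝ, 0 < κ ∧ ∀ (g : G) (n : ℕ), |∑ k ∈ Icc 1 n, cK N cl k g - κ * n| ≤ C * Real.sqrt n := by
  classical
  obtain ⟨κ, hκ, hE⟩ := E_count (N := N) h h0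
  have hg : ∀ g : G, ∃ C : ℝ, 0 ≤ C ∧ ∀ n : ℕ,
      |∑ k ∈ Icc 1 n, cK N cl k g - κ / 2 * n| ≤ C * Real.sqrt n := by
    intro g
    obtain ⟨b, hb, hbg⟩ := hc.surj g⁻¹
    obtain ⟨C, hC0, hC⟩ := hE b hb
    have hBpos : (0 : ℝ) < (Ideal.absNorm b : ℝ) := by exact_mod_cast hb.pos
    refine ⟨C * (1 + Real.sqrt (Ideal.absNorm b)) / 2, by positivity, fun n => ?_⟩
    rcases Nat.eq_zero_or_pos n with hn | hn
    · subst hn
      simp
    · have h1 := hC ((n : ℝ) * Ideal.absNorm b) (by positivity)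
      rw [← pair_count h hN hc g b hb hbg n] at h1
      have h2 : κ * ((n : ℝ) * Ideal.absNorm b) / (Ideal.absNorm b : ℝ) = κ * n := by
        field_simp
      rw [h2, Real.sqrt_mul (by positivity)] at h1
      have h3 : 1 ≤ Real.sqrt n := by
        rw [Real.one_le_sqrt]
        exact_mod_cast hn
      have h4 : 2 * ∑ k ∈ Icc 1 n, cK N cl k g - κ * n = 2 * (∑ k ∈ Icc 1 n, cK N cl k g - κ / 2 * n) := by
        ring
      rw [h4, abs_mul, abs_two] at h1
      have h5 : C * (1 + Real.sqrt n * Real.sqrt (Ideal.absNorm b)) ≤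
          C * (1 + Real.sqrt (Ideal.absNorm b)) * Real.sqrt n := by
        nlinarith
      linarith
  choose C hC0 hC using hg
  refine ⟨κ / 2, ∑ g, C g, by positivity, fun g n => (hC g n).trans ?_⟩
  exact mul_le_mul_of_nonneg_right (Finset.single_le_sum (fun i _ => hC0 i) (Finset.mem_univ g)) (Real.sqrt_nonneg _)

end Pool.Agent.Work.MP_a5099b_nt.PrG
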