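import Pool.Agent.Work.MP_a5099b_nt.I.BDefs
import Pool.Agent.Work.MP_a5099b_nt.I.ADefs

set_option autoImplicit false

/-!
# Definitions for the imaginary quadratic field `K = ℚ(√-q)`, `q ≡ 1 mod 4` prime (no `sorry`)
-/

namespace Pool.Agent.Work.MP_a5099b_nt.PrG

open Finset NumberField
open Pool.Agent.Work.MP_a5099b_nt.PrF (Sm LamK ids mem_ids cK lK Dat tw)

variable {K : Type} [Field K] [NumberField K]

/-- `K = ℚ(√-q)`, `δ = √-q` -/
structure Quad (K : Type) [Field K] [NumberField K] (q : ℕ) (δ : 𝓞 K) : Prop where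
  prime : q.Prime
  mod4 : q % 4 = 1
  deg : Module.finrank ℚ K = 2
  sq : δ * δ = -(q : 𝓞 K)

theorem Quad.five {q : ℕ} {δ : 𝓞 K} (h : Quad K q δ) : 5 ≤ q := by
  have h1 := h.prime.two_le
  have h2 := h.mod4
  omega

/-- equivalence of ideals: multiplication by elements whose norms are prime to `N` and congruent modulo `N` -/
def Rel (N : ℕ) (I J : Ideal (𝓞 K)) : Prop :=
  ∃ α β : 𝓞 K, IsCoprime (Algebra.norm ℤ α) (N : ℤ) ∧
    Algebra.norm ℤ α ≡ Algebra.norm ℤ β [ZMOD (N : ℤ)] ∧ Ideal.span {α} * I = Ideal.span {β} * J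

/-- `cl` is the class map of the group of ideals prime to `N` modulo `Rel N` -/
structure Cls (N : ℕ) (G : Type) [CommGroup G] (cl : Ideal (𝓞 K) → G) : Prop where
  mul : ∀ I J, Sm N I → Sm N J → cl (I * J) = cl I * cl J
  eq_iff : ∀ I J, Sm N I → Sm N J → (cl I = cl J ↔ Rel N I J)
  surj : ∀ g, ∃ I, Sm N I ∧ cl I = g

/-- the prime ideal above `2` -/
def P2 (δ : 𝓞 K) : Ideal (𝓞 K) := Ideal.span {2, 1 + δ}

end Pool.Agent.Work.MP_a5099b_nt.PrG
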