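import Pool.Agent.Work.MP_a5099b_nt.I1.CConj

set_option autoImplicit false

/-!
# CRel (size M-L, uses the statements of CInt, CConj): the finite class group

PROOF (variant of `I/CRel.lean`, proved: leave out the conditions `U2`). `Rel N` is reflexive (`α = β = 1`), symmetric (`norm β` is prime to `N` as well), transitive
(multiply: `(α)(α') I = (β)(α') J = (β)(β') L`) and compatible with products. `Sm N` is closed under products and contains `⊤` (`PrF.Sm_mul`, `PrF.Sm_top`). Let `S` be the submonoid of the ideals with `Sm N`, `G₀` the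
quotient monoid (`Con`), a commutative monoid. It is cancellative: `Rel (I J) (I J')` gives `(α) I J = (β) I J'`, `I ≠ ⊥` cancels. It is finite: for every class `C` of the class group of `𝓞 K` (finite, Mathlib) which
contains a member of `S` there is `J_C ∈ S` such that `I J_C` is principal for all `I ∈ C` (`J_C = I₀ ^ (h - 1)`). Write `I J_C = (γ_I)`. Claim: if `I, I' ∈ S` are in the same class `C` and `γ_I ≡ γ_I' mod N 𝓞` then
`Rel N I I'`. Proof: `norm γ_I` is prime to `N`, so there is `ρ` with `γ_I ρ ≡ 1 mod N` (`ρ = conj γ_I * t`, `t norm γ_I ≡ 1 mod N`). `α = γ_I' ρ`, `β = γ_I ρ` are `≡ 1 mod N 𝓞` and their norms are `≡ 1 mod N` (`norm_modEq`);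
`(α) I J_C = (γ_I' ρ γ_I) = (β) I' J_C`, cancel `J_C`. So `G₀` injects into `ClassGroup × (𝓞 K ⧸ (N))`, both finite (`N ≠ 0`). A finite cancellative commutative monoid is a group. `cl I` = class of `I` for `I ∈ S`,
`1` otherwise. `Cls`: by construction.
-/

namespace Pool.Agent.Work.MP_a5099b_nt.PrG

open Finset NumberField
open Pool.Agent.Work.MP_a5099b_nt.PrF (Sm LamK ids mem_ids cK lK Dat tw)

open Pool.Agent.Work.MP_a5099b_nt.PrF (Sm_mul Sm_top Sm_pow)

variable {K : Type} [Field K] [NumberField K] {q : ℕ} {δ : 𝓞 K}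

private theorem span_mul_span_mul (a b : 𝓞 K) (I : Ideal (𝓞 K)) :
    Ideal.span {a * b} * I = Ideal.span {a} * (Ideal.span {b} * I) := by
  rw [← mul_assoc, Ideal.span_singleton_mul_span_singleton]

private theorem cop_of_modEq {a b : ℤ} {N : ℕ} (ha : IsCoprime a (N : ℤ)) (hab : a ≡ b [ZMOD (N : ℤ)]) :
    IsCoprime b (N : ℤ) := by
  obtain ⟨c, hc⟩ := hab.dvd
  have hb : b = a + N * c := by linarith
  rw [hb]
  exact IsCoprime.add_mul_left_left ha c

private theorem Rel_refl (N : ℕ) (I : Ideal (𝓞 K)) : Rel N I I :=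
  ⟨1, 1, by rw [map_one]; exact isCoprime_one_left, Int.ModEq.refl _, rfl⟩

private theorem Rel_symm {N : ℕ} {I J : Ideal (𝓞 K)} (h : Rel N I J) : Rel N J I := by
  obtain ⟨a, b, hc, hm, he⟩ := h
  exact ⟨b, a, cop_of_modEq hc hm, hm.symm, he.symm⟩

private theorem Rel_trans {N : ℕ} {I J L : Ideal (𝓞 K)} (h : Rel N I J) (h' : Rel N J L) : Rel N I L := by
  obtain ⟨a, b, hc, hm, he⟩ := h
  obtain ⟨a', b', hc', hm', he'⟩ := h'
  refine ⟨a' * a, b * b', ?_, ?_, ?_⟩
  · rw [map_mul]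
    exact IsCoprime.mul_left hc' hc
  · rw [map_mul, map_mul, mul_comm]
    exact hm.mul hm'
  · rw [span_mul_span_mul, he, span_mul_span_mul b b' L, ← he', ← mul_assoc, ← mul_assoc,
      mul_comm (Ideal.span {a'})]

private theorem Rel_mul {N : ℕ} {I J I' J' : Ideal (𝓞 K)} (h : Rel N I J) (h' : Rel N I' J') :
    Rel N (I * I') (J * J') := by
  obtain ⟨a, b, hc, hm, he⟩ := h
  obtain ⟨a', b', hc', hm', he'⟩ := h'
  refine ⟨a * a', b * b', ?_, ?_, ?_⟩
  · rw [map_mul]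
    exact IsCoprime.mul_left hc hc'
  · rw [map_mul, map_mul]
    exact hm.mul hm'
  · rw [← Ideal.span_singleton_mul_span_singleton, ← Ideal.span_singleton_mul_span_singleton,
      mul_mul_mul_comm, he, he', mul_mul_mul_comm]

private theorem Rel_cancel {N : ℕ} {I J J' : Ideal (𝓞 K)} (hI : I ≠ ⊥) (h : Rel N (I * J) (I * J')) :
    Rel N J J' := by
  obtain ⟨a, b, hc, hm, he⟩ := h
  refine ⟨a, b, hc, hm, ?_⟩
  rw [mul_left_comm, mul_left_comm (Ideal.span {b})] at he
  exact mul_left_cancel₀ hI he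

/-- the monoid of the ideals prime to `N` -/
private def Sub (K : Type) [Field K] [NumberField K] (N : ℕ) : Submonoid (Ideal (𝓞 K)) where
  carrier := {I | Sm N I}
  mul_mem' := fun ha hb => Sm_mul.2 ⟨ha, hb⟩
  one_mem' := by
    rw [Ideal.one_eq_top]
    exact Sm_top

/-- the congruence -/
private def RC (K : Type) [Field K] [NumberField K] (N : ℕ) : Con (Sub K N) where
  r := fun I J => Rel N I.1 J.1
  iseqv := ⟨fun I => Rel_refl N I.1, fun h => Rel_symm h, fun h h' => Rel_trans h h'⟩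
  mul' := fun h h' => Rel_mul h h'

private theorem rel_of_gen (h : Quad K q δ) {N : ℕ} {I I' J : Ideal (𝓞 K)} (hI : Sm N I)
    (hJ : Sm N J) {γ γ' : 𝓞 K} (hg : I * J = Ideal.span {γ}) (hg' : I' * J = Ideal.span {γ'})
    (hd : (N : 𝓞 K) ∣ γ' - γ) : Rel N I I' := by
  have hsm : Sm N (I * J) := Sm_mul.2 ⟨hI, hJ⟩
  have hcop : IsCoprime (Algebra.norm ℤ γ) (N : ℤ) := by
    rw [← norm_gen h, ← hg]
    exact Nat.isCoprime_iff_coprime.2 hsm.2
  obtain ⟨t, s, hts⟩ := hcop
  obtain ⟨z, hz⟩ := hd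
  set ρ : 𝓞 K := conj h γ * (t : 𝓞 K) with hρ
  have h1 : γ * ρ = 1 + (N : 𝓞 K) * (-(s : 𝓞 K)) := by
    have h2 : γ * ρ = ((t * Algebra.norm ℤ γ : ℤ) : 𝓞 K) := by
      rw [hρ, ← mul_assoc, mul_conj h]
      push_cast
      ring
    have h3 : (t * Algebra.norm ℤ γ : ℤ) = 1 - s * N := by linarith
    rw [h2, h3]
    push_cast
    ring
  have h1' : γ' * ρ = 1 + (N : 𝓞 K) * (-(s : 𝓞 K) + z * ρ) := by
    have : γ' = γ + N * z := by linear_combination hz
    rw [this]
    linear_combination h1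
  have hn1 : Algebra.norm ℤ (γ' * ρ) ≡ 1 [ZMOD (N : ℤ)] := by
    have := norm_modEq h N (γ' * ρ) 1 _ h1'
    rwa [map_one] at this
  have hn2 : Algebra.norm ℤ (γ * ρ) ≡ 1 [ZMOD (N : ℤ)] := by
    have := norm_modEq h N (γ * ρ) 1 _ h1
    rwa [map_one] at this
  refine ⟨γ' * ρ, γ * ρ, cop_of_modEq isCoprime_one_left hn1.symm,
    hn1.trans hn2.symm, ?_⟩
  refine mul_right_cancel₀ hJ.1 ?_
  rw [mul_assoc, mul_assoc, hg, hg', Ideal.span_singleton_mul_span_singleton,
    Ideal.span_singleton_mul_span_singleton]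
  congr 2
  ring

private theorem exists_J (N : ℕ) (C : ClassGroup (𝓞 K)) :
    ∃ J : Ideal (𝓞 K), Sm N J ∧ ∀ (I : Ideal (𝓞 K)) (hI : Sm N I),
      ClassGroup.mk0 ⟨I, mem_nonZeroDivisors_of_ne_zero hI.1⟩ = C →
      ∃ γ : 𝓞 K, I * J = Ideal.span {γ} := by
  classical
  by_cases hC : ∃ (I : Ideal (𝓞 K)) (hI : Sm N I),
      ClassGroup.mk0 ⟨I, mem_nonZeroDivisors_of_ne_zero hI.1⟩ = C
  · obtain ⟨I₀, hI₀, hc⟩ := hC
    refine ⟨I₀ ^ (Fintype.card (ClassGroup (𝓞 K)) - 1), Sm_pow hI₀ _, ?_⟩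
    intro I hI hIC
    have hp : (I * I₀ ^ (Fintype.card (ClassGroup (𝓞 K)) - 1)).IsPrincipal := by
      have hm : I * I₀ ^ (Fintype.card (ClassGroup (𝓞 K)) - 1) ∈ nonZeroDivisors (Ideal (𝓞 K)) :=
        mem_nonZeroDivisors_of_ne_zero (mul_ne_zero hI.1 (pow_ne_zero _ hI₀.1))
      have h1 : ClassGroup.mk0 (⟨I * I₀ ^ (Fintype.card (ClassGroup (𝓞 K)) - 1), hm⟩ :
          nonZeroDivisors (Ideal (𝓞 K))) = 1 := by
        have : (⟨I * I₀ ^ (Fintype.card (ClassGroup (𝓞 K)) - 1), hm⟩ :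
            nonZeroDivisors (Ideal (𝓞 K))) = ⟨I, mem_nonZeroDivisors_of_ne_zero hI.1⟩ *
              ⟨I₀, mem_nonZeroDivisors_of_ne_zero hI₀.1⟩ ^
                (Fintype.card (ClassGroup (𝓞 K)) - 1) := by
          ext1
          simp
        rw [this, map_mul, map_pow, hIC, hc, ← pow_succ', Nat.sub_add_cancel Fintype.card_pos,
          pow_card_eq_one]
      exact (ClassGroup.mk0_eq_one_iff hm).1 h1
    obtain ⟨γ, hγ⟩ := hp.principal
    exact ⟨γ, hγ⟩
  · refine ⟨⊤, Sm_top, fun I hI hIC => absurd ⟨I, hI, hIC⟩ hC⟩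

private theorem finite_quot (h : Quad K q δ) (N : ℕ) (h0 : N ≠ 0) :
    Finite (RC K N).Quotient := by
  classical
  have hNK : (N : 𝓞 K) ≠ 0 := by exact_mod_cast h0
  have hfin : Finite (𝓞 K ⧸ Ideal.span {(N : 𝓞 K)}) := by
    refine Ideal.finiteQuotientOfFreeOfNeBot _ ?_
    rw [Ne, Ideal.span_singleton_eq_bot]
    exact hNK
  choose J hJ hg using exists_J (K := K) N
  choose γ hγ using hg
  let f : Sub K N → ClassGroup (𝓞 K) × (𝓞 K ⧸ Ideal.span {(N : 𝓞 K)}) := fun I =>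
    (ClassGroup.mk0 ⟨I.1, mem_nonZeroDivisors_of_ne_zero I.2.1⟩,
      Ideal.Quotient.mk _ (γ (ClassGroup.mk0 ⟨I.1, mem_nonZeroDivisors_of_ne_zero I.2.1⟩) I.1 I.2 rfl))
  have hf : ∀ I I' : Sub K N, f I = f I' → Rel N I.1 I'.1 := by
    intro I I' hII
    have h1 : ClassGroup.mk0 ⟨I.1, mem_nonZeroDivisors_of_ne_zero I.2.1⟩ =
        ClassGroup.mk0 ⟨I'.1, mem_nonZeroDivisors_of_ne_zero I'.2.1⟩ := (Prod.mk.inj hII).1
    have h2 := (Prod.mk.inj hII).2
    rw [Ideal.Quotient.eq, Ideal.mem_span_singleton] at h2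
    have e1 := hγ _ I.1 I.2 rfl
    have e2 := hγ _ I'.1 I'.2 rfl
    have hJJ := congrArg J h1
    have e3 := (congrArg (fun X => I'.1 * X) hJJ).trans e2
    refine rel_of_gen h I.2 (hJ _) e1 e3 ?_
    rw [← dvd_neg, neg_sub]
    exact h2
  have hinj : Function.Injective (fun x : (RC K N).Quotient => f (Quotient.out x)) := by
    intro x y hxy
    have := hf _ _ hxy
    rw [← Quotient.out_eq x, ← Quotient.out_eq y]
    exact Quotient.sound this
  exact Finite.of_injective _ hinj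

private theorem exists_inv (h : Quad K q δ) (N : ℕ) (h0 : N ≠ 0) (x : (RC K N).Quotient) :
    ∃ y : (RC K N).Quotient, y * x = 1 := by
  have := finite_quot h N h0
  have hc : ∀ x y z : (RC K N).Quotient, x * y = x * z → y = z := by
    intro x y z
    induction x using Con.induction_on with | _ x => ?_
    induction y using Con.induction_on with | _ y => ?_
    induction z using Con.induction_on with | _ z => ?_
    intro hxyz
    rw [← Con.coe_mul, ← Con.coe_mul] at hxyz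
    have := (Con.eq _).1 hxyz
    exact (Con.eq _).2 (Rel_cancel x.2.1 this)
  have hinj : Function.Injective (fun y : (RC K N).Quotient => x * y) := fun y z hyz => hc x y z hyz
  obtain ⟨y, hy⟩ := (Finite.injective_iff_surjective.1 hinj) 1
  exact ⟨y, by rw [mul_comm]; exact hy⟩

theorem exists_cls (h : Quad K q δ) (N : ℕ) (hN : 4 ∣ N) (h0 : N ≠ 0) :
    ∃ (G : Type) (i1 : CommGroup G) (_ : Fintype G) (cl : Ideal (𝓞 K) → G), @Cls K _ _ N G i1 cl := by
  classical
  have := finite_quot h N h0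
  choose iv hiv using exists_inv h N h0
  let i1 : CommGroup (RC K N).Quotient :=
    { (inferInstance : CommMonoid (RC K N).Quotient) with
      inv := iv
      inv_mul_cancel := hiv }
  refine ⟨(RC K N).Quotient, i1, Fintype.ofFinite _,
    fun I => if hI : Sm N I then ((⟨I, hI⟩ : Sub K N) : (RC K N).Quotient) else 1, ?_, ?_, ?_⟩
  · intro I J hI hJ
    have hIJ : Sm N (I * J) := Sm_mul.2 ⟨hI, hJ⟩
    simp only [dif_pos hI, dif_pos hJ, dif_pos hIJ]
    exact Con.coe_mul (⟨I, hI⟩ : Sub K N) ⟨J, hJ⟩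
  · intro I J hI hJ
    simp only [dif_pos hI, dif_pos hJ]
    exact Con.eq _
  · intro g
    obtain ⟨x, rfl⟩ := Quotient.exists_rep g
    exact ⟨x.1, x.2, dif_pos x.2⟩

end Pool.Agent.Work.MP_a5099b_nt.PrG
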