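import Pool.Agent.Work.MP_a5099b_nt.I1.DPr
import Pool.Agent.Work.MP_a5099b_nt.I.BLam

set_option autoImplicit false

/-!
# DSpl (size M, uses the statements of DPr and I/BLam): the von Mangoldt function of `K` on norms

PROOF (variant of `I/DSpl.lean`, proved; there the primes `2`, `q` are excluded, here only `2`). Only the ideals `I = P ^ k` (`P` prime, `k ≥ 1`) contribute, `absNorm I = (absNorm P) ^ k`, `LamK I = log (absNorm P)`
(`PrF.LamK_pow`). If `n` is not a prime power then no such ideal has norm `n` and `Λ(n) = 0`. Let `n = p ^ m`, `m ≥ 1`, `p ≠ 2`. If `p = q`: the only ideal is `(δ) ^ m` (`ram`), sum `log q = Λ(n)`, `legendreSym q n = 0`. Otherwise with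
`e = χ₄(p) legendreSym q p = ± 1`: `χ₄(p^m) legendreSym q (p^m) = e^m`. Split (`e = 1`): `P₁ ^ m ≠ P₂ ^ m`, sum `2 log p`. Inert (`e = -1`): `P = (p)`, norm `p²`, `2 k = m`: for `m` odd no ideal, for `m` even one ideal with
`LamK = log p² = 2 log p`.
-/

namespace Pool.Agent.Work.MP_a5099b_nt.PrG

open Finset NumberField
open Pool.Agent.Work.MP_a5099b_nt.PrF (Sm LamK ids mem_ids cK lK Dat tw)

variable {K : Type} [Field K] [NumberField K] {q : ℕ} {δ : 𝓞 K}

private theorem sp_key (h : Quad K q δ) (I : Ideal (𝓞 K)) (hI : LamK I ≠ 0) :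
    ∃ (P : Ideal (𝓞 K)) (k p : ℕ), P.IsPrime ∧ P ≠ ⊥ ∧ 1 ≤ k ∧ I = P ^ k ∧ p.Prime ∧ (p : 𝓞 K) ∈ P ∧
      (Ideal.absNorm P = p ∨ (Ideal.absNorm P = p ^ 2 ∧ P = Ideal.span {(p : 𝓞 K)})) := by
  by_contra hcon
  apply hI
  apply PrF.LamK_eq_zero
  rintro ⟨P, hP, h0, k, hk, rfl⟩
  obtain ⟨p, hp, hmem, hor⟩ := prime_norm h P hP h0
  exact hcon ⟨P, k, p, hP, h0, hk, rfl, hp, hmem, hor⟩

private theorem sp_prime_eq {p p' m k j : ℕ} (hp : p.Prime) (hp' : p'.Prime) (hk : 1 ≤ k) (hj : 1 ≤ j)
    (he : (p' ^ j) ^ k = p ^ m) : p' = p := by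
  have h1 : p' ∣ p ^ m := by
    rw [← he, ← pow_mul]
    exact dvd_pow_self _ (by positivity)
  exact (Nat.prime_dvd_prime_iff_eq hp' hp).1 (hp'.dvd_of_dvd_pow h1)

theorem sum_ids_LamK (h : Quad K q δ) [Fact q.Prime] (n : ℕ) (hn : n ≠ 0) (h2 : ¬ 2 ∣ n) :
    ∑ I ∈ ids K n, LamK I =
      ArithmeticFunction.vonMangoldt n * (1 + ((ZMod.χ₄ (n : ZMod 4) * legendreSym q (n : ℤ) : ℤ) : ℝ)) := by
  by_cases hpp : IsPrimePow n
  swap
  · rw [ArithmeticFunction.vonMangoldt_eq_zero_iff.2 hpp, zero_mul]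
    apply Finset.sum_eq_zero
    intro I hI
    by_contra hne
    obtain ⟨P, k, p, hP, h0, hk, rfl, hp, hmem, hor⟩ := sp_key h I hne
    apply hpp
    rw [mem_ids, map_pow] at hI
    rw [← hI]
    rcases hor with h1 | ⟨h1, -⟩
    · rw [h1]
      exact hp.isPrimePow.pow (by omega)
    · rw [h1]
      exact (hp.isPrimePow.pow (by norm_num)).pow (by omega)
  obtain ⟨p, m, hp, hm, rfl⟩ := (isPrimePow_nat_iff n).1 hpp
  have hp2 : p ≠ 2 := by
    rintro rfl
    exact h2 (dvd_pow_self 2 hm.ne')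
  have hpinj : ∀ a b : ℕ, p ^ a = p ^ b → a = b := fun a b hab => Nat.pow_right_injective hp.two_le hab
  have hL : ArithmeticFunction.vonMangoldt (p ^ m) = Real.log p := by
    rw [ArithmeticFunction.vonMangoldt_apply_pow hm.ne', ArithmeticFunction.vonMangoldt_apply_prime hp]
  have hleg : ((ZMod.χ₄ ((p ^ m : ℕ) : ZMod 4) * legendreSym q ((p ^ m : ℕ) : ℤ) : ℤ) : ℝ) =
      ((ZMod.χ₄ (p : ZMod 4) * legendreSym q p : ℤ) : ℝ) ^ m := by
    rw [← Int.cast_pow, mul_pow]
    unfold legendreSym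
    push_cast
    rw [map_pow, map_pow]
    push_cast
    ring
  by_cases hpq : p = q
  · have hz0 : legendreSym q ((p ^ m : ℕ) : ℤ) = 0 := by
      rw [legendreSym.eq_zero_iff]
      rw [hpq]
      push_cast
      simp [hm.ne']
    rw [hL, hz0, mul_zero, Int.cast_zero, add_zero, mul_one]
    obtain ⟨hpr, hnorm, hall⟩ := ram h
    have hb : Ideal.span {δ} ≠ ⊥ := by
      intro h3
      rw [h3, Ideal.absNorm_bot] at hnorm
      exact h.prime.ne_zero hnorm.symm
    rw [Finset.sum_eq_single (Ideal.span {δ} ^ m)]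
    · rw [PrF.LamK_pow _ hpr hb m hm, hnorm, hpq]
    · intro I hI hIne
      by_contra hne2
      obtain ⟨P, k, p', hP, h0, hk, rfl, hp', hmem, hor⟩ := sp_key h I hne2
      rw [mem_ids, map_pow] at hI
      have hpp' : p' = p := by
        rcases hor with h1 | ⟨h1, -⟩
        · rw [h1] at hI
          exact sp_prime_eq (j := 1) hp hp' hk le_rfl (by rw [pow_one]; exact hI)
        · rw [h1] at hI
          exact sp_prime_eq (j := 2) hp hp' hk (by norm_num) hI
      subst hpp'
      have h3 := hall P hP (by rw [← hpq]; exact hmem)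
      subst h3
      apply hIne
      rw [hnorm, ← hpq] at hI
      rw [hpinj _ _ hI]
    · intro hnot
      exfalso
      apply hnot
      rw [mem_ids, map_pow, hnorm, hpq]
  have hpz : ((p : ℤ) : ZMod q) ≠ 0 := by
    rw [Int.cast_natCast, Ne, ZMod.natCast_eq_zero_iff]
    intro h3
    exact hpq ((Nat.prime_dvd_prime_iff_eq h.prime hp).1 h3).symm
  have hodd : p % 2 = 1 := hp.eq_two_or_odd.resolve_left hp2
  have hchi : ZMod.χ₄ (p : ZMod 4) = 1 ∨ ZMod.χ₄ (p : ZMod 4) = -1 := by
    rcases (by omega : p % 4 = 1 ∨ p % 4 = 3) with h4 | h4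
    · left
      exact ZMod.χ₄_nat_one_mod_four h4
    · right
      exact ZMod.χ₄_nat_three_mod_four h4
  have hcase : ZMod.χ₄ (p : ZMod 4) * legendreSym q p = 1 ∨
      ZMod.χ₄ (p : ZMod 4) * legendreSym q p = -1 := by
    rcases legendreSym.eq_one_or_neg_one q hpz with h3 | h3 <;> rcases hchi with h4 | h4 <;>
      rw [h3, h4] <;> simp
  rw [hL, hleg]
  rcases hcase with hl | hl
  · obtain ⟨P₁, P₂, hne, hP1, hP2, n1, n2, hall⟩ := split h p hp hp2 hpq hl
    have hb1 : P₁ ≠ ⊥ := by
      rintro rfl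
      rw [Ideal.absNorm_bot] at n1
      exact hp.ne_zero n1.symm
    have hb2 : P₂ ≠ ⊥ := by
      rintro rfl
      rw [Ideal.absNorm_bot] at n2
      exact hp.ne_zero n2.symm
    have hne' : P₁ ^ m ≠ P₂ ^ m := by
      intro he
      apply hne
      have h3 : P₁ ≤ P₂ := by
        have h4 : P₁ ^ m ≤ P₂ := by
          rw [he]
          exact Ideal.pow_le_self hm.ne'
        exact Ideal.IsPrime.le_of_pow_le h4
      have h5 : P₂ ≤ P₁ := by
        have h4 : P₂ ^ m ≤ P₁ := by
          rw [← he]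
          exact Ideal.pow_le_self hm.ne'
        exact Ideal.IsPrime.le_of_pow_le h4
      exact le_antisymm h3 h5
    classical
    have hsum : ∑ I ∈ ids K (p ^ m), LamK I = ∑ I ∈ ({P₁ ^ m, P₂ ^ m} : Finset (Ideal (𝓞 K))), LamK I := by
      symm
      apply Finset.sum_subset
      · intro I hI
        rw [Finset.mem_insert, Finset.mem_singleton] at hI
        rcases hI with rfl | rfl
        · rw [mem_ids, map_pow, n1]
        · rw [mem_ids, map_pow, n2]
      · intro I hI hI'
        by_contra hne2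
        obtain ⟨P, k, p', hP, h0, hk, rfl, hp', hmem, hor⟩ := sp_key h I hne2
        rw [mem_ids, map_pow] at hI
        have hpp' : p' = p := by
          rcases hor with h1 | ⟨h1, -⟩
          · rw [h1] at hI
            exact sp_prime_eq (j := 1) hp hp' hk le_rfl (by rw [pow_one]; exact hI)
          · rw [h1] at hI
            exact sp_prime_eq (j := 2) hp hp' hk (by norm_num) hI
        subst hpp'
        apply hI'
        rw [Finset.mem_insert, Finset.mem_singleton]
        rcases hall P hP hmem with rfl | rfl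
        · rw [n1] at hI
          left
          rw [hpinj _ _ hI]
        · rw [n2] at hI
          right
          rw [hpinj _ _ hI]
    rw [hsum, Finset.sum_pair hne', PrF.LamK_pow P₁ hP1 hb1 m hm, PrF.LamK_pow P₂ hP2 hb2 m hm, n1, n2, hl]
    push_cast
    rw [one_pow]
    ring
  · obtain ⟨hpr, hnorm, hall⟩ := inert h p hp hp2 hpq hl
    have hb : Ideal.span {(p : 𝓞 K)} ≠ ⊥ := by
      intro h3
      rw [h3, Ideal.absNorm_bot] at hnorm
      exact (pow_pos hp.pos 2).ne hnorm
    have hkey : ∀ I ∈ ids K (p ^ m), LamK I ≠ 0 → ∃ k : ℕ, m = 2 * k ∧ I = Ideal.span {(p : 𝓞 K)} ^ k := by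
      intro I hI hne2
      obtain ⟨P, k, p', hP, h0, hk, rfl, hp', hmem, hor⟩ := sp_key h I hne2
      rw [mem_ids, map_pow] at hI
      have hpp' : p' = p := by
        rcases hor with h1 | ⟨h1, -⟩
        · rw [h1] at hI
          exact sp_prime_eq (j := 1) hp hp' hk le_rfl (by rw [pow_one]; exact hI)
        · rw [h1] at hI
          exact sp_prime_eq (j := 2) hp hp' hk (by norm_num) hI
      subst hpp'
      have h3 := hall P hP hmem
      subst h3
      rw [hnorm, ← pow_mul] at hI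
      exact ⟨k, (hpinj _ _ hI).symm, rfl⟩
    rw [hl]
    rcases Nat.even_or_odd' m with ⟨k, hk | hk⟩
    · have hk1 : 1 ≤ k := by omega
      rw [Finset.sum_eq_single (Ideal.span {(p : 𝓞 K)} ^ k)]
      · rw [PrF.LamK_pow _ hpr hb k hk1, hnorm, hk]
        push_cast
        rw [pow_mul, neg_one_sq, one_pow, Real.log_pow]
        push_cast
        ring
      · intro I hI hIne
        by_contra hne2
        obtain ⟨k', hk', rfl⟩ := hkey I hI hne2
        apply hIne
        have : k' = k := by omega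
        rw [this]
      · intro hnot
        exfalso
        apply hnot
        rw [mem_ids, map_pow, hnorm, ← pow_mul, hk]
    · have hz : ∑ I ∈ ids K (p ^ m), LamK I = 0 := by
        apply Finset.sum_eq_zero
        intro I hI
        by_contra hne2
        obtain ⟨k', hk', -⟩ := hkey I hI hne2
        omega
      rw [hz, hk]
      push_cast
      rw [pow_succ, pow_mul, neg_one_sq, one_pow]
      ring

end Pool.Agent.Work.MP_a5099b_nt.PrG
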