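import Pool.Agent.Work.MP_a5099b_nt.I1.DReal
import Pool.Agent.Work.MP_a5099b_nt.I1.DSpl
import Pool.Agent.Work.MP_a5099b_nt.I.AExp
import Pool.Agent.Work.MP_a5099b_nt.I.ATw

set_option autoImplicit false

/-!
# DDir (size M-L, uses the statements of DReal, DSpl, I/AExp, I/ATw): nonvanishing for the real characters

PROOF (variant of `I/DDir.lean`, proved). `N = 8 m`. Let `ψ` be the Dirichlet character modulo `N` of `real_char` for `χ`, and `η` the Dirichlet character modulo `4 q` with `η(n) = χ₄(n) * legendreSym q n` (product of the level changes of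
`χ₄` and of `quadraticChar (ZMod q)`); put `M = 4 q N` (or `lcm`) and change `ψ`, `η` to level `M`. CAUTION: `ψ(n) η(n)` for the character of level `M` is `ψ(n) η(n)` for ALL `n` (both sides are `0` if `n` is not prime to `M`: `η(n) = 0` iff `n` is
not prime to `4 q`). For all `n`: `tw (cK N cl) χ n = ∑_{I ∈ ids n, Sm N I} ψ(n)`, `tw (lK N cl) χ n = ψ(n) ∑_{I ∈ ids n, Sm N I} LamK I = ψ(n) Λ(n) (1 + η(n))` (`sum_ids_LamK` if `n` is prime to `N`, `n ≠ 0`; otherwise no
ideal of norm `n` satisfies `Sm N`, and `ψ(n) = 0` or `Λ(0) = 0`). By `lseries_exp` for `s > 1`: `LSeries (tw (cK N cl) χ) s = exp (∑ ψ Λ / log + ∑ ψ η Λ / log) = LSeries ψ s * LSeries (ψ η) s`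
(`= LFunction ψ s * LFunction (ψ η) s`). `ψ ≠ 1`: otherwise `χ (cl I) = 1` for all `I` with `Sm N I`, and `cl` is surjective (`hc.surj`), so `χ = 1`. `ψ η ≠ 1`: choose `n ≡ 1 mod N` (so `n ≡ 1 mod 4`) which is a nonresidue modulo `q`
(`q` is prime to `N = 8 m`): `ψ(n) η(n) = -1`. So both `LFunction`s are continuous at `1` with nonzero values there (`DirichletCharacter.LFunction_apply_one_ne_zero`); the product is bounded away from `0` near `1`.
-/

namespace Pool.Agent.Work.MP_a5099b_nt.PrG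

open Finset NumberField
open Pool.Agent.Work.MP_a5099b_nt.PrF (Sm LamK ids mem_ids cK lK Dat tw)

variable {K : Type} [Field K] [NumberField K] {q : ℕ} {δ : 𝓞 K} {N : ℕ} {G : Type} [CommGroup G] [Fintype G]
  {cl : Ideal (𝓞 K) → G} {κ C : ℝ}

private theorem div_log_summable (g : ℕ → ℂ) (s : ℂ) (hg : LSeriesSummable g s) :
    LSeriesSummable (fun n => g n / (Real.log n : ℂ)) s := by
  have hl2 : 0 < Real.log 2 := Real.log_pos (by norm_num)
  refine Summable.of_norm_bounded (g := fun n => ‖LSeries.term g s n‖ / Real.log 2)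
    (hg.norm.div_const _) fun n => ?_
  rcases Nat.eq_zero_or_pos n with rfl | hn
  · rw [LSeries.term_zero, LSeries.term_zero]
    simp
  · rw [LSeries.term_of_ne_zero hn.ne', LSeries.term_of_ne_zero hn.ne']
    rcases Nat.lt_or_ge n 2 with h2 | h2
    · have h1 : n = 1 := by omega
      subst h1
      simp only [Nat.cast_one, Real.log_one, Complex.ofReal_zero, div_zero, zero_div, norm_zero]
      positivity
    · have hlog : Real.log 2 ≤ Real.log n := Real.log_le_log (by norm_num) (by exact_mod_cast h2)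
      have hlp : 0 < Real.log n := lt_of_lt_of_le hl2 hlog
      rw [div_right_comm, norm_div _ (Real.log n : ℂ), Complex.norm_real, Real.norm_of_nonneg hlp.le]
      exact div_le_div_of_nonneg_left (_root_.norm_nonneg _) hl2 hlog

/-- the identity `L(ψ) = exp (∑ ψ Λ / log)` for a Dirichlet character -/
private theorem dir_exp {N : ℕ} (ψ : DirichletCharacter ℂ N) (s : ℝ) (hs : 1 < s) :
    LSeries (fun n : ℕ => ψ (n : ZMod N)) s =
      Complex.exp (LSeries (fun n : ℕ => ψ (n : ZMod N) * (ArithmeticFunction.vonMangoldt n : ℂ) /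
        (Real.log n : ℂ)) s) := by
  refine PrF.lseries_exp (fun n : ℕ => ψ (n : ZMod N))
    (fun n : ℕ => ψ (n : ZMod N) * (ArithmeticFunction.vonMangoldt n : ℂ)) ?_ ?_ ?_ ?_ s hs
  · simp
  · intro t ht
    exact DirichletCharacter.LSeriesSummable_of_one_lt_re ψ (by simpa using ht)
  · intro t ht
    exact DirichletCharacter.LSeriesSummable_twist_vonMangoldt ψ (s := (t : ℂ)) (by simpa using ht)
  · intro n _
    have h1 : ∀ p ∈ n.divisorsAntidiagonal, ψ (p.1 : ZMod N) * (ArithmeticFunction.vonMangoldt p.1 : ℂ) *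
        ψ (p.2 : ZMod N) = ψ (n : ZMod N) * (ArithmeticFunction.vonMangoldt p.1 : ℂ) := by
      intro p hp
      have hp1 : p.1 * p.2 = n := (Nat.mem_divisorsAntidiagonal.1 hp).1
      rw [← hp1, Nat.cast_mul, map_mul]
      ring
    rw [Finset.sum_congr rfl h1, ← Finset.mul_sum,
      Nat.sum_divisorsAntidiagonal (fun i _ => (ArithmeticFunction.vonMangoldt i : ℂ)),
      ← Complex.ofReal_sum, ArithmeticFunction.vonMangoldt_sum]

private theorem dir_summable {N : ℕ} (ψ : DirichletCharacter ℂ N) (s : ℝ) (hs : 1 < s) :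
    LSeriesSummable (fun n : ℕ => ψ (n : ZMod N) * (ArithmeticFunction.vonMangoldt n : ℂ) /
      (Real.log n : ℂ)) s := by
  exact div_log_summable (fun n : ℕ => ψ (n : ZMod N) * (ArithmeticFunction.vonMangoldt n : ℂ)) s
    (DirichletCharacter.LSeriesSummable_twist_vonMangoldt ψ (s := (s : ℂ)) (by simpa using hs))

/-- the second character `ψ χ₄ (·/q)` -/
private theorem exists_rho (q m : ℕ) [Fact q.Prime] (hqm : q.Coprime (8 * m)) (hq2 : q ≠ 2)
    (ψ : DirichletCharacter ℂ (8 * m)) :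
    ∃ ρ : DirichletCharacter ℂ (q * (8 * m)), ρ ≠ 1 ∧ ∀ n : ℕ, ρ (n : ZMod (q * (8 * m))) =
      ψ (n : ZMod (8 * m)) * ((ZMod.χ₄ (n : ZMod 4) * legendreSym q (n : ℤ) : ℤ) : ℂ) := by
  have hd4 : 4 ∣ q * (8 * m) := ⟨q * (2 * m), by ring⟩
  have hdq : q ∣ q * (8 * m) := dvd_mul_right _ _
  have hdN : 8 * m ∣ q * (8 * m) := dvd_mul_left _ _
  have key : ∀ n : ℕ, (DirichletCharacter.changeLevel hdN ψ *
      (DirichletCharacter.changeLevel hd4 (ZMod.χ₄.ringHomComp (Int.castRingHom ℂ)) *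
        DirichletCharacter.changeLevel hdq ((quadraticChar (ZMod q)).ringHomComp (Int.castRingHom ℂ))))
      (n : ZMod (q * (8 * m))) =
      ψ (n : ZMod (8 * m)) * ((ZMod.χ₄ (n : ZMod 4) * legendreSym q (n : ℤ) : ℤ) : ℂ) := by
    intro n
    by_cases hn : n.Coprime (q * (8 * m))
    · have h1 : ((n : ℕ) : ZMod (q * (8 * m))) =
          ((ZMod.unitOfCoprime n hn : (ZMod (q * (8 * m)))ˣ) : ZMod (q * (8 * m))) := by
        rw [ZMod.coe_unitOfCoprime]
      rw [MulChar.mul_apply, MulChar.mul_apply, h1, DirichletCharacter.changeLevel_eq_cast_of_dvd,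
        DirichletCharacter.changeLevel_eq_cast_of_dvd, DirichletCharacter.changeLevel_eq_cast_of_dvd, ← h1]
      have h2 : (ZMod.cast ((n : ℕ) : ZMod (q * (8 * m))) : ZMod q) = (n : ZMod q) := by
        rw [ZMod.cast_natCast hdq]
      have h3 : (ZMod.cast ((n : ℕ) : ZMod (q * (8 * m))) : ZMod 4) = (n : ZMod 4) := by
        rw [ZMod.cast_natCast hd4]
      have h4 : (ZMod.cast ((n : ℕ) : ZMod (q * (8 * m))) : ZMod (8 * m)) = (n : ZMod (8 * m)) := by
        rw [ZMod.cast_natCast hdN]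
      rw [h2, h3, h4, legendreSym]
      simp
    · rw [MulChar.map_nonunit _ (by rwa [ZMod.isUnit_iff_coprime])]
      rw [Nat.coprime_mul_iff_right, not_and_or] at hn
      rcases hn with hn | hn
      · have h5 : q ∣ n := by
          by_contra h6
          exact hn ((Nat.Prime.coprime_iff_not_dvd (Fact.out : q.Prime)).2 h6).symm
        have h6 : legendreSym q (n : ℤ) = 0 := by
          rw [legendreSym.eq_zero_iff]
          rw [Int.cast_natCast]
          exact (ZMod.natCast_eq_zero_iff n q).2 h5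
        rw [h6]
        simp
      · rw [MulChar.map_nonunit ψ (by rwa [ZMod.isUnit_iff_coprime])]
        simp
  refine ⟨_, ?_, key⟩
  intro h1
  obtain ⟨a, ha⟩ := FiniteField.exists_nonsquare (F := ZMod q) (by rw [ZMod.ringChar_zmod_n]; exact hq2)
  obtain ⟨k, rfl⟩ := ZMod.natCast_zmod_surjective a
  obtain ⟨n, hn1, hn2⟩ := Nat.chineseRemainder hqm k 1
  have h2 := key n
  rw [h1] at h2
  have h3 : (n : ZMod (8 * m)) = 1 := by
    have := (ZMod.natCast_eq_natCast_iff n 1 (8 * m)).2 hn2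
    simpa using this
  have h4 : (n : ZMod 4) = 1 := by
    have h5 : n ≡ 1 [MOD 4] := hn2.of_dvd ⟨2 * m, by ring⟩
    have := (ZMod.natCast_eq_natCast_iff n 1 4).2 h5
    simpa using this
  have h5 : legendreSym q (n : ℤ) = -1 := by
    rw [legendreSym.eq_neg_one_iff, Int.cast_natCast, (ZMod.natCast_eq_natCast_iff n k q).2 hn1]
    exact ha
  rw [h3, h4, h5] at h2
  by_cases hu : IsUnit (n : ZMod (q * (8 * m)))
  · rw [MulChar.one_apply hu] at h2
    norm_num at h2
  · rw [MulChar.map_nonunit _ hu] at h2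
    norm_num at h2

/-- twisted von Mangoldt sums -/
private theorem tw_lK (h : Quad K q δ) [Fact q.Prime] (hN : 2 ∣ N) {M : ℕ}
    (χ : G →* ℂˣ) (ψ : DirichletCharacter ℂ N) (ρ : DirichletCharacter ℂ M)
    (hψ : ∀ I : Ideal (𝓞 K), Sm N I → ((χ (cl I) : ℂˣ) : ℂ) = ψ ((Ideal.absNorm I : ℕ) : ZMod N))
    (hρ : ∀ n : ℕ, ρ (n : ZMod M) =
      ψ (n : ZMod N) * ((ZMod.χ₄ (n : ZMod 4) * legendreSym q (n : ℤ) : ℤ) : ℂ)) (n : ℕ) :
    tw (lK N cl) χ n = ψ (n : ZMod N) * (ArithmeticFunction.vonMangoldt n : ℂ) +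
      ρ (n : ZMod M) * (ArithmeticFunction.vonMangoldt n : ℂ) := by
  classical
  have h1 : tw (lK N cl) χ n = ∑ I ∈ (ids K n).filter (fun I => Sm N I), (LamK I : ℂ) * ψ (n : ZMod N) := by
    have h2 : ∀ g : G, ((lK N cl n g : ℝ) : ℂ) * ((χ g : ℂˣ) : ℂ) =
        ∑ I ∈ ((ids K n).filter (fun I => Sm N I)).filter (fun I => cl I = g),
          (LamK I : ℂ) * ψ (n : ZMod N) := by
      intro g
      rw [lK, Complex.ofReal_sum, Finset.sum_mul, Finset.filter_filter]
      refine Finset.sum_congr rfl fun I hI => ?_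
      obtain ⟨hI1, hI2, hI3⟩ := Finset.mem_filter.1 hI
      rw [← hI3, hψ I hI2, (mem_ids n I).1 hI1]
    rw [tw, Finset.sum_congr rfl fun g _ => h2 g]
    exact Finset.sum_fiberwise _ _ _
  rw [h1]
  by_cases hn0 : n = 0
  · subst hn0
    rw [Finset.filter_eq_empty_iff.2]
    · simp
    · intro I hI hS
      have := (PrF.Sm_iff.1 hS).1
      rw [(mem_ids 0 I).1 hI] at this
      exact lt_irrefl _ this
  by_cases hc : n.Coprime N
  · have h3 : (ids K n).filter (fun I => Sm N I) = ids K n := by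
      refine Finset.filter_true_of_mem fun I hI => ?_
      rw [PrF.Sm_iff, (mem_ids n I).1 hI]
      exact ⟨Nat.pos_of_ne_zero hn0, hc⟩
    have h4 : ¬ 2 ∣ n := fun h2 => by
      have := Nat.dvd_gcd h2 hN
      rw [Nat.Coprime] at hc
      rw [hc] at this
      omega
    rw [h3, ← Finset.sum_mul, ← Complex.ofReal_sum, sum_ids_LamK h n hn0 h4, hρ n]
    push_cast
    ring
  · have h3 : (ids K n).filter (fun I => Sm N I) = ∅ := by
      refine Finset.filter_eq_empty_iff.2 fun I hI hS => hc ?_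
      have := hS.2
      rwa [(mem_ids n I).1 hI] at this
    have h4 : ψ (n : ZMod N) = 0 := by
      apply MulChar.map_nonunit
      rwa [ZMod.isUnit_iff_coprime]
    rw [h3, hρ n, h4]
    simp

/-- factorisation into two Dirichlet L-series -/
private theorem factor (h : Quad K q δ) [Fact q.Prime] (hN : 2 ∣ N) {M : ℕ}
    (hd : Dat (cK N cl) (lK N cl) κ C) (χ : G →* ℂˣ) (ψ : DirichletCharacter ℂ N) (ρ : DirichletCharacter ℂ M)
    (hψ : ∀ I : Ideal (𝓞 K), Sm N I → ((χ (cl I) : ℂˣ) : ℂ) = ψ ((Ideal.absNorm I : ℕ) : ZMod N))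
    (hρ : ∀ n : ℕ, ρ (n : ZMod M) =
      ψ (n : ZMod N) * ((ZMod.χ₄ (n : ZMod 4) * legendreSym q (n : ℤ) : ℤ) : ℂ)) (s : ℝ) (hs : 1 < s) :
    LSeries (tw (cK N cl) χ) s = LSeries (fun n : ℕ => ψ (n : ZMod N)) s *
      LSeries (fun n : ℕ => ρ (n : ZMod M)) s := by
  rw [PrF.lseries_exp (tw (cK N cl) χ) (tw (lK N cl) χ) (PrF.tw_one hd χ) (PrF.tw_c_summable hd χ)
    (PrF.tw_lam_summable hd χ) (PrF.tw_conv hd χ) s hs, dir_exp ψ s hs, dir_exp ρ s hs, ← Complex.exp_add,
    ← LSeries_add (dir_summable ψ s hs) (dir_summable ρ s hs)]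
  congr 2
  funext n
  rw [tw_lK h hN χ ψ ρ hψ hρ n, add_div]
  rfl

theorem real_nonvanish (h : Quad K q δ) {m : ℕ} (hm : Odd m) (hs : Squarefree m) (hqm : ¬ q ∣ m)
    (hc : Cls (8 * m) G cl) (hd : Dat (cK (8 * m) cl) (lK (8 * m) cl) κ C) (χ : G →* ℂˣ) (h1 : χ ≠ 1)
    (h2 : χ ^ 2 = 1) :
    ∃ ε : ℝ, 0 < ε ∧ ∃ s₀ : ℝ, 1 < s₀ ∧ ∀ s : ℝ, 1 < s → s < s₀ → ε ≤ ‖LSeries (tw (cK (8 * m) cl) χ) s‖ := by
  have : Fact q.Prime := ⟨h.prime⟩
  have hm0 : m ≠ 0 := by
    rintro rfl
    exact (by decide : ¬ Odd 0) hm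
  have hN : 2 ∣ 8 * m := ⟨4 * m, by ring⟩
  have : NeZero (8 * m) := ⟨by omega⟩
  have hq2 : q ≠ 2 := by
    have := h.five
    omega
  have hqN : q.Coprime (8 * m) := by
    rw [Nat.Prime.coprime_iff_not_dvd h.prime]
    intro hd'
    rcases (Nat.Prime.dvd_mul h.prime).1 hd' with h3 | h3
    · have h4 : q ∣ 2 ^ 3 := by simpa using h3
      exact hq2 ((Nat.prime_dvd_prime_iff_eq h.prime Nat.prime_two).1 (h.prime.dvd_of_dvd_pow h4))
    · exact hqm h3
  obtain ⟨ψ, hψ⟩ := real_char h hm hs hqm hc χ h2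
  obtain ⟨ρ, hρ1, hρ⟩ := exists_rho q m hqN hq2 ψ
  have : NeZero (q * (8 * m)) := ⟨mul_ne_zero h.prime.ne_zero (by omega)⟩
  have hψ1 : ψ ≠ 1 := by
    intro hp
    refine h1 (MonoidHom.ext fun g => ?_)
    obtain ⟨I, hI, hIg⟩ := hc.surj g
    have h3 := hψ I hI
    rw [hIg, hp, MulChar.one_apply ((ZMod.isUnit_iff_coprime _ _).2 hI.2)] at h3
    exact Units.ext (by simpa using h3)
  set F : ℝ → ℝ := fun s => ‖DirichletCharacter.LFunction ψ s * DirichletCharacter.LFunction ρ s‖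
    with hF
  have hcont : Continuous F := by
    have c1 : Continuous (DirichletCharacter.LFunction ψ) :=
      (DirichletCharacter.differentiable_LFunction hψ1).continuous
    have c2 : Continuous (DirichletCharacter.LFunction ρ) :=
      (DirichletCharacter.differentiable_LFunction hρ1).continuous
    exact ((c1.comp Complex.continuous_ofReal).mul (c2.comp Complex.continuous_ofReal)).norm
  have hpos : 0 < F 1 := by
    have e1 : F 1 = ‖DirichletCharacter.LFunction ψ 1 * DirichletCharacter.LFunction ρ 1‖ := by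
      simp only [hF, Complex.ofReal_one]
    rw [e1, norm_pos_iff]
    exact mul_ne_zero (DirichletCharacter.LFunction_apply_one_ne_zero hψ1)
      (DirichletCharacter.LFunction_apply_one_ne_zero hρ1)
  have hev : ∀ᶠ s in nhds (1 : ℝ), F 1 / 2 < F s :=
    hcont.continuousAt.eventually (lt_mem_nhds (by linarith))
  obtain ⟨r, hr, hball⟩ := Metric.eventually_nhds_iff.1 hev
  refine ⟨F 1 / 2, by linarith, 1 + r, by linarith, fun s hs1 hs2 => ?_⟩
  have h3 : F 1 / 2 < F s := hball (by rw [Real.dist_eq, abs_lt]; constructor <;> linarith)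
  have h4 : ‖LSeries (tw (cK (8 * m) cl) χ) s‖ = F s := by
    have hre : 1 < (s : ℂ).re := by simpa using hs1
    rw [factor h hN hd χ ψ ρ hψ hρ s hs1, hF]
    simp only
    rw [DirichletCharacter.LFunction_eq_LSeries ψ hre, DirichletCharacter.LFunction_eq_LSeries ρ hre]
  rw [h4]
  exact h3.le

end Pool.Agent.Work.MP_a5099b_nt.PrG
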