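import Pool.Agent.Work.MP_a5099b_nt.I1.DPr

set_option autoImplicit false

/-!
# DThree (size S-M, uses the statement of DPr): an ideal of norm `3 mod 4`

PROOF. There is an integer `a`, `a ≡ 3 mod 4`, `legendreSym q a = -1` (Chinese remainder theorem; a nonresidue modulo `q` exists). By Dirichlet's theorem (`Nat.forall_exists_prime_gt_and_eq_mod` for the modulus `4 q`) there is a prime `p > N + q`
with `p ≡ a mod 4 q`. Then `χ₄(p) * legendreSym q p = (-1)(-1) = 1` and `split` gives `P` with `absNorm P = p`, prime to `N` as `p > N`, `N ≠ 0`.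
-/

namespace Pool.Agent.Work.MP_a5099b_nt.PrG

open Finset NumberField
open Pool.Agent.Work.MP_a5099b_nt.PrF (Sm LamK ids mem_ids cK lK Dat tw)

variable {K : Type} [Field K] [NumberField K] {q : ℕ} {δ : 𝓞 K}

theorem exists_three (h : Quad K q δ) (N : ℕ) (h0 : N ≠ 0) : ∃ I : Ideal (𝓞 K), Sm N I ∧ Ideal.absNorm I % 4 = 3 := by
  have : Fact q.Prime := ⟨h.prime⟩
  have hq2 : q ≠ 2 := by have := h.mod4; omega
  -- a nonresidue modulo `q`
  obtain ⟨b, hb⟩ : ∃ b : ZMod q, ¬ IsSquare b :=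
    FiniteField.exists_nonsquare (by rw [ZMod.ringChar_zmod_n]; exact hq2)
  obtain ⟨b', hb'⟩ : ∃ b' : ℕ, (b' : ZMod q) = b := ⟨b.val, ZMod.natCast_zmod_val b⟩
  have hcop : Nat.Coprime 4 q := by
    have : Nat.Coprime 2 q := (Nat.coprime_primes Nat.prime_two h.prime).2 hq2.symm
    exact Nat.Coprime.pow_left 2 this
  obtain ⟨a, ha1, ha2⟩ := Nat.chineseRemainder hcop 3 b'
  have hb0 : b ≠ 0 := by
    rintro rfl
    exact hb (IsSquare.zero)
  have hac : Nat.Coprime a (4 * q) := by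
    apply Nat.Coprime.mul_right
    · have h4 : Nat.gcd a 4 = Nat.gcd 3 4 := Nat.ModEq.gcd_eq ha1
      have h5 : Nat.gcd 3 4 = 1 := by norm_num
      exact h4.trans h5
    · rw [Nat.coprime_comm, Nat.Prime.coprime_iff_not_dvd h.prime]
      intro hd
      apply hb0
      rw [← hb', ← (ZMod.natCast_eq_natCast_iff a b' q).2 ha2]
      exact (ZMod.natCast_eq_zero_iff a q).2 hd
  have h4q : 4 * q ≠ 0 := by have := h.prime.pos; omega
  obtain ⟨p, hpN, hp, hpa⟩ := Nat.forall_exists_prime_gt_and_modEq (N + q) h4q hac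
  have hp4 : p % 4 = 3 := by
    have h1 : p ≡ 3 [MOD 4] := (hpa.of_mul_right q).trans ha1
    exact h1
  have hpq' : (p : ZMod q) = b := by
    rw [← hb', ZMod.natCast_eq_natCast_iff]
    exact (hpa.of_mul_left 4).trans ha2
  have hpq : p ≠ q := by omega
  have hp2 : p ≠ 2 := by omega
  have hl1 : legendreSym q p = -1 := by
    rw [legendreSym.eq_neg_one_iff]
    rw [Int.cast_natCast, hpq']
    exact hb
  have hl : ZMod.χ₄ (p : ZMod 4) * legendreSym q p = 1 := by
    rw [hl1, ZMod.χ₄_nat_three_mod_four hp4]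
    norm_num
  obtain ⟨P, P', -, hP, -, hn, -, -⟩ := split h p hp hp2 hpq hl
  refine ⟨P, ⟨?_, ?_⟩, ?_⟩
  · rintro rfl
    rw [Ideal.absNorm_bot] at hn
    exact hp.ne_zero hn.symm
  · rw [hn, Nat.Prime.coprime_iff_not_dvd hp]
    intro hd
    have := Nat.le_of_dvd (Nat.pos_of_ne_zero h0) hd
    omega
  · rw [hn]
    exact hp4

end Pool.Agent.Work.MP_a5099b_nt.PrG
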