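import Mathlib

set_option autoImplicit false

/-!
# GTwo (size S-M, Mathlib only): real characters of a group with at most one class of order two

PROOF. `Q = G ⧸ P` is a finite commutative group, and by `hP` any two elements `≠ 1` with square `1` have product `1`, so they are equal (each is its own inverse): at most `2` elements of `Q` have square `1`. The squaring
homomorphism of `Q` has kernel of order `≤ 2`, so its image `S` has at least `card Q / 2` elements (`Subgroup.card_eq_card_quotient_mul_card_subgroup`, `MonoidHom` first isomorphism theorem, or `Subgroup.index_ker`).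
`χ`, `θ` factor through `Q` (`QuotientGroup.lift`), and are `1` on `S` (`χ² = 1`). A nontrivial homomorphism `χ' : Q → ℂˣ` with `χ'² = 1` takes exactly the values `± 1`, its kernel has index `2` and contains `S`, whose
index is `≤ 2`, so the kernel is `S`. The same for `θ'`; a homomorphism to `{1, -1}` is determined by its kernel: `χ' = θ'`, `χ = θ`.
-/

namespace Pool.Agent.Work.MP_a5099b_nt.PrG

open Finset NumberField



theorem real_eq {G : Type} [CommGroup G] [Finite G] (P : Subgroup G)
    (hP : ∀ g₁ g₂ : G, g₁ ^ 2 ∈ P → g₂ ^ 2 ∈ P → g₁ ∉ P → g₂ ∉ P → g₁ * g₂ ∈ P) (χ θ : G →* ℂˣ)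
    (hχ : χ ^ 2 = 1) (hθ : θ ^ 2 = 1) (hχ1 : χ ≠ 1) (hθ1 : θ ≠ 1) (hχP : ∀ g ∈ P, χ g = 1)
    (hθP : ∀ g ∈ P, θ g = 1) : χ = θ := by
  classical
  let sqh : (G ⧸ P) →* (G ⧸ P) := powMonoidHom 2
  have hk : Nat.card sqh.ker ≤ 2 := by
    have h1 : ∃ x0 : G ⧸ P, ∀ x ∈ sqh.ker, x = 1 ∨ x = x0 := by
      by_cases h : ∃ x0 ∈ sqh.ker, x0 ≠ 1
      · obtain ⟨x0, hx0, hne⟩ := h
        refine ⟨x0, fun x hx => ?_⟩
        by_cases hx1 : x = 1
        · exact Or.inl hx1
        · right
          obtain ⟨g, rfl⟩ := QuotientGroup.mk_surjective x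
          obtain ⟨g0, rfl⟩ := QuotientGroup.mk_surjective x0
          have hx' : ((g ^ 2 : G) : G ⧸ P) = 1 := hx
          have hx0' : ((g0 ^ 2 : G) : G ⧸ P) = 1 := hx0
          have h3 := hP g g0 ((QuotientGroup.eq_one_iff _).mp hx')
            ((QuotientGroup.eq_one_iff _).mp hx0')
            (fun h => hx1 ((QuotientGroup.eq_one_iff _).mpr h))
            (fun h => hne ((QuotientGroup.eq_one_iff _).mpr h))
          have h4 : (g : G ⧸ P) * (g0 : G ⧸ P) = 1 := (QuotientGroup.eq_one_iff _).mpr h3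
          have h5 : (g0 : G ⧸ P) * (g0 : G ⧸ P) = 1 := by
            rw [← pow_two]
            exact hx0
          exact mul_right_cancel (h4.trans h5.symm)
      · push Not at h
        exact ⟨1, fun x hx => Or.inl (h x hx)⟩
    obtain ⟨x0, h1⟩ := h1
    have h2 : (sqh.ker : Set (G ⧸ P)) ⊆ {1, x0} := fun x hx => by
      rcases h1 x hx with h | h
      · exact Or.inl h
      · exact Or.inr h
    have h3 : Nat.card sqh.ker = (sqh.ker : Set (G ⧸ P)).ncard := Nat.card_coe_set_eq _
    rw [h3]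
    refine (Set.ncard_le_ncard h2 (Set.toFinite _)).trans ?_
    refine (Set.ncard_insert_le _ _).trans ?_
    rw [Set.ncard_singleton]
  have hi : sqh.range.index ≤ 2 := by
    have e1 : sqh.ker.index = Nat.card sqh.range := Subgroup.index_ker sqh
    have e2 := sqh.ker.card_mul_index
    have e3 := sqh.range.card_mul_index
    have hpos : 0 < Nat.card sqh.range := Nat.card_pos
    have h4 : Nat.card sqh.range * sqh.range.index = Nat.card sqh.range * Nat.card sqh.ker := by
      rw [e3, ← e2, e1, mul_comm]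
    have h5 := Nat.eq_of_mul_eq_mul_left hpos h4
    omega
  have key : ∀ χ : G →* ℂˣ, χ ^ 2 = 1 → χ ≠ 1 → (∀ g ∈ P, χ g = 1) → ∀ g : G,
      χ g = 1 ↔ (g : G ⧸ P) ∈ sqh.range := by
    intro χ h1 h2 h3
    let χ' : (G ⧸ P) →* ℂˣ := QuotientGroup.lift P χ h3
    have hle : sqh.range ≤ χ'.ker := by
      rintro _ ⟨x, rfl⟩
      obtain ⟨g, rfl⟩ := QuotientGroup.mk_surjective x
      change χ (g ^ 2) = 1
      rw [map_pow]
      exact DFunLike.congr_fun h1 g
    have hr := Subgroup.relIndex_mul_index hle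
    have hne : χ'.ker.index ≠ 1 := by
      rw [Ne, Subgroup.index_eq_one]
      intro h
      apply h2
      refine MonoidHom.ext fun g => ?_
      have h4 : (g : G ⧸ P) ∈ χ'.ker := by
        rw [h]
        exact Subgroup.mem_top _
      exact h4
    have hpos : χ'.ker.index ≠ 0 := Subgroup.FiniteIndex.index_ne_zero
    have hpos2 : sqh.range.index ≠ 0 := Subgroup.FiniteIndex.index_ne_zero
    have hrel : sqh.range.relIndex χ'.ker = 1 := by
      have h5 : 2 ≤ χ'.ker.index := by omega
      have hr0 : sqh.range.relIndex χ'.ker ≠ 0 := by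
        intro h
        rw [h, zero_mul] at hr
        exact hpos2 hr.symm
      by_contra h6
      have h7 : 2 ≤ sqh.range.relIndex χ'.ker := by omega
      have h8 := Nat.mul_le_mul h7 h5
      omega
    rw [Subgroup.relIndex_eq_one] at hrel
    intro g
    exact ⟨fun h => hrel (show (g : G ⧸ P) ∈ χ'.ker from h),
      fun h => (show (g : G ⧸ P) ∈ χ'.ker from hle h)⟩
  have hneg : ∀ χ : G →* ℂˣ, χ ^ 2 = 1 → ∀ g, χ g ≠ 1 → ((χ g : ℂˣ) : ℂ) = -1 := by
    intro χ h1 g h2
    have h3 : (χ g) ^ 2 = 1 := DFunLike.congr_fun h1 g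
    have h4 : ((χ g : ℂˣ) : ℂ) * (χ g : ℂˣ) = 1 := by
      rw [← pow_two, ← Units.val_pow_eq_pow_val, h3, Units.val_one]
    rcases mul_self_eq_one_iff.mp h4 with h5 | h5
    · exact absurd (Units.ext h5) h2
    · exact h5
  have k1 := key χ hχ hχ1 hχP
  have k2 := key θ hθ hθ1 hθP
  refine MonoidHom.ext fun g => ?_
  by_cases h : χ g = 1
  · rw [h, (k2 g).mpr ((k1 g).mp h)]
  · have h' : θ g ≠ 1 := fun h' => h ((k1 g).mpr ((k2 g).mp h'))
    exact Units.ext ((hneg χ hχ g h).trans (hneg θ hθ g h').symm)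

end Pool.Agent.Work.MP_a5099b_nt.PrG
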