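import Pool.Agent.Work.MP_a5099b_nt.I1.CCls
import Pool.Agent.Work.MP_a5099b_nt.I1.CNm
import Pool.Agent.Work.MP_a5099b_nt.I1.DTwo
import Pool.Agent.Work.MP_a5099b_nt.I1.DThree
import Pool.Agent.Work.MP_a5099b_nt.I1.GTwo

/-!
# DGen (size M, uses the statements of CCls, CNm, DTwo, DThree, GTwo): real characters trivial on the principal classes

PROOF. `P` = subgroup of the classes `cl (span {γ})`, `Sm N (span {γ})` (closed under products: `hc.mul`, `Ideal.span_singleton_mul_span_singleton`; contains `1 = cl ⊤`; inverses: finite group, or `Submonoid` powers). `θ(g) = χ₄(nm g)`: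
`exists_nm`, `ZMod.castHom (4 ∣ N)` (`ZMod.unitsMap`), `ZMod.χ₄` as a homomorphism `(ZMod 4)ˣ →* ℤˣ →* ℂˣ`; `θ(cl I) = χ₄(absNorm I)`. `θ² = 1`. `θ` is `1` on `P`: `absNorm (span {γ}) = norm γ` (`norm_gen`) is odd (prime to `N`) so
`≡ 1 mod 4` (`norm_mod4`). `θ ≠ 1` (`exists_three`). Condition `hP` of `real_eq`: `g_i = cl I_i` (`hc.surj`), `g_i² = cl (I_i * I_i) ∈ P`: `cls_prin` gives `I_i * I_i = (γ_i)`. `I_i` is not principal, since otherwise `g_i ∈ P`.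
`mul_prin`: `I₁ I₂ = (γ)`, so `g₁ g₂ ∈ P`. `real_eq`: `χ = 1` or `χ = θ`.
-/

set_option autoImplicit false

namespace Pool.Agent.Work.MP_a5099b_nt.PrG

open Finset NumberField
open Pool.Agent.Work.MP_a5099b_nt.PrF (Sm LamK ids mem_ids cK lK Dat tw)

variable {K : Type} [Field K] [NumberField K] {q : ℕ} {δ : 𝓞 K} {N : ℕ} {G : Type} [CommGroup G] [Fintype G]
  {cl : Ideal (𝓞 K) → G}

private theorem gen_Sm_top (N : ℕ) : Sm N (⊤ : Ideal (𝓞 K)) := by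
  refine ⟨?_, ?_⟩
  · exact bot_ne_top.symm
  · rw [Ideal.absNorm_top]
    exact Nat.coprime_one_left N

private theorem gen_Sm_pow {N : ℕ} {I : Ideal (𝓞 K)} (hI : Sm N I) (k : ℕ) : Sm N (I ^ k) := by
  induction k with
  | zero => rw [pow_zero, Ideal.one_eq_top]; exact gen_Sm_top N
  | succ k ih => rw [pow_succ]; exact Pool.Agent.Work.MP_a5099b_nt.PrF.Sm_mul.2 ⟨ih, hI⟩

/-- the classes of the principal ideals -/
private noncomputable def prin (hc : Cls N G cl) : Subgroup G where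
  carrier := {g | ∃ γ : 𝓞 K, Sm N (Ideal.span {γ}) ∧ g = cl (Ideal.span {γ})}
  mul_mem' := by
    rintro a b ⟨γ, h1, rfl⟩ ⟨γ', h2, rfl⟩
    refine ⟨γ * γ', ?_, ?_⟩
    · rw [← Ideal.span_singleton_mul_span_singleton]
      exact Pool.Agent.Work.MP_a5099b_nt.PrF.Sm_mul.2 ⟨h1, h2⟩
    · rw [← Ideal.span_singleton_mul_span_singleton, hc.mul _ _ h1 h2]
  one_mem' := by
    refine ⟨1, ?_, ?_⟩
    · rw [Ideal.span_singleton_one]; exact gen_Sm_top N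
    · rw [Ideal.span_singleton_one, cls_top hc]
  inv_mem' := by
    rintro a ⟨γ, h1, rfl⟩
    refine ⟨γ ^ (Fintype.card G - 1), ?_, ?_⟩
    · rw [← Ideal.span_singleton_pow]
      exact gen_Sm_pow h1 _
    · rw [← Ideal.span_singleton_pow, cls_pow hc _ h1]
      have h2 : cl (Ideal.span {γ}) ^ (Fintype.card G - 1) * cl (Ideal.span {γ}) = 1 := by
        rw [← pow_succ, Nat.sub_add_cancel Fintype.card_pos, pow_card_eq_one]
      exact (eq_inv_of_mul_eq_one_left h2).symm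

theorem genus (h : Quad K q δ) (hN : 4 ∣ N) (h0 : N ≠ 0) (hc : Cls N G cl) (χ : G →* ℂˣ) (hχ : χ ^ 2 = 1)
    (hP : ∀ γ : 𝓞 K, Sm N (Ideal.span {γ}) → χ (cl (Ideal.span {γ})) = 1) :
    χ = 1 ∨ ∀ I : Ideal (𝓞 K), Sm N I →
      ((χ (cl I) : ℂˣ) : ℂ) = ((ZMod.χ₄ ((Ideal.absNorm I : ℕ) : ZMod 4) : ℤ) : ℂ) := by
  classical
  obtain ⟨nm, hnm⟩ := exists_nm h h0 hc
  set θ : G →* ℂˣ := (Units.map (Int.castRingHom ℂ : ℤ →* ℂ)).comp
    (ZMod.χ₄.toUnitHom.comp ((ZMod.unitsMap hN).comp nm)) with hθ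
  have hval : ∀ I : Ideal (𝓞 K), Sm N I →
      ((θ (cl I) : ℂˣ) : ℂ) = ((ZMod.χ₄ ((Ideal.absNorm I : ℕ) : ZMod 4) : ℤ) : ℂ) := by
    intro I hI
    have h1 : ((ZMod.unitsMap hN (nm (cl I)) : (ZMod 4)ˣ) : ZMod 4) = ((Ideal.absNorm I : ℕ) : ZMod 4) := by
      rw [ZMod.unitsMap_def, Units.coe_map]
      have h2 : (ZMod.castHom hN (ZMod 4)) ((nm (cl I) : (ZMod N)ˣ) : ZMod N) =
          ((Ideal.absNorm I : ℕ) : ZMod 4) := by
        rw [hnm I hI, map_natCast]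
      exact h2
    rw [hθ, ← h1]
    simp only [MonoidHom.comp_apply, Units.coe_map, MulChar.coe_toUnitHom]
    rfl
  by_cases hχ1 : χ = 1
  · exact Or.inl hχ1
  right
  have hθ2 : θ ^ 2 = 1 := by
    ext g
    have h1 : (θ ^ 2) g = Units.map (Int.castRingHom ℂ : ℤ →* ℂ)
        ((ZMod.χ₄.toUnitHom ((ZMod.unitsMap hN) (nm g))) ^ 2) := by
      rw [map_pow]
      rfl
    rw [h1, Int.units_sq, map_one]
    rfl
  have hθP : ∀ g ∈ prin hc, θ g = 1 := by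
    rintro g ⟨γ, hγ, rfl⟩
    have h1 := norm_gen h γ
    have hodd : Odd (Algebra.norm ℤ γ) := by
      rw [← h1]
      have h2 : (Ideal.absNorm (Ideal.span {γ})).Coprime 2 :=
        Nat.Coprime.coprime_dvd_right ((show (2 : ℕ) ∣ 4 by norm_num).trans hN) hγ.2
      rw [Nat.coprime_two_right] at h2
      exact_mod_cast h2
    have h3 := norm_mod4 h γ hodd
    rw [← h1] at h3
    have h4 : ((Ideal.absNorm (Ideal.span {γ}) : ℕ) : ZMod 4) = 1 := by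
      have h5 := (ZMod.intCast_eq_intCast_iff _ _ 4).2 h3
      simpa using h5
    apply Units.ext
    rw [hval _ hγ, h4]
    simp
  have hθ1 : θ ≠ 1 := by
    intro h1
    obtain ⟨I, hI, hI3⟩ := exists_three h N h0
    have h2 := hval I hI
    have h4 : ((Ideal.absNorm I : ℕ) : ZMod 4) = 3 := by
      rw [← Nat.mod_add_div (Ideal.absNorm I) 4, hI3]
      push_cast
      have : (4 : ZMod 4) = 0 := by decide
      rw [this]
      ring
    have h5 : ZMod.χ₄ 3 = -1 := by decide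
    rw [h4, h1, h5] at h2
    norm_num at h2
  have hPP : ∀ g₁ g₂ : G, g₁ ^ 2 ∈ prin hc → g₂ ^ 2 ∈ prin hc → g₁ ∉ prin hc → g₂ ∉ prin hc →
      g₁ * g₂ ∈ prin hc := by
    intro g₁ g₂ hg1 hg2 hn1 hn2
    obtain ⟨I₁, hI1, rfl⟩ := hc.surj g₁
    obtain ⟨I₂, hI2, rfl⟩ := hc.surj g₂
    have key : ∀ I : Ideal (𝓞 K), Sm N I → cl I ^ 2 ∈ prin hc → ∃ γ : 𝓞 K, I * I = Ideal.span {γ} := by
      rintro I hI ⟨γ, hγ, he⟩
      rw [pow_two, ← hc.mul _ _ hI hI] at he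
      exact cls_prin h hN hc (I * I) (Pool.Agent.Work.MP_a5099b_nt.PrF.Sm_mul.2 ⟨hI, hI⟩) γ hγ he
    obtain ⟨γ₁, hγ1⟩ := key I₁ hI1 hg1
    obtain ⟨γ₂, hγ2⟩ := key I₂ hI2 hg2
    have hnp : ∀ I : Ideal (𝓞 K), Sm N I → cl I ∉ prin hc → ∀ γ : 𝓞 K, I ≠ Ideal.span {γ} := by
      rintro I hI hn γ rfl
      exact hn ⟨γ, hI, rfl⟩
    obtain ⟨γ, hγ⟩ := mul_prin h I₁ I₂ hI1.1 hI2.1 γ₁ γ₂ hγ1 hγ2 (hnp I₁ hI1 hn1) (hnp I₂ hI2 hn2)
    refine ⟨γ, ?_, ?_⟩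
    · rw [← hγ]
      exact Pool.Agent.Work.MP_a5099b_nt.PrF.Sm_mul.2 ⟨hI1, hI2⟩
    · rw [← hγ, hc.mul _ _ hI1 hI2]
  have hχP : ∀ g ∈ prin hc, χ g = 1 := by
    rintro g ⟨γ, hγ, rfl⟩
    exact hP γ hγ
  have he : χ = θ := real_eq (prin hc) hPP χ θ hχ hθ2 hχ1 hθ1 hχP hθP
  intro I hI
  rw [he]
  exact hval I hI

end Pool.Agent.Work.MP_a5099b_nt.PrG
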