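import Mathlib

set_option autoImplicit false

/-!
# DNorm (size S-M, Mathlib only): norms modulo `8 m`

PROOF (compare `H/Local.lean`, proved, namespace `Pool.Agent.SS.HB`, private lemmas `rp_of`, `rp_mul`). Modulo `8`: `n ≡ 1 mod 4` so `n ≡ 1` (`(1, 0)`) or `n ≡ 5` (`(1, 2)`: `1 + 4 q ≡ 5 mod 8`).
Modulo an odd prime `p ∣ m` (`p ≠ q`): over the field `ZMod p` the equation `a² + q b² = n` has a solution (`FiniteField.exists_root_sum_quadratic` with `X² - n` and `q X²`). Chinese remainder theorem over the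
prime factors of the squarefree number `m`.
-/

namespace Pool.Agent.Work.MP_a5099b_nt.PrG

open Finset NumberField

private def Rp (a b c r : ℤ) (N : ℕ) : Prop :=
  ∃ x y : ℤ, a * x ^ 2 + b * x * y + c * y ^ 2 ≡ r [ZMOD N]

private theorem rp_of {a b c r : ℤ} {N : ℕ} (x y : ZMod N) [NeZero N]
    (h : (a : ZMod N) * x ^ 2 + b * x * y + c * y ^ 2 = r) : Rp a b c r N := by
  refine ⟨x.val, y.val, ?_⟩
  rw [← ZMod.intCast_eq_intCast_iff]
  push_cast
  rw [ZMod.natCast_zmod_val, ZMod.natCast_zmod_val]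
  exact h

private theorem rp_mul {a b c r : ℤ} {M N : ℕ} (hc : Nat.Coprime M N) (h1 : Rp a b c r M)
    (h2 : Rp a b c r N) : Rp a b c r (M * N) := by
  obtain ⟨x1, y1, h1⟩ := h1
  obtain ⟨x2, y2, h2⟩ := h2
  obtain ⟨u, v, huv⟩ := Nat.isCoprime_iff_coprime.mpr hc
  have hM : ∀ s t : ℤ, t * (u * M) + s * (v * N) ≡ s [ZMOD M] := fun s t => by
    rw [Int.modEq_iff_dvd]
    refine ⟨s * u - t * u, ?_⟩
    linear_combination (-s) * huv
  have hN : ∀ s t : ℤ, t * (u * M) + s * (v * N) ≡ t [ZMOD N] := fun s t => by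
    rw [Int.modEq_iff_dvd]
    refine ⟨t * v - s * v, ?_⟩
    linear_combination (-t) * huv
  refine ⟨x2 * (u * M) + x1 * (v * N), y2 * (u * M) + y1 * (v * N), ?_⟩
  have e : ((M * N : ℕ) : ℤ) = (M : ℤ) * N := by push_cast; ring
  rw [e, ← Int.modEq_and_modEq_iff_modEq_mul (by simpa using hc)]
  constructor
  · refine Int.ModEq.trans ?_ h1
    exact (((((hM _ _).pow 2).mul_left a).add (((hM _ _).mul_left b).mul (hM _ _))).add
      (((hM _ _).pow 2).mul_left c))
  · refine Int.ModEq.trans ?_ h2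
    exact (((((hN _ _).pow 2).mul_left a).add (((hN _ _).mul_left b).mul (hN _ _))).add
      (((hN _ _).pow 2).mul_left c))

private theorem rp_sq {p : ℕ} [Fact p.Prime] (hp2 : p ≠ 2) {q a b c r : ZMod p} (hq : q ≠ 0)
    (ha : a ≠ 0) (hd : b ^ 2 - 4 * a * c = -4 * q) :
    ∃ x y : ZMod p, a * x ^ 2 + b * x * y + c * y ^ 2 = r := by
  have h2 : (2 : ZMod p) ≠ 0 := by
    intro h0
    have h1 : ((2 : ℕ) : ZMod p) = 0 := by exact_mod_cast h0
    rw [ZMod.natCast_eq_zero_iff] at h1
    exact hp2 ((Nat.prime_dvd_prime_iff_eq Fact.out Nat.prime_two).mp h1)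
  have h4 : (4 : ZMod p) * q ≠ 0 := by
    have : (4 : ZMod p) = 2 * 2 := by norm_num
    rw [this]
    exact mul_ne_zero (mul_ne_zero h2 h2) hq
  obtain ⟨X, y, hXy⟩ := FiniteField.exists_root_sum_quadratic
    (f := Polynomial.C 1 * Polynomial.X ^ 2 + Polynomial.C 0 * Polynomial.X +
      Polynomial.C (-(4 * a * r)))
    (g := Polynomial.C (4 * q) * Polynomial.X ^ 2 + Polynomial.C 0 * Polynomial.X +
      Polynomial.C 0)
    (Polynomial.degree_quadratic one_ne_zero) (Polynomial.degree_quadratic h4)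
    (by
      rw [ZMod.card]
      exact (Nat.Prime.odd_of_ne_two Fact.out hp2).not_two_dvd_nat |> fun h => by omega)
  simp only [Polynomial.eval_add, Polynomial.eval_mul, Polynomial.eval_C, Polynomial.eval_pow,
    Polynomial.eval_X, one_mul, zero_mul, add_zero] at hXy
  refine ⟨(X - b * y) / (2 * a), y, ?_⟩
  field_simp
  linear_combination hXy - y ^ 2 * hd

private theorem rp_prime {q p : ℕ} (hq : q.Prime) (hp : p.Prime) (hp2 : p ≠ 2) (hpq : p ≠ q)
    {a b c : ℤ} (hd : b ^ 2 - 4 * a * c = -4 * q) (r : ℤ) : Rp a b c r p := by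
  have : Fact p.Prime := ⟨hp⟩
  have hq0 : (q : ZMod p) ≠ 0 := by
    rw [Ne, ZMod.natCast_eq_zero_iff]
    intro h
    exact hpq ((Nat.prime_dvd_prime_iff_eq hp hq).mp h)
  have hd' : (b : ZMod p) ^ 2 - 4 * a * c = -4 * q := by exact_mod_cast congrArg (Int.cast : ℤ → ZMod p) hd
  by_cases ha : (a : ZMod p) = 0
  · by_cases hc : (c : ZMod p) = 0
    · have hb : (b : ZMod p) ≠ 0 := by
        intro hb
        have h2 : (2 : ZMod p) ≠ 0 := by
          intro h0
          have h1 : ((2 : ℕ) : ZMod p) = 0 := by exact_mod_cast h0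
          rw [ZMod.natCast_eq_zero_iff] at h1
          exact hp2 ((Nat.prime_dvd_prime_iff_eq hp Nat.prime_two).mp h1)
        rw [ha, hb] at hd'
        have h3 : (2 : ZMod p) * (2 * q) = 0 := by linear_combination hd'
        rcases mul_eq_zero.mp h3 with h | h
        · exact h2 h
        · rcases mul_eq_zero.mp h with h | h
          · exact h2 h
          · exact hq0 h
      refine rp_of ((r : ZMod p) / b) 1 ?_
      rw [ha, hc]
      field_simp
      ring
    · obtain ⟨x, y, h⟩ := rp_sq (r := (r : ZMod p)) hp2 hq0 hc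
        (b := b) (c := a) (by linear_combination hd')
      refine rp_of y x ?_
      linear_combination h
  · obtain ⟨x, y, h⟩ := rp_sq (r := (r : ZMod p)) hp2 hq0 ha hd'
    exact rp_of x y h

theorem exists_norm {q : ℕ} (hq : q.Prime) (h1 : q % 4 = 1) {m : ℕ} (hm : Odd m) (hs : Squarefree m)
    (hqm : ¬ q ∣ m) (n : ℤ) (hn : n ≡ 1 [ZMOD 4]) : ∃ a b : ℤ, a ^ 2 + q * b ^ 2 ≡ n [ZMOD ((8 * m : ℕ) : ℤ)] := by
  have hmm : Rp 1 0 q n m := by
    induction m using Nat.recOnPosPrimePosCoprime with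
    | prime_pow p e hp he =>
      have he1 : e = 1 := by
        by_contra hne
        have h2 : 2 ≤ e := by omega
        have h3 : p * p ∣ p ^ e := by
          rw [← pow_two]
          exact pow_dvd_pow p h2
        exact hp.not_isUnit (hs p h3)
      subst he1
      rw [pow_one] at hm hqm ⊢
      refine rp_prime hq hp ?_ ?_ (by ring) n
      · rintro rfl
        exact absurd hm (by decide)
      · rintro rfl
        exact hqm (dvd_refl _)
    | zero => exact absurd hm (by decide)
    | one => exact ⟨0, 0, Int.modEq_one⟩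
    | coprime s t hs' ht hst ihs iht =>
      refine rp_mul hst (ihs ?_ ?_ ?_) (iht ?_ ?_ ?_)
      · exact (Nat.odd_mul.mp hm).1
      · exact hs.of_mul_left
      · exact fun h => hqm (h.mul_right t)
      · exact (Nat.odd_mul.mp hm).2
      · exact hs.of_mul_right
      · exact fun h => hqm (h.mul_left s)
  have h8 : Rp 1 0 q n 8 := by
    have hn' : n % 4 = 1 := by
      have h := hn
      unfold Int.ModEq at h
      omega
    have hq4 : (q : ℤ) % 4 = 1 := by omega
    have hcase : n % 8 = 1 ∨ n % 8 = 5 := by omega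
    rcases hcase with h | h
    · refine ⟨1, 0, ?_⟩
      show (_ : ℤ) % _ = n % _
      push_cast
      omega
    · refine ⟨1, 2, ?_⟩
      show (_ : ℤ) % _ = n % _
      push_cast
      omega
  have hco : Nat.Coprime 8 m := by
    have : Nat.Coprime 2 m := (Nat.coprime_two_left).mpr hm
    exact Nat.Coprime.pow_left 3 this
  obtain ⟨a, b, hab⟩ := rp_mul hco h8 hmm
  exact ⟨a, b, by simpa using hab⟩

end Pool.Agent.Work.MP_a5099b_nt.PrG
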