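import Pool.Agent.Work.MP_a5099b_nt.I1.DGen
import Pool.Agent.Work.MP_a5099b_nt.I1.DNorm

/-!
# DReal (size M-L, uses the statements of DGen, DNorm, CCls, CNm, CConj): real characters factor through the norm

PROOF. `N = 8 m`. For `u ∈ (ZMod N)ˣ` with `u ≡ 1 mod 4` there is `γ` with `(norm γ : ZMod N) = u` (`exists_norm`, `norm_int`), `Sm N (span {γ})` (`norm_gen`); put `ψ₀(u) = χ(cl (span {γ}))`, independent of the choice of `γ` (`cls_span_eq`) and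
multiplicative (`hc.mul`, norms multiply), `ψ₀(u)² = 1`. For `u ∈ (ZMod N)ˣ` let `s(u) = χ₄(u) = ± 1` and `ψ₁(u) = ψ₀(s(u) u)` (`s(u) u ≡ 1 mod 4`); `s` is multiplicative, so `ψ₁ : (ZMod N)ˣ →* ℂˣ`, `ψ₁² = 1`. Let `nm` be as in
`exists_nm` and `χ' = χ * (ψ₁ ∘ nm)⁻¹`; `χ'² = 1`; for `Sm N (span {γ})`: `nm (cl (span {γ})) = norm γ ≡ 1 mod 4` (`norm_mod4`), so `ψ₁(nm ..) = χ(cl (span {γ}))`, `χ' = 1` on principal classes. `genus`: `χ' = 1`, so
`χ(cl I) = ψ₁(absNorm I)`, `ψ = MulChar.ofUnitHom ψ₁`; or `χ'(cl I) = χ₄(absNorm I)`, `ψ = MulChar.ofUnitHom (ψ₁ * (χ₄ on (ZMod N)ˣ))`.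
-/

set_option autoImplicit false

namespace Pool.Agent.Work.MP_a5099b_nt.PrG

open Finset NumberField
open Pool.Agent.Work.MP_a5099b_nt.PrF (Sm LamK ids mem_ids cK lK Dat tw)

variable {K : Type} [Field K] [NumberField K] {q : ℕ} {δ : 𝓞 K} {N : ℕ} {G : Type} [CommGroup G] [Fintype G]
  {cl : Ideal (𝓞 K) → G}

/-- the sign `± 1` of a unit modulo `4`, times the unit -/
private noncomputable def vv {N : ℕ} (hN : 4 ∣ N) : (ZMod N)ˣ →* (ZMod N)ˣ :=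
  ((Units.map (Int.castRingHom (ZMod N) : ℤ →* ZMod N)).comp
    (ZMod.χ₄.toUnitHom.comp (ZMod.unitsMap hN))) * MonoidHom.id _

private theorem vv_cast {N : ℕ} (hN : 4 ∣ N) (u : (ZMod N)ˣ) :
    ZMod.castHom hN (ZMod 4) ((vv hN u : (ZMod N)ˣ) : ZMod N) = 1 := by
  have h1 : ((vv hN u : (ZMod N)ˣ) : ZMod N) =
      ((ZMod.χ₄ ((ZMod.unitsMap hN u : (ZMod 4)ˣ) : ZMod 4) : ℤ) : ZMod N) * (u : ZMod N) := by
    simp only [vv, MonoidHom.mul_apply, MonoidHom.comp_apply, Units.val_mul, Units.coe_map,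
      MonoidHom.id_apply, MulChar.coe_toUnitHom]
    rfl
  have h2 : ZMod.castHom hN (ZMod 4) (u : ZMod N) = ((ZMod.unitsMap hN u : (ZMod 4)ˣ) : ZMod 4) := rfl
  rw [h1, map_mul, map_intCast, h2]
  generalize ZMod.unitsMap hN u = w
  revert w
  decide

private theorem vv_of_one {N : ℕ} (hN : 4 ∣ N) (u : (ZMod N)ˣ)
    (hu : ZMod.castHom hN (ZMod 4) (u : ZMod N) = 1) : vv hN u = u := by
  have h1 : ZMod.unitsMap hN u = 1 := by
    apply Units.ext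
    exact hu
  simp [vv, h1]

private theorem exists_gen (h : Quad K q δ) {m : ℕ} (hm : Odd m) (hs : Squarefree m) (hqm : ¬ q ∣ m)
    (hN : 4 ∣ 8 * m) (u : (ZMod (8 * m))ˣ) :
    ∃ γ : 𝓞 K, Sm (8 * m) (Ideal.span {γ}) ∧
      ((Algebra.norm ℤ γ : ℤ) : ZMod (8 * m)) = ((vv hN u : (ZMod (8 * m))ˣ) : ZMod (8 * m)) := by
  have hm0 : 0 < m := hm.pos
  have : NeZero (8 * m) := ⟨by omega⟩
  set v : ZMod (8 * m) := ((vv hN u : (ZMod (8 * m))ˣ) : ZMod (8 * m)) with hv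
  have h1 : ((v.val : ℕ) : ZMod (8 * m)) = v := ZMod.natCast_zmod_val v
  have h2 : ((v.val : ℤ)) ≡ 1 [ZMOD 4] := by
    have h3 := vv_cast hN u
    rw [← hv, ← h1, map_natCast] at h3
    have h4 : (((v.val : ℕ) : ℤ) : ZMod 4) = ((1 : ℤ) : ZMod 4) := by
      push_cast
      simpa using h3
    exact (ZMod.intCast_eq_intCast_iff _ _ 4).1 h4
  obtain ⟨a, b, hab⟩ := exists_norm h.prime h.mod4 hm hs hqm (v.val : ℤ) h2
  refine ⟨(a : 𝓞 K) + (b : 𝓞 K) * δ, ?_, ?_⟩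
  · have h5 := norm_gen h ((a : 𝓞 K) + (b : 𝓞 K) * δ)
    rw [norm_int h] at h5
    have h6 : ((Ideal.absNorm (Ideal.span {(a : 𝓞 K) + (b : 𝓞 K) * δ}) : ℕ) : ZMod (8 * m)) = v := by
      have h7 := (ZMod.intCast_eq_intCast_iff _ _ (8 * m)).2 hab
      rw [← h5] at h7
      rw [← h1]
      exact_mod_cast h7
    have h8 : (Ideal.absNorm (Ideal.span {(a : 𝓞 K) + (b : 𝓞 K) * δ})).Coprime (8 * m) := by
      rw [← ZMod.isUnit_iff_coprime, h6, hv]
      exact Units.isUnit _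
    rw [Pool.Agent.Work.MP_a5099b_nt.PrF.Sm_iff]
    refine ⟨Nat.pos_of_ne_zero fun h9 => ?_, h8⟩
    rw [h9, Nat.coprime_zero_left] at h8
    omega
  · rw [norm_int h]
    have h7 := (ZMod.intCast_eq_intCast_iff _ _ (8 * m)).2 hab
    rw [h7]
    exact_mod_cast h1

theorem real_char (h : Quad K q δ) {m : ℕ} (hm : Odd m) (hs : Squarefree m) (hqm : ¬ q ∣ m)
    (hc : Cls (8 * m) G cl) (χ : G →* ℂˣ) (hχ : χ ^ 2 = 1) :
    ∃ ψ : DirichletCharacter ℂ (8 * m), ∀ I : Ideal (𝓞 K), Sm (8 * m) I →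
      ((χ (cl I) : ℂˣ) : ℂ) = ψ ((Ideal.absNorm I : ℕ) : ZMod (8 * m)) := by
  classical
  have hm0 : 0 < m := hm.pos
  have hN : 4 ∣ 8 * m := ⟨2 * m, by ring⟩
  have h0 : 8 * m ≠ 0 := by omega
  obtain ⟨nm, hnm⟩ := exists_nm h h0 hc
  choose γ hγS hγn using exists_gen h hm hs hqm hN
  have hind : ∀ (u : (ZMod (8 * m))ˣ) (x : 𝓞 K), Sm (8 * m) (Ideal.span {x}) →
      ((Algebra.norm ℤ x : ℤ) : ZMod (8 * m)) = ((vv hN u : (ZMod (8 * m))ˣ) : ZMod (8 * m)) →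
      cl (Ideal.span {γ u}) = cl (Ideal.span {x}) := by
    intro u x hx hxn
    apply cls_span_eq h hc _ _ (hγS u) hx
    exact (ZMod.intCast_eq_intCast_iff _ _ (8 * m)).1 ((hγn u).trans hxn.symm)
  set ψ₁ : (ZMod (8 * m))ˣ →* ℂˣ := MonoidHom.mk' (fun u => χ (cl (Ideal.span {γ u}))) (by
    intro u w
    have h1 : cl (Ideal.span {γ (u * w)}) = cl (Ideal.span {γ u * γ w}) := by
      apply hind
      · rw [← Ideal.span_singleton_mul_span_singleton]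
        exact Pool.Agent.Work.MP_a5099b_nt.PrF.Sm_mul.2 ⟨hγS u, hγS w⟩
      · rw [map_mul, map_mul, Int.cast_mul, hγn u, hγn w, Units.val_mul]
    rw [h1, ← Ideal.span_singleton_mul_span_singleton, hc.mul _ _ (hγS u) (hγS w), map_mul]) with hψ₁
  have hψv : ∀ u, ψ₁ u = χ (cl (Ideal.span {γ u})) := fun u => rfl
  have hψ2 : ∀ u, ψ₁ u * ψ₁ u = 1 := by
    intro u
    rw [hψv]
    have h1 := DFunLike.congr_fun hχ (cl (Ideal.span {γ u}))
    rw [pow_two] at h1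
    simpa using h1
  have hχ2 : ∀ g, χ g * χ g = 1 := by
    intro g
    have h1 := DFunLike.congr_fun hχ g
    rw [pow_two] at h1
    simpa using h1
  set χ' : G →* ℂˣ := χ * ψ₁.comp nm with hχ'
  have hχ'v : ∀ g, χ' g = χ g * ψ₁ (nm g) := fun g => rfl
  have hχ'2 : χ' ^ 2 = 1 := by
    ext g
    rw [pow_two]
    have h1 : (χ' * χ') g = 1 := by
      rw [MonoidHom.mul_apply, hχ'v, mul_mul_mul_comm, hχ2, hψ2, mul_one]
    rw [h1]
    rfl
  have hP : ∀ x : 𝓞 K, Sm (8 * m) (Ideal.span {x}) → χ' (cl (Ideal.span {x})) = 1 := by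
    intro x hx
    have h1 := norm_gen h x
    have h2 : ((nm (cl (Ideal.span {x})) : (ZMod (8 * m))ˣ) : ZMod (8 * m)) =
        ((Algebra.norm ℤ x : ℤ) : ZMod (8 * m)) := by
      rw [hnm _ hx, ← h1]
      push_cast
      rfl
    have hodd : Odd (Algebra.norm ℤ x) := by
      rw [← h1]
      have h2 : (Ideal.absNorm (Ideal.span {x})).Coprime 2 :=
        Nat.Coprime.coprime_dvd_right ((show (2 : ℕ) ∣ 4 by norm_num).trans hN) hx.2
      rw [Nat.coprime_two_right] at h2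
      exact_mod_cast h2
    have h3 := norm_mod4 h x hodd
    have h4 : ZMod.castHom hN (ZMod 4) ((nm (cl (Ideal.span {x})) : (ZMod (8 * m))ˣ) : ZMod (8 * m)) = 1 := by
      rw [h2, map_intCast]
      have h5 := (ZMod.intCast_eq_intCast_iff _ _ 4).2 h3
      simpa using h5
    have h5 := vv_of_one hN _ h4
    have h6 := hind (nm (cl (Ideal.span {x}))) x hx (by rw [h5, h2])
    rw [hχ'v, hψv, h6, hχ2]
  have hg := genus h hN h0 hc χ' hχ'2 hP
  have hχe : ∀ g, χ g = χ' g * ψ₁ (nm g) := by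
    intro g
    rw [hχ'v, mul_assoc, hψ2, mul_one]
  rcases hg with hg | hg
  · refine ⟨MulChar.ofUnitHom ψ₁, fun I hI => ?_⟩
    rw [← hnm I hI, MulChar.ofUnitHom_coe, hχe, hg]
    simp
  · refine ⟨MulChar.ofUnitHom (ψ₁ * (Units.map (Int.castRingHom ℂ : ℤ →* ℂ)).comp
      (ZMod.χ₄.toUnitHom.comp (ZMod.unitsMap hN))), fun I hI => ?_⟩
    have h1 : ((ZMod.unitsMap hN (nm (cl I)) : (ZMod 4)ˣ) : ZMod 4) = ((Ideal.absNorm I : ℕ) : ZMod 4) := by
      rw [ZMod.unitsMap_def, Units.coe_map]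
      have h2 : (ZMod.castHom hN (ZMod 4)) ((nm (cl I) : (ZMod (8 * m))ˣ) : ZMod (8 * m)) =
          ((Ideal.absNorm I : ℕ) : ZMod 4) := by
        rw [hnm I hI, map_natCast]
      exact h2
    rw [← hnm I hI, MulChar.ofUnitHom_coe, hχe, Units.val_mul, hg I hI, ← h1]
    simp only [MonoidHom.mul_apply, MonoidHom.comp_apply, Units.val_mul, Units.coe_map,
      MulChar.coe_toUnitHom]
    rw [mul_comm]
    rfl

end Pool.Agent.Work.MP_a5099b_nt.PrG
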