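import Pool.Agent.Work.MP_a5099b_nt.I.AMain
import Pool.Agent.Work.MP_a5099b_nt.I.BConv
import Pool.Agent.Work.MP_a5099b_nt.I.BPrim
import Pool.Agent.Work.MP_a5099b_nt.I1.CCnt
import Pool.Agent.Work.MP_a5099b_nt.I1.CRel
import Pool.Agent.Work.MP_a5099b_nt.I1.DDir

set_option autoImplicit false

/-!
# ECls (assembly): infinitely many prime ideals of degree one in every class
-/

namespace Pool.Agent.Work.MP_a5099b_nt.PrG

open Finset NumberField
open Pool.Agent.Work.MP_a5099b_nt.PrF (Sm LamK ids mem_ids cK lK Dat tw)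

variable {K : Type} [Field K] [NumberField K] {q : ℕ} {δ : 𝓞 K} {N : ℕ} {G : Type} [CommGroup G] [Fintype G]
  {cl : Ideal (𝓞 K) → G}

theorem primes_in_class (h : Quad K q δ) {m : ℕ} (hm : Odd m) (hs : Squarefree m) (hqm : ¬ q ∣ m)
    (hc : Cls (8 * m) G cl) (g : G) :
    {P : Ideal (𝓞 K) | P.IsPrime ∧ (Ideal.absNorm P).Prime ∧ Sm (8 * m) P ∧ cl P = g}.Infinite := by
  have hN : 4 ∣ 8 * m := ⟨2 * m, by ring⟩
  have h0 : 8 * m ≠ 0 := by
    obtain ⟨k, hk⟩ := hm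
    omega
  obtain ⟨κ, C, hκ, hcnt⟩ := cls_count h hN h0 hc
  have hd : Dat (cK (8 * m) cl) (lK (8 * m) cl) κ C :=
    { c0 := PrF.cK_nonneg (8 * m) cl
      l0 := PrF.lK_nonneg (8 * m) cl
      one := PrF.cK_one (8 * m) cl hc.mul
      conv := PrF.cK_conv (8 * m) cl hc.mul
      kpos := hκ
      cnt := hcnt }
  exact PrF.infinite_primes (8 * m) cl g fun M =>
    PrF.diverge hd (fun χ h1 h2 => real_nonvanish h hm hs hqm hc hd χ h1 h2) g M

end Pool.Agent.Work.MP_a5099b_nt.PrG
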