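import Pool.Agent.Work.MP_a5099b_nt.I1.ECls
import Pool.Agent.Work.MP_a5099b_nt.I1.EInst
import Pool.Agent.Work.MP_a5099b_nt.I1.EIdl

set_option autoImplicit false

/-!
# ECore (size M, uses the statements of ECls, EInst, EIdl, CRel, CCls, CConj, CInt): primes represented by a form with `a` prime to `8 m`

PROOF (variant of `I/ECore.lean`, proved). `N = 8 m`. Take `K`, `δ` from `exists_quad`, `G`, `cl` from `exists_cls`, `I₀ = (a, δ - b)`, `absNorm I₀ = a` prime to `N`, so `Sm N I₀`; also `Sm N (a)` (`absNorm (a) = a²`). Let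
`g = (cl I₀)⁻¹ * cl (span {a})`. The infinitely many `P` of `primes_in_class` have infinitely many norms, so there is one with `l = absNorm P > B`, `l` prime. `cl (I₀ P) = cl (span {a})`, so `Rel N (I₀ P) (span {a})`:
`(α) I₀ P = (β)(a)`, `norm α ≡ norm β mod N`, `norm α` prime to `N`. So `β a = α γ` and `I₀ P = (γ)` (cancel `(α)`), `γ ∈ I₀`, `norm γ = absNorm (I₀ P) = a l`, and `norm α norm γ = norm β a² ≡ norm α a²`, so `a l ≡ a² mod N`,
`l ≡ a mod N`. `mem_norm`: `a l = norm γ = a (a x² + 2 b x y + c y²)`, cancel `a`.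
-/

namespace Pool.Agent.Work.MP_a5099b_nt.PrG

open Finset NumberField
open Pool.Agent.Work.MP_a5099b_nt.PrF (Sm LamK ids mem_ids cK lK Dat tw)


private theorem mem_left {R : Type} [CommRing R] (I J : Ideal R) {x : R} (hx : x ∈ I * J) : x ∈ I :=
  Ideal.mul_le_left (I := I) (J := J) hx

private theorem core_aux {K : Type} [Field K] [NumberField K] {q : ℕ} {δ : 𝓞 K} (h : Quad K q δ) (m : ℕ)
    (hm : Odd m) (hs : Squarefree m) (hqm : ¬ q ∣ m) (N : ℕ) (hNm : N = 8 * m) {G : Type} [CommGroup G] [Fintype G]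
    {cl : Ideal (𝓞 K) → G} (hc : Cls N G cl) (a b c : ℤ) (ha : 0 < a) (hcop : IsCoprime a (N : ℤ)) (hd : a * c - b ^ 2 = q) (B : ℕ) :
    ∃ l : ℕ, B < l ∧ l.Prime ∧ (l : ℤ) ≡ a [ZMOD (N : ℤ)] ∧
      ∃ x y : ℤ, (l : ℤ) = a * x ^ 2 + 2 * b * x * y + c * y ^ 2 := by
  have hN : 2 ∣ N := ⟨4 * m, by omega⟩
  have h0 : N ≠ 0 := by
    have := Nat.odd_iff.1 hm
    omega
  have hodd : Odd a := by
    rw [← Int.not_even_iff_odd]
    intro he
    have h1 : (2 : ℤ) ∣ a := even_iff_two_dvd.1 he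
    have h2 : (2 : ℤ) ∣ (N : ℤ) := by exact_mod_cast hN
    have h3 := hcop.isUnit_of_dvd' h1 h2
    exact Int.prime_two.not_isUnit h3
  have hna : Algebra.norm ℤ (a : 𝓞 K) = a ^ 2 := by
    have h3 := norm_int h a 0
    simpa using h3
  have hA : ((Ideal.absNorm (Ideal.span {(a : 𝓞 K), δ - (b : 𝓞 K)}) : ℕ) : ℤ) = a := absNorm_form h a b c ha hodd hd
  have hI0 : Sm N (Ideal.span {(a : 𝓞 K), δ - (b : 𝓞 K)}) := by
    rw [Pool.Agent.Work.MP_a5099b_nt.PrF.Sm_iff]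
    constructor
    · have : (0 : ℤ) < ((Ideal.absNorm (Ideal.span {(a : 𝓞 K), δ - (b : 𝓞 K)}) : ℕ) : ℤ) := by rw [hA]; exact ha
      exact_mod_cast this
    · rw [← Nat.isCoprime_iff_coprime, hA]
      exact hcop
  have hsp : Sm N (Ideal.span {(a : 𝓞 K)}) := by
    have h1 : (((Ideal.absNorm (Ideal.span {(a : 𝓞 K)})) : ℕ) : ℤ) = a ^ 2 := by
      rw [norm_gen h, hna]
    rw [Pool.Agent.Work.MP_a5099b_nt.PrF.Sm_iff]
    constructor
    · have : (0 : ℤ) < ((Ideal.absNorm (Ideal.span {(a : 𝓞 K)}) : ℕ) : ℤ) := by rw [h1]; positivity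
      exact_mod_cast this
    · rw [← Nat.isCoprime_iff_coprime, h1]
      exact hcop.pow_left
  have hc' : Cls (8 * m) G cl := hNm ▸ hc
  have hinf := primes_in_class h hm hs hqm hc'
    ((cl (Ideal.span {(a : 𝓞 K), δ - (b : 𝓞 K)}))⁻¹ * cl (Ideal.span {(a : 𝓞 K)}))
  have hfin : {P : Ideal (𝓞 K) | Ideal.absNorm P ≤ B}.Finite := Ideal.finite_setOfPred_absNorm_le B
  obtain ⟨P, ⟨hP1, hP2, hP3, hP4⟩, hP5⟩ := hinf.exists_notMem_finite hfin
  rw [← hNm] at hP3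
  have hrel : Rel N (Ideal.span {(a : 𝓞 K), δ - (b : 𝓞 K)} * P) (Ideal.span {(a : 𝓞 K)}) := by
    refine (hc.eq_iff _ _ (Pool.Agent.Work.MP_a5099b_nt.PrF.Sm_mul.2 ⟨hI0, hP3⟩) hsp).1 ?_
    rw [hc.mul _ _ hI0 hP3, hP4, mul_inv_cancel_left]
  obtain ⟨α, β, hcα, hnorm, heq⟩ := hrel
  have hmem : β * (a : 𝓞 K) ∈ Ideal.span {α} := by
    have h1 : β * (a : 𝓞 K) ∈ Ideal.span {β} * Ideal.span {(a : 𝓞 K)} :=
      Ideal.mul_mem_mul (Ideal.mem_span_singleton_self β) (Ideal.mem_span_singleton_self _)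
    rw [← heq] at h1
    exact mem_left _ _ h1
  obtain ⟨γ, hγ⟩ := Ideal.mem_span_singleton.1 hmem
  have hα0 : α ≠ 0 := by
    rintro rfl
    rw [Algebra.norm_zero, isCoprime_zero_left, Int.isUnit_iff] at hcα
    have h2 : 0 < N := Nat.pos_of_ne_zero h0
    omega
  have hIP : Ideal.span {(a : 𝓞 K), δ - (b : 𝓞 K)} * P = Ideal.span {γ} := by
    have h1 : Ideal.span {α} * (Ideal.span {(a : 𝓞 K), δ - (b : 𝓞 K)} * P) = Ideal.span {α} * Ideal.span {γ} := by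
      rw [heq, Ideal.span_singleton_mul_span_singleton, Ideal.span_singleton_mul_span_singleton, hγ]
    have h2 : Ideal.span {α} ≠ ⊥ := by
      rw [Ne, Ideal.span_singleton_eq_bot]
      exact hα0
    exact mul_left_cancel₀ h2 h1
  have hγ1 : γ ∈ Ideal.span {(a : 𝓞 K), δ - (b : 𝓞 K)} := by
    have h1 : γ ∈ Ideal.span {(a : 𝓞 K), δ - (b : 𝓞 K)} * P := by
      rw [hIP]
      exact Ideal.mem_span_singleton_self γ
    exact mem_left _ _ h1
  have hnγ : Algebra.norm ℤ γ = a * (Ideal.absNorm P : ℤ) := by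
    rw [← norm_gen h, ← hIP, map_mul]
    push_cast
    rw [hA]
  have hmul : Algebra.norm ℤ α * Algebra.norm ℤ γ = Algebra.norm ℤ β * a ^ 2 := by
    rw [← map_mul, ← hγ, map_mul, hna]
  refine ⟨Ideal.absNorm P, lt_of_not_ge hP5, hP2, ?_, ?_⟩
  · rw [Int.modEq_iff_dvd] at hnorm ⊢
    obtain ⟨k, hk⟩ := hnorm
    -- norm β - norm α = N k
    have h1 : (N : ℤ) ∣ Algebra.norm ℤ α * (a * (a - (Ideal.absNorm P : ℤ))) := by
      refine ⟨-(k * a ^ 2), ?_⟩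
      rw [hnγ] at hmul
      linear_combination (-(a ^ 2)) * hk - hmul
    have h2 := hcα.symm.dvd_of_dvd_mul_left h1
    exact hcop.symm.dvd_of_dvd_mul_left h2
  · obtain ⟨x, y, hxy⟩ := mem_norm h a b c ha hodd hd γ hγ1
    refine ⟨x, y, ?_⟩
    rw [hnγ] at hxy
    exact mul_left_cancel₀ ha.ne' hxy

theorem core (q : ℕ) (hq : q.Prime) (h1 : q % 4 = 1) (m : ℕ) (hm : Odd m) (hs : Squarefree m) (hqm : ¬ q ∣ m)
    (a b c : ℤ) (ha : 0 < a) (hcop : IsCoprime a ((8 * m : ℕ) : ℤ)) (hd : a * c - b ^ 2 = q) (B : ℕ) :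
    ∃ l : ℕ, B < l ∧ l.Prime ∧ (l : ℤ) ≡ a [ZMOD ((8 * m : ℕ) : ℤ)] ∧
      ∃ x y : ℤ, (l : ℤ) = a * x ^ 2 + 2 * b * x * y + c * y ^ 2 := by
  obtain ⟨K, i1, i2, δ, h⟩ := exists_quad q hq h1
  obtain ⟨G, i3, i4, cl, hc⟩ := exists_cls h (8 * m) ⟨2 * m, by ring⟩ (by
    have := Nat.odd_iff.1 hm
    omega)
  exact core_aux h m hm hs hqm (8 * m) rfl hc a b c ha hcop hd B

end Pool.Agent.Work.MP_a5099b_nt.PrG
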